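import Pool.Agent.H77AR.P2

/-!
# Full support reflections and squares of the Garside elements of the irreducible parabolic subgroups
-/

set_option autoImplicit false
set_option linter.unusedSectionVars false

namespace Pool.Agent.H77AR

open CoxeterSystem Pool.Agent.Helper741

variable {B : Type} {M : CoxeterMatrix B} [Fintype B] [DecidableEq B] {W : Type} [Group W] (cs : CoxeterSystem M W)

/-- irreducible sets of generators -/
def Irr (M : CoxeterMatrix B) (K : Finset B) : Prop :=
  K.Nonempty ∧ ∀ S ⊆ K, S.Nonempty → S ≠ K → ∃ i ∈ S, ∃ j ∈ K, j ∉ S ∧ M i j ≠ 2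

theorem cc_nonneg {i j : B} (h : i ≠ j) : 0 ≤ cc M i j := by
  unfold cc
  by_cases h0 : M i j = 0
  · rw [h0]; simp
  · have h2 := two_le_of_ne M h h0
    have h3 : (2 : ℝ) ≤ (M i j : ℝ) := by exact_mod_cast h2
    apply Real.cos_nonneg_of_mem_Icc
    constructor
    · have : 0 ≤ Real.pi / (M i j : ℝ) := by positivity
      linarith [Real.pi_pos]
    · exact div_le_div_of_nonneg_left Real.pi_pos.le two_pos h3

theorem cc_pos {i j : B} (h : i ≠ j) (h' : M i j ≠ 2) : 0 < cc M i j := by
  unfold cc
  by_cases h0 : M i j = 0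
  · rw [h0]; simp
  · have h2 := two_le_of_ne M h h0
    have h4 : 3 ≤ M i j := by omega
    have h3 : (3 : ℝ) ≤ (M i j : ℝ) := by exact_mod_cast h4
    apply Real.cos_pos_of_mem_Ioo
    constructor
    · have : 0 ≤ Real.pi / (M i j : ℝ) := by positivity
      linarith [Real.pi_pos]
    · have h5 : Real.pi / (M i j : ℝ) ≤ Real.pi / 3 := div_le_div_of_nonneg_left Real.pi_pos.le (by norm_num) h3
      linarith [Real.pi_pos]

/-- one step of the enlargement of the support -/
theorem grow {u : W} {i j : B} (h0 : 0 ≤ geo cs u (ee i)) (hj : geo cs u (ee i) j = 0)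
    (hs : ∃ s, 0 < geo cs u (ee i) s ∧ M s j ≠ 2) :
    (∀ k, k ≠ j → geo cs (cs.simple j * u) (ee i) k = geo cs u (ee i) k) ∧ 0 < geo cs (cs.simple j * u) (ee i) j := by
  obtain ⟨β, hβ⟩ : ∃ β, β = geo cs u (ee i) := ⟨_, rfl⟩
  rw [← hβ] at h0 hj hs ⊢
  have e1 : geo cs (cs.simple j * u) (ee i) = β - coroot M j β • ee j := by
    rw [map_mul, Module.End.mul_apply, geo_simple, ← hβ, sg_apply]
  have hco : coroot M j β < 0 := by
    unfold coroot
    rw [LinearMap.sum_apply]
    obtain ⟨s, hs1, hs2⟩ := hs
    have hsj : s ≠ j := by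
      rintro rfl
      rw [hj] at hs1
      exact lt_irrefl _ hs1
    refine Finset.sum_neg' (fun k _ => ?_) ⟨s, Finset.mem_univ _, ?_⟩
    · rw [LinearMap.smul_apply, LinearMap.proj_apply, smul_eq_mul]
      by_cases hk : k = j
      · rw [hk, hj, mul_zero]
      · have h1 := cc_nonneg (M := M) (Ne.symm hk)
        have h2 := h0 k
        simp only [Pi.zero_apply] at h2
        nlinarith
    · rw [LinearMap.smul_apply, LinearMap.proj_apply, smul_eq_mul]
      have h1 : 0 < cc M j s := cc_pos (Ne.symm hsj) (by rw [M.symmetric]; exact hs2)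
      nlinarith
  constructor
  · intro k hk
    rw [e1]
    simp [ee, hk]
  · rw [e1]
    simp only [ee, Pi.sub_apply, Pi.smul_apply, Pi.single_eq_same, smul_eq_mul, mul_one, hj]
    linarith

/-- roots of full support -/
theorem exists_full {K : Finset B} (hK : Irr M K) :
    ∃ u ∈ para cs K, ∃ i ∈ K, ∀ k ∈ K, 0 < geo cs u (ee i) k := by
  classical
  have key : ∀ m : ℕ, ∀ u ∈ para cs K, ∀ i ∈ K, 0 ≤ geo cs u (ee i) →
      (K.filter (fun k => geo cs u (ee i) k = 0)).card = m → ∃ u ∈ para cs K, ∃ i ∈ K, ∀ k ∈ K, 0 < geo cs u (ee i) k := by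
    intro m
    induction m with
    | zero =>
      intro u hu i hi h0 hm
      refine ⟨u, hu, i, hi, fun k hk => lt_of_le_of_ne (h0 k) ?_⟩
      intro h
      rw [Finset.card_eq_zero, Finset.filter_eq_empty_iff] at hm
      exact hm hk h.symm
    | succ m ih =>
      intro u hu i hi h0 hm
      obtain ⟨S, hS⟩ : ∃ S, S = K.filter (fun k => 0 < geo cs u (ee i) k) := ⟨_, rfl⟩
      have hSne : S.Nonempty := by
        by_contra h
        rw [Finset.not_nonempty_iff_eq_empty, hS, Finset.filter_eq_empty_iff] at h
        apply geo_ee_ne_zero cs u i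
        funext k
        by_cases hk : k ∈ K
        · exact le_antisymm (not_lt.mp (h hk)) (h0 k)
        · rw [geo_para cs hu _ hk]
          have : k ≠ i := fun h => hk (by rw [h]; exact hi)
          simp [ee, this]
      have hSK : S ≠ K := by
        intro h
        have h1 : (K.filter (fun k => geo cs u (ee i) k = 0)) = ∅ := by
          rw [Finset.filter_eq_empty_iff]
          intro k hk hk0
          rw [← h, hS, Finset.mem_filter] at hk
          exact hk.2.ne' hk0
        rw [h1, Finset.card_empty] at hm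
        omega
      obtain ⟨s, hsS, j, hjK, hjS, hsj⟩ := hK.2 S (by rw [hS]; exact Finset.filter_subset _ _) hSne hSK
      have hj0 : geo cs u (ee i) j = 0 := by
        rw [hS, Finset.mem_filter] at hjS
        exact le_antisymm (not_lt.mp fun h => hjS ⟨hjK, h⟩) (h0 j)
      have hs0 : 0 < geo cs u (ee i) s := by
        rw [hS, Finset.mem_filter] at hsS
        exact hsS.2
      obtain ⟨g1, g2⟩ := grow cs h0 hj0 ⟨s, hs0, hsj⟩
      refine ih (cs.simple j * u) (mul_mem (simple_mem_para cs hjK) hu) i hi ?_ ?_
      · intro k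
        by_cases hk : k = j
        · rw [hk]; exact g2.le
        · rw [g1 k hk]; exact h0 k
      · have h1 : (K.filter (fun k => geo cs (cs.simple j * u) (ee i) k = 0)) =
            (K.filter (fun k => geo cs u (ee i) k = 0)).erase j := by
          ext k
          rw [Finset.mem_erase, Finset.mem_filter, Finset.mem_filter]
          by_cases hk : k = j
          · rw [hk]
            exact ⟨fun h => absurd h.2 g2.ne', fun h => absurd rfl h.1⟩
          · rw [g1 k hk]
            exact ⟨fun h => ⟨hk, h⟩, fun h => h.2⟩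
        rw [h1, Finset.card_erase_of_mem (Finset.mem_filter.mpr ⟨hjK, hj0⟩), hm]
        rfl
  obtain ⟨i, hi⟩ := hK.1
  refine key _ 1 (one_mem _) i hi ?_ rfl
  rw [map_one, Module.End.one_apply]
  exact ee_nonneg i

theorem full_para {K J : Finset B} {u : W} {i : B} (hfull : ∀ k ∈ K, 0 < geo cs u (ee i) k)
    (h : u * cs.simple i * u⁻¹ ∈ para cs J) : K ⊆ J := by
  intro k hk
  by_contra hkJ
  have h1 := geo_para cs h (geo cs u (ee i)) hkJ
  rw [map_mul, Module.End.mul_apply, geo_inv_apply, map_mul, Module.End.mul_apply, geo_simple, sg_ee_self, map_neg,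
    Pi.neg_apply] at h1
  have h2 := hfull k hk
  linarith

/-! ### The cocycle -/

/-- the cocycle of the length homomorphism -/
noncomputable def psi (x : Artin M) (t : W) : ℤ := (cocyc cs (lenHom M) x).v t

theorem psi_mul (x y : Artin M) (t : W) :
    psi cs (x * y) t = psi cs x t + psi cs y ((Artin.toCox cs x)⁻¹ * t * Artin.toCox cs x) := by
  unfold psi
  rw [map_mul, TExt.mul_v, Finsupp.add_apply, TExt.act_apply, cocyc_w]

theorem psi_gen (i : B) (t : W) [DecidableEq W] : psi cs (Artin.gen M i) t = if cs.simple i = t then 1 else 0 := by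
  unfold psi
  rw [cocyc_gen, TExt.el_v, lenHom_gen, toAdd_ofAdd, Finsupp.single_apply]

/-- the subgroup of the Artin group which is generated by the generators in `J` -/
def AJ (M : CoxeterMatrix B) (J : Finset B) : Subgroup (Artin M) := Subgroup.closure (Artin.gen M '' (J : Set B))

theorem AJ_mono {J K : Finset B} (h : J ⊆ K) : AJ M J ≤ AJ M K :=
  Subgroup.closure_mono (Set.image_mono (Finset.coe_subset.mpr h))

theorem toCox_mem {J : Finset B} {x : Artin M} (hx : x ∈ AJ M J) : Artin.toCox cs x ∈ para cs J := by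
  unfold AJ at hx
  induction hx using Subgroup.closure_induction with
  | mem x hx =>
    obtain ⟨i, hi, rfl⟩ := hx
    rw [Artin.toCox_gen]
    exact simple_mem_para cs hi
  | one => rw [map_one]; exact one_mem _
  | mul x y _ _ hx hy => rw [map_mul]; exact mul_mem hx hy
  | inv x _ hx => rw [map_inv]; exact inv_mem hx

theorem psi_supp {J : Finset B} {x : Artin M} (hx : x ∈ AJ M J) (t : W) (h : psi cs x t ≠ 0) : t ∈ para cs J := by
  classical
  unfold AJ at hx
  induction hx using Subgroup.closure_induction generalizing t with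
  | mem x hx =>
    obtain ⟨i, hi, rfl⟩ := hx
    rw [psi_gen] at h
    split_ifs at h with h1
    · rw [← h1]
      exact simple_mem_para cs hi
    · exact absurd rfl h
  | one =>
    unfold psi at h
    simp at h
  | mul x y hx' hy' hx hy =>
    rw [psi_mul] at h
    by_cases h1 : psi cs x t = 0
    · rw [h1, zero_add] at h
      have h2 := hy _ h
      have h3 := toCox_mem cs hx'
      have h4 := mul_mem (mul_mem h3 h2) (inv_mem h3)
      have h5 : Artin.toCox cs x * ((Artin.toCox cs x)⁻¹ * t * Artin.toCox cs x) * (Artin.toCox cs x)⁻¹ = t := by group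
      rwa [h5] at h4
    · exact hx _ h1
  | inv x hx' hx =>
    unfold psi at h hx
    rw [map_inv, TExt.inv_v, Finsupp.neg_apply, neg_ne_zero, TExt.act_apply, cocyc_w] at h
    have h2 := hx _ h
    have h3 := toCox_mem cs hx'
    have h4 := mul_mem (mul_mem (inv_mem h3) h2) h3
    have h5 : (Artin.toCox cs x)⁻¹ * ((Artin.toCox cs x)⁻¹⁻¹ * t * (Artin.toCox cs x)⁻¹) * Artin.toCox cs x = t := by
      group
    rwa [h5] at h4

theorem psi_nonneg (ω : List B) (t : W) : 0 ≤ psi cs ((ω.map (Artin.gen M)).prod) t := by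
  classical
  induction ω generalizing t with
  | nil =>
    unfold psi
    simp
  | cons i ω ih =>
    rw [List.map_cons, List.prod_cons, psi_mul, psi_gen]
    have h1 := ih ((Artin.toCox cs (Artin.gen M i))⁻¹ * t * Artin.toCox cs (Artin.gen M i))
    split_ifs <;> linarith

theorem sec_psi_nonneg (w t : W) : 0 ≤ psi cs (sec cs w) t := psi_nonneg cs _ t

theorem toCox_sec (w : W) : Artin.toCox cs (sec cs w) = w := by
  unfold sec
  have h : ∀ ω : List B, Artin.toCox cs ((ω.map (Artin.gen M)).prod) = cs.wordProd ω := by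
    intro ω
    induction ω with
    | nil => simp
    | cons i ω ih => rw [List.map_cons, List.prod_cons, map_mul, ih, Artin.toCox_gen, cs.wordProd_cons]
  rw [h, rword_prod]

theorem sec_mem {J : Finset B} {w : W} (hw : w ∈ para cs J) : sec cs w ∈ AJ M J := by
  obtain ⟨ω, h1, h2, h3⟩ := exists_jword cs hw
  rw [← h2, sec_eq cs ω h1]
  clear h1 h2
  induction ω with
  | nil => simp
  | cons i ω ih =>
    rw [List.map_cons, List.prod_cons]
    exact mul_mem (Subgroup.subset_closure ⟨i, h3 i List.mem_cons_self, rfl⟩)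
      (ih fun j hj => h3 j (List.mem_cons_of_mem _ hj))

variable {cs}

theorem IsTop.comm_all {J : Finset B} {w : W} (hw : IsTop cs J w) {x : Artin M} (hx : x ∈ AJ M J) :
    Commute (sec cs w * sec cs w) x := by
  unfold AJ at hx
  induction hx using Subgroup.closure_induction with
  | mem x hx =>
    obtain ⟨i, hi, rfl⟩ := hx
    exact hw.sq_comm hi
  | one => exact Commute.one_right _
  | mul x y _ _ hx hy => exact hx.mul_right hy
  | inv x _ hx => exact hx.inv_right

theorem IsTop.toCox_sq {J : Finset B} {w : W} (hw : IsTop cs J w) : Artin.toCox cs (sec cs w * sec cs w) = 1 := by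
  rw [map_mul, toCox_sec]
  exact hw.sq

theorem IsTop.psi_simple {J : Finset B} {w : W} (hw : IsTop cs J w) {i : B} (hi : i ∈ J) :
    0 < psi cs (sec cs w * sec cs w) (cs.simple i) := by
  classical
  have h1 : cs.length (cs.simple i * w) < cs.length w := by
    have h2 := hw.desc i hi
    rw [← cs.length_inv, mul_inv_rev, cs.inv_simple, inv_eq_of_mul_eq_one_left hw.sq]
    exact h2
  have h2 : sec cs w = Artin.gen M i * sec cs (cs.simple i * w) := by
    have := sec_simple_mul cs (cs.simple i * w) i (by
      rw [cs.simple_mul_simple_cancel_left]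
      exact h1)
    rwa [cs.simple_mul_simple_cancel_left] at this
  have h3 : 1 ≤ psi cs (sec cs w) (cs.simple i) := by
    rw [h2, psi_mul, psi_gen, if_pos rfl]
    have := sec_psi_nonneg cs (cs.simple i * w)
      ((Artin.toCox cs (Artin.gen M i))⁻¹ * cs.simple i * Artin.toCox cs (Artin.gen M i))
    linarith
  rw [psi_mul]
  have h4 := sec_psi_nonneg cs w ((Artin.toCox cs (sec cs w))⁻¹ * cs.simple i * Artin.toCox cs (sec cs w))
  linarith

theorem IsTop.psi_conj {J : Finset B} {w : W} (hw : IsTop cs J w) {u : W} (hu : u ∈ para cs J) (r : W) :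
    psi cs (sec cs w * sec cs w) (u * r * u⁻¹) = psi cs (sec cs w * sec cs w) r := by
  have h1 := cocyc_inv_of_commute cs (lenHom M) (sec cs w * sec cs w) (sec cs u)
    (hw.comm_all (sec_mem cs hu)).eq (by
      intro w'
      rw [hw.toCox_sq, one_mul, mul_one]) r
  rw [toCox_sec] at h1
  exact h1

end Pool.Agent.H77AR
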