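import Pool.Agent.H77RA.D2

/-!
# The odd map on the deleted join, for groups with a homomorphism from a right-angled Artin group
-/

set_option autoImplicit false
set_option linter.unusedSectionVars false

namespace Pool.Agent.H77AR

open Finset Pool.Agent.W326.DU Pool.Agent.W555.KS Pool.Agent.Y131.KS Pool.Agent.R782.Bal Pool.Agent.H77RA

variable {V : Type} [Fintype V] [DecidableEq V] (G : SimpleGraph V)

/-- the elements with clique support in the image of a homomorphism from the right-angled Artin group are far apart -/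
def SepH {Γ : Type} [Group Γ] (ρ : RAAG G.Adj →* Γ) : Prop :=
  ∀ T : Set Γ, T.Finite → ∃ C : ℕ, ∀ a a' : V → ℤ, G.IsClique {v | a v ≠ 0} → G.IsClique {v | a' v ≠ 0} →
    ρ ((gL G a)⁻¹ * gL G a') ∈ T → ∀ v, |a' v - a v| ≤ C

/-- the list of pairs -/
noncomputable def lG {Γ : Type} [Group Γ] (ρ : RAAG G.Adj →* Γ) (N : ℤ) : List (Γ × ((V → ℝ) → unitInterval)) :=
  (boxF G N).toList.map (fun a => (ρ (gL G a), sF a))

theorem countG_le {Γ : Type} [Group Γ] (ρ : RAAG G.Adj →* Γ) (N : ℤ) (y : V → ℝ) :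
    (lG G ρ N).countP (fun q => decide (q.2 y ≠ 0)) ≤ 6 ^ Fintype.card V := by
  have h := count_le G N y
  unfold lF at h
  unfold lG
  rw [List.countP_map] at h ⊢
  exact h

theorem nearG_mem {Γ : Type} [Group Γ] (ρ : RAAG G.Adj →* Γ) {a a' : V → ℤ} (ha : G.IsClique {v | a v ≠ 0})
    (ha' : G.IsClique {v | a' v ≠ 0}) (h : ∀ v, |a v - a' v| ≤ 4) :
    (ρ (gL G a))⁻¹ * ρ (gL G a') ∈ ρ '' SS G := by
  rw [← map_inv, ← map_mul]
  exact ⟨_, near_mem G ha ha' h, rfl⟩

variable {Γ : Type} [Group Γ] {W : Type} [TopologicalSpace W] [ContractibleSpace W] [MulAction Γ W]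
  [ContinuousConstSMul Γ W] [ProperlyDiscontinuousSMul Γ W]

open Pointwise in
/-- The map of the cone over the deleted join. -/
theorem exists_f1g (ρ : RAAG G.Adj →* Γ) (hsep : SepH G ρ) {n : ℕ} (e : V × Bool ≃ Fin n) :
    ∃ f1 : (Fin n → ℝ) → W, Continuous f1 ∧ ∀ x ∈ dJoin (clF (OG G) e), f1 x ≠ f1 (-x) := by
  classical
  obtain ⟨p, ⟨H⟩⟩ := id_nullhomotopic W
  set HH : C(unitInterval × W, W) := H.toContinuousMap with hHH
  have hH0 : ∀ w, HH (0, w) = w := fun w => H.apply_zero w
  have hH1 : ∀ w, HH (1, w) = p := fun w => H.apply_one w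
  set K : Set W := KK HH p (ρ '' SS G) (6 ^ Fintype.card V) with hK
  have hKc : IsCompact K := KK_compact HH p ((SS_finite G).image ρ) _
  have hT : Set.Finite {γ : Γ | (fun w => γ • w) '' K ∩ K ≠ ∅} := by
    have := ProperlyDiscontinuousSMul.finite_disjoint_inter_image (Γ := Γ) hKc hKc
    simpa [Set.nonempty_iff_ne_empty] using this
  -- bound for the exponents
  obtain ⟨B, hB⟩ := hsep _ hT
  set R : ℕ := Fintype.card V * (B + 4) + 1 with hR
  set F : (V → ℝ) → W := fun y => foldF HH (lG G ρ (R + 1)) y p with hF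
  have hFc : Continuous F := by
    refine foldF_cont HH _ ?_ p
    intro q hq
    obtain ⟨a, _, rfl⟩ := List.mem_map.mp hq
    exact sF_cont a
  -- location of the values
  have hloc : ∀ y : V → ℝ, (∀ v, |y v| ≤ R) → G.IsClique {v | y v ≠ 0} →
      ∃ a : V → ℤ, (∀ v, |y v - a v| ≤ 1) ∧ G.IsClique {v | a v ≠ 0} ∧ (ρ (gL G a))⁻¹ • F y ∈ K := by
    intro y hy hcl
    set a : V → ℤ := fun v => ⌊y v⌋ with ha
    have h1 : ∀ v, |y v - a v| ≤ 1 := by
      intro v
      rw [abs_le]
      have h4 := Int.floor_le (y v)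
      have h5 := Int.lt_floor_add_one (y v)
      simp only [ha]
      constructor <;> linarith
    have hcla : G.IsClique {v | a v ≠ 0} := by
      refine hcl.subset ?_
      intro v hv
      simp only [Set.mem_setOf_eq, ha] at hv ⊢
      intro h2
      rw [h2] at hv
      simp at hv
    have hmem : a ∈ boxF G (R + 1) := by
      unfold boxF
      rw [mem_filter, Finset.mem_Icc]
      refine ⟨⟨fun v => ?_, fun v => ?_⟩, hcla⟩
      · have h2 := abs_le.mp (hy v)
        have h3 := abs_le.mp (h1 v)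
        have h4 : (-(((R : ℤ) + 1 : ℤ)) : ℝ) ≤ a v := by push_cast; linarith [h2.1, h3.2]
        exact_mod_cast h4
      · have h2 := abs_le.mp (hy v)
        have h3 := abs_le.mp (h1 v)
        have h4 : (a v : ℝ) ≤ (((R : ℤ) + 1 : ℤ) : ℝ) := by push_cast; linarith [h2.2, h3.1]
        exact_mod_cast h4
    refine ⟨a, h1, hcla, ?_⟩
    refine KK_mono HH p (ρ '' SS G) (countG_le G ρ (R + 1) y) ?_
    refine foldF_mem HH p hH0 hH1 (ρ '' SS G) (lG G ρ (R + 1)) y (ρ (gL G a)) ?_ ?_ p
    · intro q hq hq'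
      obtain ⟨a', ha', rfl⟩ := List.mem_map.mp hq
      rw [Finset.mem_toList] at ha'
      unfold boxF at ha'
      refine nearG_mem G ρ hcla (mem_filter.mp ha').2 ?_
      intro v
      have h2 := abs_lt.mp (sF_ne hq' v)
      have h3 := abs_le.mp (h1 v)
      have h4 : |((a v - a' v : ℤ) : ℝ)| ≤ 4 := by
        rw [abs_le]; push_cast
        constructor <;> linarith [h2.1, h2.2, h3.1, h3.2]
      exact_mod_cast h4
    · refine ⟨(ρ (gL G a), sF a), List.mem_map.mpr ⟨a, Finset.mem_toList.mpr hmem, rfl⟩, sF_one h1⟩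
  -- the odd map
  have hneg : ∀ x ∈ dJoin (clF (OG G) e), -x ∈ dJoin (clF (OG G) e) := by
    intro x hx
    rw [dJoin_eq (clF_cx _ _)] at hx ⊢
    exact X_neg (clF_cx _ _) hx
  have hpos : ∀ x ∈ dJoin (clF (OG G) e), ∀ v, ¬ (0 < x (e (v, true)) ∧ 0 < x (e (v, false))) := by
    rintro x ⟨_, hx, _⟩ v ⟨h1, h2⟩
    rw [mem_clF] at hx
    have h3 := hx (x := (v, true)) (by
      rw [mem_coe, mem_map]
      exact ⟨e (v, true), mem_filter.mpr ⟨mem_univ _, h1⟩, by simp⟩) (y := (v, false)) (by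
      rw [mem_coe, mem_map]
      exact ⟨e (v, false), mem_filter.mpr ⟨mem_univ _, h2⟩, by simp⟩) (by simp)
    simp at h3
  have hclq : ∀ x ∈ dJoin (clF (OG G) e), G.IsClique {v | cF e x v ≠ 0} := by
    rintro x ⟨_, hx, _⟩ u hu w hw huw
    rw [mem_clF] at hx
    have key : ∀ v, cF e x v ≠ 0 → ∃ s, 0 < x (e (v, s)) := by
      intro v hv
      by_contra h
      push Not at h
      apply hv
      unfold cF
      rw [max_eq_right (h true), max_eq_right (h false), sub_zero]
    obtain ⟨s, hs⟩ := key u hu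
    obtain ⟨t, ht⟩ := key w hw
    have h3 := hx (x := (u, s)) (by
      rw [mem_coe, mem_map]
      exact ⟨e (u, s), mem_filter.mpr ⟨mem_univ _, hs⟩, by simp⟩) (y := (w, t)) (by
      rw [mem_coe, mem_map]
      exact ⟨e (w, t), mem_filter.mpr ⟨mem_univ _, ht⟩, by simp⟩) (by
        intro h; exact huw (congrArg Prod.fst h))
    simpa using h3
  have hbd : ∀ x ∈ dJoin (clF (OG G) e), ∀ v, |cF e x v| ≤ 1 := by
    rintro x ⟨hx, _, _⟩ v
    have h1 : ∀ i, |x i| ≤ 1 := by
      intro i
      rw [← hx]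
      exact Finset.single_le_sum (f := fun i => |x i|) (fun _ _ => abs_nonneg _) (mem_univ i)
    have h2 : ∀ i, 0 ≤ max (x i) 0 ∧ max (x i) 0 ≤ 1 := by
      intro i
      refine ⟨le_max_right _ _, max_le ((le_abs_self _).trans (h1 i)) zero_le_one⟩
    unfold cF
    have h3 := h2 (e (v, true))
    have h4 := h2 (e (v, false))
    rw [abs_le]
    constructor <;> linarith [h3.1, h3.2, h4.1, h4.2]
  have hsum : ∀ x ∈ dJoin (clF (OG G) e), ∑ v, |cF e x v - cF e (-x) v| = 1 := by
    intro x hx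
    have h0 := hx.1
    rw [← Equiv.sum_comp e (fun i => |x i|), Fintype.sum_prod_type] at h0
    rw [← h0]
    refine sum_congr rfl fun v _ => ?_
    rw [Fintype.sum_bool]
    have h1 := hpos x hx v
    have h2 := hpos (-x) (hneg x hx) v
    simp only [Pi.neg_apply, Left.neg_pos_iff] at h2
    unfold cF
    simp only [Pi.neg_apply]
    rcases le_total (x (e (v, true))) 0 with ha | ha <;> rcases le_total (x (e (v, false))) 0 with hb | hb
    · rw [max_eq_right ha, max_eq_right hb, max_eq_left (neg_nonneg.mpr ha), max_eq_left (neg_nonneg.mpr hb),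
        abs_of_nonpos ha, abs_of_nonpos hb]
      rcases ha.eq_or_lt with ha' | ha'
      · rw [ha']
        rw [abs_of_nonneg (by linarith)]
        ring
      · rcases hb.eq_or_lt with hb' | hb'
        · rw [hb']
          rw [abs_of_nonpos (by linarith)]
          ring
        · exact absurd ⟨ha', hb'⟩ h2
    · rw [max_eq_right ha, max_eq_left hb, max_eq_left (neg_nonneg.mpr ha), max_eq_right (neg_nonpos.mpr hb),
        abs_of_nonpos ha, abs_of_nonneg hb, abs_of_nonpos (by linarith)]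
      ring
    · rw [max_eq_left ha, max_eq_right hb, max_eq_right (neg_nonpos.mpr ha), max_eq_left (neg_nonneg.mpr hb),
        abs_of_nonneg ha, abs_of_nonpos hb, abs_of_nonneg (by linarith)]
      ring
    · rw [max_eq_left ha, max_eq_left hb, max_eq_right (neg_nonpos.mpr ha), max_eq_right (neg_nonpos.mpr hb),
        abs_of_nonneg ha, abs_of_nonneg hb]
      rcases ha.eq_or_lt with ha' | ha'
      · rw [← ha']
        rw [abs_of_nonpos (by linarith)]
        ring
      · rcases hb.eq_or_lt with hb' | hb'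
        · rw [← hb']
          rw [abs_of_nonneg (by linarith)]
          ring
        · exact absurd ⟨ha', hb'⟩ h1
  set f1 : (Fin n → ℝ) → W := fun x => F ((R : ℝ) • cF e x) with hf1
  have hf1c : Continuous f1 := by
    have h1 : Continuous (fun x : Fin n → ℝ => (R : ℝ) • cF e x) := (cF_cont e).const_smul (R : ℝ)
    exact hFc.comp h1
  have hne : ∀ x ∈ dJoin (clF (OG G) e), f1 x ≠ f1 (-x) := by
    intro x hx heq
    have hx' := hneg x hx
    have hRpos : (0 : ℝ) < R := by
      rw [hR]; push_cast; positivity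
    have hb : ∀ x ∈ dJoin (clF (OG G) e), ∀ v, |((R : ℝ) • cF e x) v| ≤ R := by
      intro x hx v
      rw [Pi.smul_apply, smul_eq_mul, abs_mul, abs_of_pos hRpos]
      have := hbd x hx v
      nlinarith
    have hc : ∀ x ∈ dJoin (clF (OG G) e), G.IsClique {v | ((R : ℝ) • cF e x) v ≠ 0} := by
      intro x hx
      refine (hclq x hx).subset ?_
      intro v hv
      simp only [Set.mem_setOf_eq, Pi.smul_apply, smul_eq_mul] at hv ⊢
      exact right_ne_zero_of_mul hv
    obtain ⟨a, ha, hcla, haK⟩ := hloc _ (hb x hx) (hc x hx)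
    obtain ⟨a', ha', hcla', haK'⟩ := hloc _ (hb (-x) hx') (hc (-x) hx')
    have hmem : ρ ((gL G a)⁻¹ * gL G a') ∈ {γ : Γ | (fun w => γ • w) '' K ∩ K ≠ ∅} := by
      rw [Set.mem_setOf_eq, ← Set.nonempty_iff_ne_empty, map_mul, map_inv]
      refine ⟨(ρ (gL G a))⁻¹ • f1 x, ⟨(ρ (gL G a'))⁻¹ • f1 (-x), haK', ?_⟩, haK⟩
      simp only
      rw [smul_smul, mul_assoc, mul_inv_cancel, mul_one, heq]
    have h1 : ∀ v, |((R : ℝ) • cF e x) v - ((R : ℝ) • cF e (-x)) v| ≤ B + 2 := by
      intro v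
      have h2 := hB a a' hcla hcla' hmem v
      have h3 : |(a' v : ℝ) - a v| ≤ B := by
        have h5 : ((|(a' v - a v : ℤ)| : ℤ) : ℝ) ≤ ((B : ℤ) : ℝ) := by exact_mod_cast h2
        push_cast at h5
        exact h5
      have h4 := ha v
      have h5 := ha' v
      rw [abs_le] at h3 h4 h5 ⊢
      constructor <;> linarith [h3.1, h3.2, h4.1, h4.2, h5.1, h5.2]
    have h2 : ∑ v, |((R : ℝ) • cF e x) v - ((R : ℝ) • cF e (-x)) v| = R := by
      have h3 := congrArg (fun t => (R : ℝ) * t) (hsum x hx)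
      simp only [mul_one] at h3
      rw [Finset.mul_sum] at h3
      rw [← h3, h3]
      conv_rhs => rw [← h3]
      refine sum_congr rfl fun v _ => ?_
      rw [Pi.smul_apply, Pi.smul_apply, smul_eq_mul, smul_eq_mul, ← mul_sub, abs_mul, abs_of_pos hRpos]
    have h3 : (R : ℝ) ≤ Fintype.card V * (B + 2) := by
      rw [← h2]
      refine (sum_le_sum fun v _ => h1 v).trans ?_
      rw [sum_const, nsmul_eq_mul, card_univ]
    have h4 : (R : ℝ) = Fintype.card V * (B + 4) + 1 := by
      rw [hR]; push_cast; ring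
    have h5 : (0 : ℝ) ≤ Fintype.card V := Nat.cast_nonneg _
    nlinarith
  exact ⟨f1, hf1c, hne⟩


end Pool.Agent.H77AR
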