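import Pool.Agent.H77AR.A1
import Pool.Agent.H77AR.F1

/-!
# The right-angled Artin group which is generated by the squares of the Garside elements
-/

set_option autoImplicit false
set_option linter.unusedSectionVars false

namespace Pool.Agent.H77AR

open CoxeterSystem Pool.Agent.Helper741 Finset Pool.Agent.W326.DU Pool.Agent.H77RA

variable {B : Type} {M : CoxeterMatrix B} [Fintype B] [DecidableEq B] {W : Type} [Group W] (cs : CoxeterSystem M W)

/-- the irreducible spherical sets of generators -/
def IV : Type := {K : Finset B // Sph cs K ∧ Irr M K}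

noncomputable instance : Fintype (IV cs) := by
  classical
  unfold IV
  infer_instance

noncomputable instance : LinearOrder (IV cs) :=
  LinearOrder.lift' (Fintype.equivFin (IV cs)) (Fintype.equivFin (IV cs)).injective

/-- nested or commuting -/
def CompK (M : CoxeterMatrix B) (K L : Finset B) : Prop := K ⊆ L ∨ L ⊆ K ∨ ∀ i ∈ K, ∀ j ∈ L, M i j = 2

theorem CompK.symm {K L : Finset B} (h : CompK M K L) : CompK M L K := by
  rcases h with h | h | h
  · exact Or.inr (Or.inl h)
  · exact Or.inl h
  · exact Or.inr (Or.inr fun i hi j hj => by rw [M.symmetric]; exact h j hj i hi)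

/-- the graph of the irreducible spherical sets of generators -/
def GI : SimpleGraph (IV cs) where
  Adj K L := K ≠ L ∧ CompK M K.1 L.1
  symm := ⟨fun _ _ h => ⟨h.1.symm, h.2.symm⟩⟩
  loopless := ⟨fun _ h => h.1 rfl⟩

theorem exists_top' {J : Finset B} (h : Sph cs J) : ∃ w, IsTop cs J w := by
  have : Finite (para cs J) := Set.Finite.to_subtype (s := (para cs J : Set W)) h
  exact exists_top J

/-- the longest element -/
noncomputable def tp (K : IV cs) : W := (exists_top' cs K.2.1).choose

theorem tp_top (K : IV cs) : IsTop cs K.1 (tp cs K) := (exists_top' cs K.2.1).choose_spec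

/-- the square of the Garside element -/
noncomputable def zz (K : IV cs) : Artin M := sec cs (tp cs K) * sec cs (tp cs K)

theorem zz_mem (K : IV cs) : zz cs K ∈ AJ M K.1 :=
  mul_mem (sec_mem cs (tp_top cs K).mem) (sec_mem cs (tp_top cs K).mem)

theorem comm_two {i j : B} (h : M i j = 2) : Commute (Artin.gen M i) (Artin.gen M j) := by
  have h1 := Artin.rel (M := M) i j
  rw [h, alt_two, alt_two] at h1
  exact h1

theorem AJ_comm {K L : Finset B} (h : ∀ i ∈ K, ∀ j ∈ L, M i j = 2) {x y : Artin M} (hx : x ∈ AJ M K)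
    (hy : y ∈ AJ M L) : Commute x y := by
  unfold AJ at hx
  induction hx using Subgroup.closure_induction with
  | mem x hx =>
    obtain ⟨i, hi, rfl⟩ := hx
    unfold AJ at hy
    induction hy using Subgroup.closure_induction with
    | mem y hy =>
      obtain ⟨j, hj, rfl⟩ := hy
      exact comm_two (h i hi j hj)
    | one => exact Commute.one_right _
    | mul x y _ _ hx hy => exact hx.mul_right hy
    | inv x _ hx => exact hx.inv_right
  | one => exact Commute.one_left _
  | mul x y _ _ hx hy => exact hx.mul_left hy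
  | inv x _ hx => exact hx.inv_left

theorem zz_comm {K L : IV cs} (h : (GI cs).Adj K L) : Commute (zz cs K) (zz cs L) := by
  rcases h.2 with h | h | h
  · exact ((tp_top cs L).comm_all (AJ_mono h (zz_mem cs K))).symm
  · exact (tp_top cs K).comm_all (AJ_mono h (zz_mem cs L))
  · exact AJ_comm h (zz_mem cs K) (zz_mem cs L)

/-- the homomorphism from the right-angled Artin group -/
noncomputable def rho : RAAG (GI cs).Adj →* Artin M :=
  PresentedGroup.toGroup (f := fun K => zz cs K) (by
    rintro r ⟨a, b, hab, rfl⟩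
    simp only [map_mul, map_inv, FreeGroup.lift_apply_of]
    rw [(zz_comm cs hab).eq]
    group)

theorem rho_gen (K : IV cs) : rho cs (gen (GI cs).Adj K) = zz cs K := by
  unfold rho gen
  exact PresentedGroup.toGroup.of _

theorem toCox_rho (x : RAAG (GI cs).Adj) : Artin.toCox cs (rho cs x) = 1 := by
  have h : (Artin.toCox cs).comp (rho cs) = 1 := by
    apply PresentedGroup.ext
    intro K
    rw [MonoidHom.comp_apply]
    have h1 := rho_gen cs K
    unfold gen at h1
    rw [h1]
    exact (tp_top cs K).toCox_sq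
  exact DFunLike.congr_fun h x

/-- the homomorphisms to the integers -/
noncomputable def Ft (t : W) : RAAG (GI cs).Adj →* Multiplicative ℤ where
  toFun x := Multiplicative.ofAdd (psi cs (rho cs x) t)
  map_one' := by
    rw [map_one]
    unfold psi
    simp
  map_mul' x y := by
    rw [map_mul, psi_mul, toCox_rho, ofAdd_add]
    simp

theorem Ft_gL (t : W) (a : IV cs → ℤ) :
    Ft cs t (gL (GI cs) a) = Multiplicative.ofAdd (∑ v, a v * psi cs (zz cs v) t) := by
  unfold gL
  rw [map_list_prod, List.map_map]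
  have h1 : (⇑(Ft cs t) ∘ fun u => gen (GI cs).Adj u ^ a u) =
      fun u => Multiplicative.ofAdd (a u * psi cs (zz cs u) t) := by
    funext u
    rw [Function.comp_apply, map_zpow]
    have h2 : Ft cs t (gen (GI cs).Adj u) = Multiplicative.ofAdd (psi cs (zz cs u) t) := by
      unfold Ft
      simp only [MonoidHom.coe_mk, OneHom.coe_mk]
      rw [rho_gen]
    rw [h2, ← ofAdd_zsmul, smul_eq_mul]
  rw [h1, Finset.prod_map_toList, ← ofAdd_sum]

theorem sep_inj (d : IV cs → ℤ) (h : ∀ t, ∑ v, d v * psi cs (zz cs v) t = 0) : d = 0 := by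
  by_contra hd
  have hne : (univ.filter (fun K => d K ≠ 0)).Nonempty := by
    by_contra h1
    rw [Finset.not_nonempty_iff_eq_empty, Finset.filter_eq_empty_iff] at h1
    apply hd
    funext K
    by_contra h2
    exact h1 (mem_univ K) h2
  obtain ⟨K, hK, hmax⟩ := Finset.exists_max_image _ (fun K : IV cs => K.1.card) hne
  rw [mem_filter] at hK
  obtain ⟨u, hu, i, hi, hfull⟩ := exists_full cs K.2.2
  have h1 := h (u * cs.simple i * u⁻¹)
  rw [Finset.sum_eq_single K] at h1
  · have h2 : psi cs (zz cs K) (u * cs.simple i * u⁻¹) = psi cs (zz cs K) (cs.simple i) :=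
      (tp_top cs K).psi_conj hu _
    have h3 : 0 < psi cs (zz cs K) (cs.simple i) := (tp_top cs K).psi_simple hi
    rw [h2] at h1
    rcases mul_eq_zero.mp h1 with h4 | h4
    · exact hK.2 h4
    · exact h3.ne' h4
  · intro v _ hv
    by_cases h2 : d v = 0
    · rw [h2, zero_mul]
    · by_cases h3 : psi cs (zz cs v) (u * cs.simple i * u⁻¹) = 0
      · rw [h3, mul_zero]
      · exfalso
        have h4 := psi_supp cs (zz_mem cs v) _ h3
        have h5 := full_para cs hfull h4
        have h6 := hmax v (mem_filter.mpr ⟨mem_univ _, h2⟩)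
        exact hv (Subtype.ext (Finset.eq_of_subset_of_card_le h5 h6).symm)
  · intro h2
    exact absurd (mem_univ _) h2

theorem sep_bd (g : W → ℤ) : ∃ C : ℕ, ∀ d : IV cs → ℤ, (∀ t, ∑ v, d v * psi cs (zz cs v) t = g t) →
    ∀ v, |d v| ≤ C := by
  by_cases hex : ∃ d : IV cs → ℤ, ∀ t, ∑ v, d v * psi cs (zz cs v) t = g t
  · obtain ⟨d0, hd0⟩ := hex
    refine ⟨∑ v, (d0 v).natAbs, fun d hd v => ?_⟩
    have h1 : d - d0 = 0 := by
      apply sep_inj cs
      intro t
      have h2 := hd t
      have h3 := hd0 t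
      simp only [Pi.sub_apply, sub_mul, sum_sub_distrib]
      rw [h2, h3, sub_self]
    rw [sub_eq_zero.mp h1, Int.abs_eq_natAbs]
    exact_mod_cast Finset.single_le_sum (f := fun v => (d0 v).natAbs) (fun _ _ => Nat.zero_le _) (mem_univ v)
  · exact ⟨0, fun d hd => absurd ⟨d, hd⟩ hex⟩

/-- the separation property -/
theorem sep_rho : SepH (GI cs) (rho cs) := by
  intro T hT
  have h1 : ∀ γ : Artin M, ∃ C : ℕ, ∀ d : IV cs → ℤ, (∀ t, ∑ v, d v * psi cs (zz cs v) t = psi cs γ t) →
      ∀ v, |d v| ≤ C := fun γ => sep_bd cs _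
  choose C hC using h1
  have h2 : (C '' T).Finite := hT.image _
  obtain ⟨D, hD⟩ := h2.bddAbove
  refine ⟨D, fun a a' _ _ hm v => ?_⟩
  have h3 : C _ ≤ D := hD ⟨_, hm, rfl⟩
  have h4 := hC (rho cs ((gL (GI cs) a)⁻¹ * gL (GI cs) a')) (fun v => a' v - a v) (by
    intro t
    have h5 : Ft cs t ((gL (GI cs) a)⁻¹ * gL (GI cs) a') =
        Multiplicative.ofAdd (psi cs (rho cs ((gL (GI cs) a)⁻¹ * gL (GI cs) a')) t) := rfl
    rw [map_mul, map_inv, Ft_gL, Ft_gL, ← ofAdd_neg, ← ofAdd_add] at h5
    have h6 := Multiplicative.ofAdd.injective h5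
    rw [← h6]
    simp only [sub_mul, sum_sub_distrib]
    ring) v
  refine h4.trans ?_
  exact_mod_cast h3

end Pool.Agent.H77AR
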