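import Mathlib
import Pool.Agent.H77RA.A1

/-!
# Chain complexes of simplicial complexes with multiplicative coefficients
-/

set_option autoImplicit false
set_option linter.unusedSectionVars false

namespace Pool.Agent.H77AR

open Finset Pool.Agent.H77RA

section

variable {B : Type} [Fintype B] [LinearOrder B] {R : Type} [Ring R] (X : Finset B → Prop) (Q : Finset B → Finset B → R)

/-- the differential -/
def bdQ (z : Finset B → R) (τ : Finset B) : R := ∑ v ∈ τᶜ, sgn v τ • (z (insert v τ) * Q (insert v τ) τ)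

/-- chains of simplices with `n` vertices -/
def Chn (n : ℕ) (z : Finset B → R) : Prop := ∀ T, z T ≠ 0 → X T ∧ T.card = n

variable {X Q}

theorem bdQ_chn (hX : ∀ S T : Finset B, S ⊆ T → X T → X S) {n : ℕ} {z : Finset B → R} (hz : Chn X (n + 1) z) :
    Chn X n (bdQ Q z) := by
  intro T hT
  unfold bdQ at hT
  obtain ⟨u, hu, hu'⟩ := exists_ne_zero_of_sum_ne_zero hT
  have h1 : z (insert u T) ≠ 0 := by
    intro h
    apply hu'
    rw [h, zero_mul, smul_zero]
  obtain ⟨h2, h3⟩ := hz _ h1
  rw [card_insert_of_notMem (mem_compl.mp hu)] at h3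
  exact ⟨hX _ _ (subset_insert u T) h2, by omega⟩

theorem bdQ_bdQ (hQ : ∀ σ τ ρ : Finset B, X σ → τ ⊆ σ → ρ ⊆ τ → Q σ τ * Q τ ρ = Q σ ρ) {n : ℕ} {z : Finset B → R}
    (hz : Chn X n z) : bdQ Q (bdQ Q z) = 0 := by
  funext τ
  have h1 : bdQ Q (bdQ Q z) τ = ∑ u ∈ τᶜ, ∑ w ∈ τᶜ.erase u,
      (sgn u τ * sgn w τ * (if u < w then -1 else 1)) • (z (insert w (insert u τ)) * Q (insert w (insert u τ)) τ) := by
    unfold bdQ
    refine sum_congr rfl fun u hu => ?_
    have h2 : (insert u τ)ᶜ = τᶜ.erase u := by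
      ext a; simp only [mem_compl, mem_insert, mem_erase]; tauto
    rw [h2, sum_mul, smul_sum]
    refine sum_congr rfl fun w _ => ?_
    rw [smul_mul_assoc, smul_smul, sgn_insert (mem_compl.mp hu)]
    have h3 : z (insert w (insert u τ)) * Q (insert w (insert u τ)) (insert u τ) * Q (insert u τ) τ =
        z (insert w (insert u τ)) * Q (insert w (insert u τ)) τ := by
      by_cases h0 : z (insert w (insert u τ)) = 0
      · rw [h0, zero_mul, zero_mul, zero_mul]
      · rw [mul_assoc, hQ _ _ _ (hz _ h0).1 (subset_insert _ _) (subset_insert _ _)]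
    rw [h3]
    congr 1
    ring
  rw [h1, Pi.zero_apply]
  refine sum_antisymm_zero τᶜ (fun u w => (sgn u τ * sgn w τ * (if u < w then -1 else 1)) •
    (z (insert w (insert u τ)) * Q (insert w (insert u τ)) τ)) ?_
  intro u w huw
  rw [Finset.insert_comm u w, ← add_smul]
  have : sgn u τ * sgn w τ * (if u < w then -1 else 1) + sgn w τ * sgn u τ * (if w < u then -1 else 1) = 0 := by
    rcases lt_or_gt_of_ne huw with h | h
    · rw [if_pos h, if_neg (not_lt.mpr h.le)]; ring
    · rw [if_neg (not_lt.mpr h.le), if_pos h]; ring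
  rw [this, zero_smul]

end

section matrices

variable {B : Type} [Fintype B] [LinearOrder B] (X : Finset B → Prop)

/-- the simplices with `n` vertices -/
abbrev XS (n : ℕ) : Type := {T : Finset B // X T ∧ T.card = n}

noncomputable instance instFinXS (n : ℕ) : Fintype (XS X n) := Fintype.ofFinite _

/-- numbering -/
noncomputable def nu (n : ℕ) : XS X n ≃ Fin (Fintype.card (XS X n)) := Fintype.equivFin _

variable {R : Type} [Ring R] (Q : Finset B → Finset B → R)

/-- incidence coefficients -/
def incQ {n : ℕ} (σ : XS X (n + 1)) (τ : XS X n) : R :=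
  ∑ v, if v ∉ τ.1 ∧ insert v τ.1 = σ.1 then sgn v τ.1 • Q σ.1 τ.1 else 0

/-- the function on all finite sets -/
noncomputable def toS (n : ℕ) (w : Fin (Fintype.card (XS X n)) → R) (T : Finset B) : R :=
  open Classical in if h : X T ∧ T.card = n then w (nu X n ⟨T, h⟩) else 0

/-- restriction -/
noncomputable def frS (n : ℕ) (z : Finset B → R) (i : Fin (Fintype.card (XS X n))) : R :=
  z ((nu X n).symm i).1

theorem frS_toS (n : ℕ) (w : Fin (Fintype.card (XS X n)) → R) : frS X n (toS X n w) = w := by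
  funext i
  unfold frS toS
  rw [dif_pos ((nu X n).symm i).2]
  simp

theorem frS_zero (n : ℕ) : frS X n (0 : Finset B → R) = 0 := rfl

theorem toS_frS (n : ℕ) {z : Finset B → R} (hz : Chn X n z) : toS X n (frS X n z) = z := by
  funext T
  unfold frS toS
  by_cases h : X T ∧ T.card = n
  · rw [dif_pos h]
    simp
  · rw [dif_neg h]
    by_contra h1
    exact h (hz T (Ne.symm h1))

theorem toS_chn (n : ℕ) (w : Fin (Fintype.card (XS X n)) → R) : Chn X n (toS X n w) := by
  intro T hT
  by_contra h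
  apply hT
  unfold toS
  rw [dif_neg h]

theorem frS_inj {n : ℕ} {z z' : Finset B → R} (hz : Chn X n z) (hz' : Chn X n z') (h : frS X n z = frS X n z') :
    z = z' := by
  rw [← toS_frS X n hz, h, toS_frS X n hz']

/-- the matrix of the differential -/
noncomputable def dS (n : ℕ) : Matrix (Fin (Fintype.card (XS X (n + 1)))) (Fin (Fintype.card (XS X n))) R :=
  fun i j => incQ X Q ((nu X (n + 1)).symm i) ((nu X n).symm j)

theorem vecMul_dS (n : ℕ) (w : Fin (Fintype.card (XS X (n + 1))) → R) :
    Matrix.vecMul w (dS X Q n) = frS X n (bdQ Q (toS X (n + 1) w)) := by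
  classical
  funext j
  unfold frS
  set τ := (nu X n).symm j with hτ
  have h1 : Matrix.vecMul w (dS X Q n) j = ∑ σ : XS X (n + 1), w (nu X (n + 1) σ) * incQ X Q σ τ := by
    unfold Matrix.vecMul dotProduct
    rw [← Equiv.sum_comp (nu X (n + 1))]
    refine sum_congr rfl fun σ _ => ?_
    change _ * incQ X Q ((nu X (n + 1)).symm (nu X (n + 1) σ)) _ = _
    rw [Equiv.symm_apply_apply]
  rw [h1]
  unfold incQ bdQ
  have h2 : ∀ σ : XS X (n + 1), w (nu X (n + 1) σ) *
      (∑ v, if v ∉ τ.1 ∧ insert v τ.1 = σ.1 then sgn v τ.1 • Q σ.1 τ.1 else 0) =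
      ∑ v, if v ∉ τ.1 ∧ insert v τ.1 = σ.1 then
        sgn v τ.1 • (toS X (n + 1) w (insert v τ.1) * Q (insert v τ.1) τ.1) else 0 := by
    intro σ
    rw [mul_sum]
    refine sum_congr rfl fun v _ => ?_
    split_ifs with h
    · have h3 : toS X (n + 1) w (insert v τ.1) = w (nu X (n + 1) σ) := by
        unfold toS
        have h4 : X (insert v τ.1 : Finset B) ∧ (insert v τ.1).card = n + 1 := by
          rw [h.2]; exact σ.2
        rw [dif_pos h4]
        congr 2
        exact Subtype.ext h.2
      rw [h3, mul_smul_comm, h.2]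
    · rw [mul_zero]
  rw [sum_congr rfl fun σ _ => h2 σ, sum_comm]
  have h3 : ∀ v, (∑ σ : XS X (n + 1), if v ∉ τ.1 ∧ insert v τ.1 = σ.1 then
      sgn v τ.1 • (toS X (n + 1) w (insert v τ.1) * Q (insert v τ.1) τ.1) else 0) =
      if v ∉ τ.1 then sgn v τ.1 • (toS X (n + 1) w (insert v τ.1) * Q (insert v τ.1) τ.1) else 0 := by
    intro v
    by_cases hv : v ∉ τ.1
    · rw [if_pos hv]
      by_cases hc : X (insert v τ.1 : Finset B)
      · have hcard : (insert v τ.1).card = n + 1 := by
          rw [card_insert_of_notMem hv, τ.2.2]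
        rw [sum_eq_single ⟨insert v τ.1, hc, hcard⟩]
        · rw [if_pos ⟨hv, rfl⟩]
        · intro σ _ hσ
          rw [if_neg]
          rintro ⟨_, h⟩
          exact hσ (Subtype.ext h.symm)
        · intro h; exact absurd (mem_univ _) h
      · have h4 : toS X (n + 1) w (insert v τ.1) = 0 := by
          unfold toS
          rw [dif_neg (fun h => hc h.1)]
        rw [h4, zero_mul, smul_zero]
        refine sum_eq_zero fun σ _ => ?_
        split_ifs <;> rfl
    · rw [if_neg hv]
      refine sum_eq_zero fun σ _ => ?_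
      rw [if_neg (fun h => hv h.1)]
  rw [sum_congr rfl fun v _ => h3 v, ← sum_filter]
  have h4 : univ.filter (fun v => v ∉ τ.1) = τ.1ᶜ := by ext; simp
  rw [h4]

theorem incQ_map {R' : Type} [Ring R'] (F : R →+* R') {n : ℕ} (σ : XS X (n + 1)) (τ : XS X n) :
    F (incQ X Q σ τ) = incQ X (fun a b => F (Q a b)) σ τ := by
  unfold incQ
  rw [map_sum]
  refine sum_congr rfl fun v _ => ?_
  split_ifs
  · rw [map_zsmul]
  · rw [map_zero]

theorem dS_map {R' : Type} [Ring R'] (F : R →+* R') (n : ℕ) : (dS X Q n).map F = dS X (fun a b => F (Q a b)) n := by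
  ext i j
  exact incQ_map X Q F _ _

end matrices

end Pool.Agent.H77AR
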