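import Pool.Agent.H77AR.A2
import Pool.Agent.H77AR.C1

/-!
# The transfer of chains and cochains to the complex of nested irreducible sets
-/

set_option autoImplicit false
set_option linter.unusedSectionVars false

namespace Pool.Agent.H77AR

open CoxeterSystem Pool.Agent.Helper741 Finset Pool.Agent.W326.DU Pool.Agent.H77RA

variable {B : Type} {M : CoxeterMatrix B} [Fintype B] [DecidableEq B] {W : Type} [Group W] (cs : CoxeterSystem M W)

/-! ### Components -/

theorem exists_comp {σ : Finset B} (hσ : σ.Nonempty) :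
    ∃ K ⊆ σ, Irr M K ∧ ∀ i ∈ K, ∀ j ∈ σ, j ∉ K → M i j = 2 := by
  classical
  have hne : (σ.powerset.filter (fun S => S.Nonempty ∧ ∀ i ∈ S, ∀ j ∈ σ, j ∉ S → M i j = 2)).Nonempty :=
    ⟨σ, mem_filter.mpr ⟨mem_powerset.mpr subset_rfl, hσ, fun i _ j hj hj' => absurd hj hj'⟩⟩
  obtain ⟨K, hK, hmin⟩ := exists_min_image _ (fun S : Finset B => S.card) hne
  rw [mem_filter, mem_powerset] at hK
  refine ⟨K, hK.1, ⟨hK.2.1, fun S hS hSne hSK => ?_⟩, hK.2.2⟩
  by_contra hcon
  push Not at hcon
  have h1 := hmin S (mem_filter.mpr ⟨mem_powerset.mpr (hS.trans hK.1), hSne, fun i hi j hj hj' => by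
    by_cases hjK : j ∈ K
    · exact hcon i hi j hjK hj'
    · exact hK.2.2 i (hS hi) j hj hjK⟩)
  exact hSK (eq_of_subset_of_card_le hS h1)

theorem comp_compat {σ K L : Finset B} (hK : ∀ i ∈ K, ∀ j ∈ σ, j ∉ K → M i j = 2) (hL : L ⊆ σ) (hLi : Irr M L) :
    CompK M K L := by
  classical
  by_cases h1 : (L ∩ K).Nonempty
  · by_cases h2 : L ∩ K = L
    · exact Or.inr (Or.inl (by rw [← h2]; exact inter_subset_right))
    · obtain ⟨i, hi, j, hj, hj', hij⟩ := hLi.2 (L ∩ K) inter_subset_left h1 h2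
      rw [mem_inter] at hi hj'
      exact absurd (hK i hi.2 j (hL hj) (fun h => hj' ⟨hj, h⟩)) hij
  · refine Or.inr (Or.inr fun i hi j hj => hK i hi j (hL hj) fun h => h1 ⟨j, mem_inter.mpr ⟨hj, h⟩⟩)

/-- a component of a nonempty spherical set -/
noncomputable def kap {σ : Finset B} (h : Sph cs σ) (hσ : σ.Nonempty) : IV cs :=
  ⟨(exists_comp (M := M) hσ).choose, Sph.mono cs (exists_comp (M := M) hσ).choose_spec.1 h,
    (exists_comp (M := M) hσ).choose_spec.2.1⟩

theorem kap_sub {σ : Finset B} (h : Sph cs σ) (hσ : σ.Nonempty) : (kap cs h hσ).1 ⊆ σ :=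
  (exists_comp (M := M) hσ).choose_spec.1

theorem kap_comp {σ : Finset B} (h : Sph cs σ) (hσ : σ.Nonempty) (L : IV cs) (hL : L.1 ⊆ σ) :
    CompK M (kap cs h hσ).1 L.1 :=
  comp_compat (exists_comp (M := M) hσ).choose_spec.2.2 hL L.2.2

/-- the chosen element of an irreducible set -/
noncomputable def pt (K : IV cs) : B := K.2.2.1.choose

theorem pt_mem (K : IV cs) : pt cs K ∈ K.1 := K.2.2.1.choose_spec

/-! ### Unions -/

theorem para_comm {K U : Finset B} (h : ∀ i ∈ K, ∀ j ∈ U, M i j = 2) {x y : W} (hx : x ∈ para cs K)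
    (hy : y ∈ para cs U) : Commute x y := by
  have h1 := (AJ_comm h (sec_mem cs hx) (sec_mem cs hy)).map (Artin.toCox cs)
  rwa [toCox_sec, toCox_sec] at h1

theorem sph_union {K U : Finset B} (hK : Sph cs K) (hU : Sph cs U) (h : ∀ i ∈ K, ∀ j ∈ U, M i j = 2) :
    Sph cs (K ∪ U) := by
  classical
  unfold Sph
  refine Set.Finite.subset ((Set.Finite.prod hK hU).image (fun p : W × W => p.1 * p.2)) ?_
  suffices hs : ∀ x ∈ para cs (K ∪ U), ∃ a ∈ para cs K, ∃ b ∈ para cs U, a * b = x by
    intro x hx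
    obtain ⟨a, ha, b, hb, hab⟩ := hs x hx
    exact ⟨(a, b), ⟨ha, hb⟩, hab⟩
  intro x hx
  unfold para at hx
  induction hx using Subgroup.closure_induction with
  | mem x hx =>
    obtain ⟨i, hi, rfl⟩ := hx
    rcases mem_union.mp (mem_coe.mp hi) with h1 | h1
    · exact ⟨_, simple_mem_para cs h1, 1, one_mem _, mul_one _⟩
    · exact ⟨1, one_mem _, _, simple_mem_para cs h1, one_mul _⟩
  | one => exact ⟨1, one_mem _, 1, one_mem _, mul_one _⟩
  | mul x y _ _ hx hy =>
    obtain ⟨a, ha, b, hb, rfl⟩ := hx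
    obtain ⟨a', ha', b', hb', rfl⟩ := hy
    refine ⟨a * a', mul_mem ha ha', b * b', mul_mem hb hb', ?_⟩
    have h1 := (para_comm cs h ha' hb).eq
    rw [mul_assoc, ← mul_assoc a', h1]
    simp only [mul_assoc]
  | inv x _ hx =>
    obtain ⟨a, ha, b, hb, rfl⟩ := hx
    refine ⟨a⁻¹, inv_mem ha, b⁻¹, inv_mem hb, ?_⟩
    have h1 := (para_comm cs h (inv_mem ha) (inv_mem hb)).eq
    rw [h1, mul_inv_rev]

theorem sph_biUnion {N : Finset (IV cs)} (hN : Cl (GI cs) N) : Sph cs (N.biUnion (fun K => K.1)) := by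
  classical
  induction N using Finset.induction_on with
  | empty =>
    rw [biUnion_empty]
    exact sph_empty cs
  | insert K N hK ih =>
    have h1 := ih (Cl_mono _ _ _ (subset_insert K N) hN)
    rw [biUnion_insert]
    by_cases h2 : ∃ L ∈ N, K.1 ⊆ L.1
    · obtain ⟨L, hL, hKL⟩ := h2
      rw [union_eq_right.mpr (hKL.trans (subset_biUnion_of_mem (fun K : IV cs => K.1) hL))]
      exact h1
    · push Not at h2
      have h3 : K.1 ∪ N.biUnion (fun K => K.1) =
          K.1 ∪ (N.filter (fun L => ∀ i ∈ K.1, ∀ j ∈ L.1, M i j = 2)).biUnion (fun K => K.1) := by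
        refine subset_antisymm (union_subset subset_union_left ?_) (union_subset subset_union_left ?_)
        · rw [biUnion_subset]
          intro L hL
          have hne : K ≠ L := fun h => hK (by rw [h]; exact hL)
          have h4 := hN (mem_coe.mpr (mem_insert_self K N)) (mem_coe.mpr (mem_insert_of_mem hL)) hne
          rcases h4.2 with h5 | h5 | h5
          · exact absurd h5 (h2 L hL)
          · exact h5.trans subset_union_left
          · refine subset_trans ?_ subset_union_right
            exact subset_biUnion_of_mem (fun K : IV cs => K.1) (mem_filter.mpr ⟨hL, h5⟩)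
        · exact (biUnion_subset_biUnion_of_subset_left _ (filter_subset _ _)).trans subset_union_right
      rw [h3]
      refine sph_union cs K.2.1 (Sph.mono cs (biUnion_subset_biUnion_of_subset_left _ (filter_subset _ _)) h1) ?_
      intro i hi j hj
      rw [mem_biUnion] at hj
      obtain ⟨L, hL, hj⟩ := hj
      exact (mem_filter.mp hL).2 i hi j hj

/-! ### The chain map -/

theorem sum_symm_zero {V : Type} [DecidableEq V] (S : Finset V) (F : V → V → ZMod 2) (hF : ∀ u w, F u w = F w u) :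
    ∑ u ∈ S, ∑ w ∈ S.erase u, F u w = 0 := by
  rw [sum_sigma']
  refine sum_involution (fun x _ => ⟨x.2, x.1⟩) ?_ ?_ ?_ ?_
  · rintro ⟨u, w⟩ h
    simp only
    rw [hF w u]
    exact CharTwo.add_self_eq_zero _
  · rintro ⟨u, w⟩ h _ he
    simp only [mem_sigma, mem_erase] at h
    simp only [Sigma.mk.injEq, heq_eq_eq] at he
    exact h.2.1 he.1
  · rintro ⟨u, w⟩ h
    simp only [mem_sigma, mem_erase] at h ⊢
    exact ⟨h.2.2, h.2.1.symm, h.1⟩
  · rintro ⟨u, w⟩ _
    rfl

/-- the cone -/
def cnK {V : Type} [DecidableEq V] (κ : V) (c : Finset V → ZMod 2) (N : Finset V) : ZMod 2 :=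
  if κ ∈ N then c (N.erase κ) else 0

/-- the boundary of a cone -/
theorem bd_cnK {V : Type} [Fintype V] [DecidableEq V] (κ : V) (c : Finset V → ZMod 2)
    (hc : ∀ T : Finset V, ∑ v ∈ Tᶜ, c (insert v T) = 0) (T : Finset V) :
    ∑ v ∈ Tᶜ, cnK κ c (insert v T) = c T := by
  by_cases h : κ ∈ T
  · have h1 : ∀ v ∈ Tᶜ, cnK κ c (insert v T) = c (insert v (T.erase κ)) := by
      intro v hv
      unfold cnK
      rw [if_pos (mem_insert_of_mem h), erase_insert_of_ne]
      rintro rfl
      exact (mem_compl.mp hv) h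
    rw [sum_congr rfl h1]
    have h2 := hc (T.erase κ)
    have h3 : (T.erase κ)ᶜ = insert κ Tᶜ := by
      ext v
      simp only [mem_compl, mem_erase, mem_insert]
      tauto
    rw [h3, sum_insert (by simp [h]), insert_erase h] at h2
    exact (CharTwo.add_eq_zero.mp h2).symm
  · rw [sum_eq_single κ]
    · unfold cnK
      rw [if_pos (mem_insert_self _ _), erase_insert h]
    · intro v _ hv
      unfold cnK
      rw [if_neg]
      rw [mem_insert]
      rintro (h1 | h1)
      · exact hv h1.symm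
      · exact h h1
    · intro h1
      exact absurd (mem_compl.mpr h) h1

open Classical in
/-- the subdivision map -/
noncomputable def Sn : ℕ → Finset B → Finset (IV cs) → ZMod 2
  | 0, _ => fun N => if N = ∅ then 1 else 0
  | n + 1, σ => if h : Sph cs σ ∧ σ.Nonempty then cnK (kap cs h.1 h.2) (fun N => ∑ s ∈ σ, Sn n (σ.erase s) N) else 0

theorem Sn_succ {n : ℕ} {σ : Finset B} (h : Sph cs σ) (hσ : σ.Nonempty) :
    Sn cs (n + 1) σ = cnK (kap cs h hσ) (fun N => ∑ s ∈ σ, Sn cs n (σ.erase s) N) := by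
  conv_lhs => unfold Sn
  rw [dif_pos ⟨h, hσ⟩]

theorem Sn_supp (n : ℕ) : ∀ {σ : Finset B}, Sph cs σ → σ.card = n → ∀ {N : Finset (IV cs)}, Sn cs n σ N ≠ 0 →
    N.card = n ∧ (∀ K ∈ N, K.1 ⊆ σ) ∧ Cl (GI cs) N := by
  induction n with
  | zero =>
    intro σ _ _ N hN
    unfold Sn at hN
    have h1 : N = ∅ := by
      by_contra h
      rw [if_neg h] at hN
      exact hN rfl
    rw [h1]
    exact ⟨rfl, fun K hK => absurd hK (notMem_empty _), by unfold Cl; simp⟩
  | succ n ih =>
    intro σ h hc N hN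
    have hσ : σ.Nonempty := by
      rw [← card_pos, hc]
      exact Nat.succ_pos _
    rw [Sn_succ cs h hσ] at hN
    unfold cnK at hN
    by_cases h1 : kap cs h hσ ∈ N
    · rw [if_pos h1] at hN
      obtain ⟨s, hs, hs'⟩ := exists_ne_zero_of_sum_ne_zero hN
      obtain ⟨g1, g2, g3⟩ := ih (Sph.mono cs (erase_subset s σ) h) (by rw [card_erase_of_mem hs, hc]; rfl) hs'
      have g4 : ∀ K ∈ N, K.1 ⊆ σ := by
        intro K hK
        by_cases hKk : K = kap cs h hσ
        · rw [hKk]; exact kap_sub cs h hσ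
        · exact (g2 K (mem_erase.mpr ⟨hKk, hK⟩)).trans (erase_subset _ _)
      refine ⟨?_, g4, ?_⟩
      · rw [card_erase_of_mem h1] at g1
        have : 0 < N.card := card_pos.mpr ⟨_, h1⟩
        omega
      · intro K hK L hL hKL
        refine ⟨hKL, ?_⟩
        rw [mem_coe] at hK hL
        by_cases hKk : K = kap cs h hσ
        · rw [hKk]
          exact kap_comp cs h hσ L (g4 L hL)
        · by_cases hLk : L = kap cs h hσ
          · rw [hLk]
            exact (kap_comp cs h hσ K (g4 K hK)).symm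
          · exact (g3 (mem_coe.mpr (mem_erase.mpr ⟨hKk, hK⟩)) (mem_coe.mpr (mem_erase.mpr ⟨hLk, hL⟩)) hKL).2
    · rw [if_neg h1] at hN
      exact absurd rfl hN

theorem Sn_bd (n : ℕ) : ∀ {σ : Finset B}, Sph cs σ → σ.card = n → ∀ T : Finset (IV cs),
    ∑ v ∈ Tᶜ, Sn cs n σ (insert v T) = ∑ s ∈ σ, Sn cs (n - 1) (σ.erase s) T := by
  induction n with
  | zero =>
    intro σ _ hc T
    rw [card_eq_zero] at hc
    rw [hc, sum_empty]
    refine sum_eq_zero fun v _ => ?_
    unfold Sn
    rw [if_neg (insert_ne_empty _ _)]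
  | succ n ih =>
    intro σ h hc T
    have hσ : σ.Nonempty := by
      rw [← card_pos, hc]
      exact Nat.succ_pos _
    rw [Sn_succ cs h hσ, bd_cnK]
    · rfl
    · intro T
      rw [sum_comm]
      have h1 : ∀ s ∈ σ, ∑ v ∈ Tᶜ, Sn cs n (σ.erase s) (insert v T) =
          ∑ t ∈ σ.erase s, Sn cs (n - 1) ((σ.erase s).erase t) T := fun s hs =>
        ih (Sph.mono cs (erase_subset s σ) h) (by rw [card_erase_of_mem hs, hc]; rfl) T
      rw [sum_congr rfl h1]
      refine sum_symm_zero σ (fun s t => Sn cs (n - 1) ((σ.erase s).erase t) T) ?_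
      intro s t
      rw [erase_right_comm]

theorem Sn_deg (n : ℕ) : ∀ {σ : Finset B}, Sph cs σ → σ.card = n →
    ∑ N ∈ univ.filter (fun N : Finset (IV cs) => N.image (pt cs) = σ), (if N.card = n then Sn cs n σ N else 0) = 1 := by
  induction n with
  | zero =>
    intro σ _ hc
    rw [card_eq_zero] at hc
    rw [sum_eq_single ∅]
    · rw [if_pos card_empty]
      unfold Sn
      rw [if_pos rfl]
    · intro N _ hN
      rw [if_neg]
      rw [card_eq_zero]
      exact hN
    · intro h1
      exact absurd (mem_filter.mpr ⟨mem_univ _, by rw [hc, image_empty]⟩) h1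
  | succ n ih =>
    intro σ h hc
    have hσ : σ.Nonempty := by
      rw [← card_pos, hc]
      exact Nat.succ_pos _
    obtain ⟨κ, hκ⟩ : ∃ κ, κ = kap cs h hσ := ⟨_, rfl⟩
    obtain ⟨p, hp⟩ : ∃ p, p = pt cs κ := ⟨_, rfl⟩
    have hpσ : p ∈ σ := by
      rw [hp]
      exact (show κ.1 ⊆ σ by rw [hκ]; exact kap_sub cs h hσ) (pt_mem cs κ)
    rw [Sn_succ cs h hσ, ← hκ, ← ih (Sph.mono cs (erase_subset p σ) h) (by rw [card_erase_of_mem hpσ, hc]; rfl)]
    -- remove the terms which vanish
    rw [← sum_filter_add_sum_filter_not _ (fun N : Finset (IV cs) => κ ∈ N ∧ N.card = n + 1)]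
    have hz : ∑ N ∈ (univ.filter (fun N : Finset (IV cs) => N.image (pt cs) = σ)).filter
        (fun N => ¬ (κ ∈ N ∧ N.card = n + 1)),
        (if N.card = n + 1 then cnK κ (fun N => ∑ s ∈ σ, Sn cs n (σ.erase s) N) N else 0) = 0 := by
      refine sum_eq_zero fun N hN => ?_
      rw [mem_filter] at hN
      by_cases h1 : N.card = n + 1
      · rw [if_pos h1]
        unfold cnK
        rw [if_neg fun h2 => hN.2 ⟨h2, h1⟩]
      · rw [if_neg h1]
    rw [hz, add_zero]
    have hnot : ∀ N : Finset (IV cs), N.image (pt cs) = σ.erase p → κ ∉ N := by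
      intro N hN hκN
      have h1 : p ∈ N.image (pt cs) := by
        rw [hp]
        exact mem_image_of_mem _ hκN
      rw [hN] at h1
      exact notMem_erase _ _ h1
    have hinj : ∀ N : Finset (IV cs), N.image (pt cs) = σ → N.card = n + 1 → Set.InjOn (pt cs) N := by
      intro N h1 h2
      rw [← card_image_iff, h1, hc, h2]
    rw [← sum_filter_add_sum_filter_not (univ.filter (fun N : Finset (IV cs) => N.image (pt cs) = σ.erase p))
      (fun N : Finset (IV cs) => N.card = n)]
    have hz' : ∑ N ∈ (univ.filter (fun N : Finset (IV cs) => N.image (pt cs) = σ.erase p)).filter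
        (fun N => ¬ N.card = n), (if N.card = n then Sn cs n (σ.erase p) N else 0) = 0 := by
      refine sum_eq_zero fun N hN => ?_
      rw [mem_filter] at hN
      rw [if_neg hN.2]
    rw [hz', add_zero]
    refine sum_bij (fun N _ => N.erase κ) ?_ ?_ ?_ ?_
    · intro N hN
      simp only [mem_filter, mem_univ, true_and] at hN ⊢
      obtain ⟨h1, h2, h3⟩ := hN
      refine ⟨?_, by rw [card_erase_of_mem h2, h3]; rfl⟩
      have h4 := hinj N h1 h3
      ext b
      rw [mem_image, mem_erase, ← h1, mem_image]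
      constructor
      · rintro ⟨K, hK, rfl⟩
        rw [mem_erase] at hK
        refine ⟨fun h5 => hK.1 (h4 hK.2 h2 (by rw [h5, hp])), K, hK.2, rfl⟩
      · rintro ⟨h5, K, hK, rfl⟩
        refine ⟨K, mem_erase.mpr ⟨?_, hK⟩, rfl⟩
        rintro rfl
        exact h5 hp.symm
    · intro N hN N' hN' he
      simp only [mem_filter, mem_univ, true_and] at hN hN'
      rw [← insert_erase hN.2.1, ← insert_erase hN'.2.1, he]
    · intro N hN
      simp only [mem_filter, mem_univ, true_and] at hN
      have h1 := hnot N hN.1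
      refine ⟨insert κ N, ?_, erase_insert h1⟩
      simp only [mem_filter, mem_univ, true_and]
      refine ⟨?_, mem_insert_self _ _, by rw [card_insert_of_notMem h1, hN.2]⟩
      rw [image_insert, hN.1, ← hp, insert_erase hpσ]
    · intro N hN
      simp only [mem_filter, mem_univ, true_and] at hN
      obtain ⟨h1, h2, h3⟩ := hN
      have h5 : (N.erase κ).card = n := by rw [card_erase_of_mem h2, h3]; rfl
      rw [if_pos h3, if_pos h5]
      unfold cnK
      rw [if_pos h2]
      simp only
      rw [sum_eq_single p]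
      · intro s hs hsp
        by_contra h4
        obtain ⟨_, g2, _⟩ := Sn_supp cs n (Sph.mono cs (erase_subset s σ) h)
          (by rw [card_erase_of_mem hs, hc]; rfl) h4
        have h6 : s ∈ N.image (pt cs) := by rw [h1]; exact hs
        obtain ⟨K, hK, hKs⟩ := mem_image.mp h6
        have h7 : K ≠ κ := by
          rintro rfl
          exact hsp (hKs.symm.trans hp.symm)
        have h8 := g2 K (mem_erase.mpr ⟨h7, hK⟩) (pt_mem cs K)
        rw [hKs] at h8
        exact notMem_erase _ _ h8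
      · intro h4
        exact absurd hpσ h4

end Pool.Agent.H77AR
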