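import Pool.Agent.H77AR.A3

/-!
# The transfer of the vanishing of the pairing
-/

set_option autoImplicit false
set_option linter.unusedSectionVars false

namespace Pool.Agent.H77AR

open CoxeterSystem Pool.Agent.Helper741 Finset Pool.Agent.W326.DU Pool.Agent.H77RA

variable {B : Type} {M : CoxeterMatrix B} [Fintype B] [DecidableEq B] {W : Type} [Group W] (cs : CoxeterSystem M W)

/-- the transfer of cochains -/
noncomputable def phT (φ : Finset B → ZMod 2) (N : Finset (IV cs)) : ZMod 2 :=
  if (N.image (pt cs)).card = N.card then φ (N.image (pt cs)) else 0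

theorem phT_cocycle {k : ℕ} {φ : Finset B → ZMod 2}
    (hφ : ∀ R : Finset B, Sph cs R → R.card = k + 2 → ∑ v ∈ R, φ (R.erase v) = 0) {R : Finset (IV cs)}
    (hR : Cl (GI cs) R) (hc : R.card = k + 2) : ∑ v ∈ R, phT cs φ (R.erase v) = 0 := by
  have hsph : Sph cs (R.image (pt cs)) := by
    refine Sph.mono cs ?_ (sph_biUnion cs hR)
    intro b hb
    obtain ⟨K, hK, rfl⟩ := mem_image.mp hb
    exact mem_biUnion.mpr ⟨K, hK, pt_mem cs K⟩
  by_cases hinj : Set.InjOn (pt cs) R
  · have h1 : ∀ v ∈ R, phT cs φ (R.erase v) = φ ((R.image (pt cs)).erase (pt cs v)) := by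
      intro v hv
      have h2 : (R.erase v).image (pt cs) = (R.image (pt cs)).erase (pt cs v) := by
        ext b
        rw [mem_image, mem_erase, mem_image]
        constructor
        · rintro ⟨K, hK, rfl⟩
          rw [mem_erase] at hK
          exact ⟨fun h5 => hK.1 (hinj hK.2 hv h5), K, hK.2, rfl⟩
        · rintro ⟨h5, K, hK, rfl⟩
          refine ⟨K, mem_erase.mpr ⟨?_, hK⟩, rfl⟩
          rintro rfl
          exact h5 rfl
      unfold phT
      rw [if_pos, h2]
      exact card_image_of_injOn (hinj.mono (by exact_mod_cast erase_subset v R))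
    rw [sum_congr rfl h1, ← sum_image (f := fun b => φ ((R.image (pt cs)).erase b)) hinj]
    exact hφ _ hsph (by rw [card_image_of_injOn hinj, hc])
  · -- a pair with the same image
    rw [Set.InjOn] at hinj
    push Not at hinj
    obtain ⟨K, hK, L, hL, hKL, hne⟩ := hinj
    rw [mem_coe] at hK hL
    have hother : ∀ v ∈ R, v ≠ K → v ≠ L → phT cs φ (R.erase v) = 0 := by
      intro v _ h1 h2
      unfold phT
      rw [if_neg]
      intro h3
      have h4 := card_image_iff.mp h3
      exact hne (h4 (mem_coe.mpr (mem_erase.mpr ⟨h1.symm, hK⟩)) (mem_coe.mpr (mem_erase.mpr ⟨h2.symm, hL⟩)) hKL)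
    have h1 : ∑ v ∈ R, phT cs φ (R.erase v) = ∑ v ∈ ({K, L} : Finset (IV cs)), phT cs φ (R.erase v) := by
      symm
      refine sum_subset ?_ ?_
      · intro v hv
        rw [mem_insert, mem_singleton] at hv
        rcases hv with rfl | rfl
        · exact hK
        · exact hL
      · intro v hv hv'
        rw [mem_insert, mem_singleton, not_or] at hv'
        exact hother v hv hv'.1 hv'.2
    rw [h1, sum_pair hne]
    have himg : ∀ A C : IV cs, A ∈ R → C ∈ R → A ≠ C → pt cs A = pt cs C →
        (R.erase A).image (pt cs) = R.image (pt cs) := by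
      intro A C _ hC hAC he
      refine subset_antisymm (image_subset_image (erase_subset _ _)) ?_
      intro b hb
      obtain ⟨D, hD, rfl⟩ := mem_image.mp hb
      by_cases h : D = A
      · rw [h, he]
        exact mem_image_of_mem _ (mem_erase.mpr ⟨hAC.symm, hC⟩)
      · exact mem_image_of_mem _ (mem_erase.mpr ⟨h, hD⟩)
    unfold phT
    rw [himg K L hK hL hne hKL, himg L K hL hK hne.symm hKL.symm, card_erase_of_mem hK, card_erase_of_mem hL]
    exact CharTwo.add_self_eq_zero _

theorem pair_transfer (k : ℕ)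
    (hGI : ∀ z φ : Finset (IV cs) → ZMod 2, (∀ T, z T ≠ 0 → Cl (GI cs) T ∧ T.card = k + 1) →
      (∀ S : Finset (IV cs), ∑ v ∈ Sᶜ, z (insert v S) = 0) →
      (∀ R : Finset (IV cs), Cl (GI cs) R → R.card = k + 2 → ∑ v ∈ R, φ (R.erase v) = 0) →
      ∑ P ∈ powersetCard (k + 1) univ, φ P * z P = 0)
    (z φ : Finset B → ZMod 2) (hz : Chn (Sph cs) (k + 1) z)
    (hz2 : ∀ S : Finset B, ∑ v ∈ Sᶜ, z (insert v S) = 0)
    (hφ : ∀ R : Finset B, Sph cs R → R.card = k + 2 → ∑ v ∈ R, φ (R.erase v) = 0) :
    ∑ P ∈ powersetCard (k + 1) univ, φ P * z P = 0 := by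
  classical
  obtain ⟨z', hz'⟩ : ∃ z' : Finset (IV cs) → ZMod 2, z' = fun N => ∑ σ : Finset B, z σ * Sn cs (k + 1) σ N := ⟨_, rfl⟩
  have h1 := hGI z' (phT cs φ) ?_ ?_ (fun R hR hc => phT_cocycle cs hφ hR hc)
  · rw [← h1, hz']
    have h2 : ∀ N ∈ powersetCard (k + 1) (univ : Finset (IV cs)), phT cs φ N * ∑ σ : Finset B, z σ * Sn cs (k + 1) σ N =
        ∑ σ : Finset B, z σ * (phT cs φ N * Sn cs (k + 1) σ N) := by
      intro N _
      rw [mul_sum]
      refine sum_congr rfl fun σ _ => by ring
    rw [sum_congr rfl h2, sum_comm]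
    have h3 : ∀ σ ∈ (univ : Finset (Finset B)), (∑ N ∈ powersetCard (k + 1) (univ : Finset (IV cs)),
        z σ * (phT cs φ N * Sn cs (k + 1) σ N)) = z σ * φ σ := by
      intro σ _
      by_cases h4 : z σ = 0
      · rw [h4, zero_mul]
        exact sum_eq_zero fun N _ => zero_mul _
      · obtain ⟨g1, g2⟩ := hz σ h4
        rw [← mul_sum]
        congr 1
        have h5 := Sn_deg cs (k + 1) g1 g2
        have h6 : ∑ N ∈ powersetCard (k + 1) (univ : Finset (IV cs)), phT cs φ N * Sn cs (k + 1) σ N =
            φ σ * ∑ N ∈ univ.filter (fun N : Finset (IV cs) => N.image (pt cs) = σ),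
              (if N.card = k + 1 then Sn cs (k + 1) σ N else 0) := by
          rw [mul_sum, sum_filter]
          rw [← sum_filter_add_sum_filter_not (univ : Finset (Finset (IV cs))) (fun N => N.card = k + 1)
            (fun N => if N.image (pt cs) = σ then φ σ * (if N.card = k + 1 then Sn cs (k + 1) σ N else 0) else 0)]
          have h7 : ∑ N ∈ (univ : Finset (Finset (IV cs))).filter (fun N => ¬ N.card = k + 1),
              (if N.image (pt cs) = σ then φ σ * (if N.card = k + 1 then Sn cs (k + 1) σ N else 0) else 0) = 0 := by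
            refine sum_eq_zero fun N hN => ?_
            rw [if_neg (mem_filter.mp hN).2, mul_zero, ite_self]
          rw [h7, add_zero]
          refine sum_congr ?_ fun N hN => ?_
          · ext N
            rw [mem_powersetCard_univ, mem_filter]
            simp
          · have hNc : N.card = k + 1 := (mem_powersetCard_univ).mp (by
              simpa using hN)
            rw [if_pos hNc]
            by_cases h8 : Sn cs (k + 1) σ N = 0
            · rw [h8, mul_zero, mul_zero, ite_self]
            · obtain ⟨e1, e2, _⟩ := Sn_supp cs (k + 1) g1 g2 h8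
              have hsub : N.image (pt cs) ⊆ σ := by
                intro b hb
                obtain ⟨K, hK, rfl⟩ := mem_image.mp hb
                exact e2 K hK (pt_mem cs K)
              by_cases h9 : N.image (pt cs) = σ
              · rw [if_pos h9]
                unfold phT
                rw [if_pos (by rw [h9, g2, hNc]), h9]
              · rw [if_neg h9]
                unfold phT
                rw [if_neg, zero_mul]
                intro h10
                exact h9 (eq_of_subset_of_card_le hsub (by rw [g2, h10, hNc]))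
        rw [h6, h5, mul_one]
    rw [sum_congr rfl h3]
    symm
    refine (sum_subset (subset_univ _) ?_).symm.trans (sum_congr rfl fun P _ => mul_comm _ _)
    intro P _ hP
    by_contra h4
    apply hP
    rw [mem_powersetCard_univ]
    exact (hz P (left_ne_zero_of_mul h4)).2
  · intro N hN
    rw [hz'] at hN
    obtain ⟨σ, _, hσ⟩ := exists_ne_zero_of_sum_ne_zero hN
    obtain ⟨g1, g2⟩ := hz σ (left_ne_zero_of_mul hσ)
    obtain ⟨e1, _, e3⟩ := Sn_supp cs (k + 1) g1 g2 (right_ne_zero_of_mul hσ)
    exact ⟨e3, e1⟩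
  · intro T
    rw [hz']
    simp only
    rw [sum_comm]
    have h2 : ∀ σ ∈ (univ : Finset (Finset B)), (∑ v ∈ Tᶜ, z σ * Sn cs (k + 1) σ (insert v T)) =
        ∑ s ∈ σ, z σ * Sn cs k (σ.erase s) T := by
      intro σ _
      rw [← mul_sum, ← mul_sum]
      by_cases h4 : z σ = 0
      · rw [h4, zero_mul, zero_mul]
      · obtain ⟨g1, g2⟩ := hz σ h4
        rw [Sn_bd cs (k + 1) g1 g2 T]
        rfl
    rw [sum_congr rfl h2]
    -- change the order
    have h3 : ∑ σ : Finset B, ∑ s ∈ σ, z σ * Sn cs k (σ.erase s) T =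
        ∑ τ : Finset B, ∑ s ∈ τᶜ, z (insert s τ) * Sn cs k τ T := by
      rw [sum_sigma', sum_sigma']
      refine sum_bij' (fun x _ => ⟨x.1.erase x.2, x.2⟩) (fun x _ => ⟨insert x.2 x.1, x.2⟩) ?_ ?_ ?_ ?_ ?_
      · rintro ⟨σ, s⟩ h
        simp only [mem_sigma, mem_univ, true_and, mem_compl, notMem_erase, not_false_eq_true]
      · rintro ⟨σ, s⟩ h
        simp only [mem_sigma, mem_univ, true_and, mem_insert_self]
      · rintro ⟨σ, s⟩ h
        simp only [mem_sigma, mem_univ, true_and] at h
        simp only [insert_erase h]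
      · rintro ⟨σ, s⟩ h
        simp only [mem_sigma, mem_univ, true_and, mem_compl] at h
        simp only [erase_insert h]
      · rintro ⟨σ, s⟩ h
        simp only [mem_sigma, mem_univ, true_and] at h
        simp only [insert_erase h]
    rw [h3]
    refine sum_eq_zero fun τ _ => ?_
    rw [← sum_mul, hz2 τ, zero_mul]

end Pool.Agent.H77AR
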