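import Pool.Agent.H77AR.P2
import Pool.Agent.H77AR.C1
import Pool.Agent.H77RA.B1

/-!
# The Salvetti complex over the group von Neumann algebra
-/

set_option autoImplicit false
set_option linter.unusedSectionVars false

open scoped Matrix

namespace Pool.Agent.H77AR

open CoxeterSystem Pool.Agent.Helper741 Finset Pool.Agent.H77RA Pool.Agent.W326.DU Pool.Agent.Helper655.VN Pool.Agent.RK

variable {B : Type} {M : CoxeterMatrix B} [Fintype B] [LinearOrder B] {W : Type} [Group W] (cs : CoxeterSystem M W)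

theorem isTop_singleton (u : B) : IsTop cs {u} (cs.simple u) := by
  refine ⟨simple_mem_para cs (mem_singleton_self u), fun j hj => ?_⟩
  rw [mem_singleton.mp hj, cs.simple_mul_simple_self, cs.length_one, cs.length_simple]
  exact one_pos

theorem sph_singleton (u : B) : Sph cs {u} := by
  unfold Sph para
  have h1 : (cs.simple '' (({u} : Finset B) : Set B)) = {cs.simple u} := by simp
  rw [h1, ← Subgroup.zpowers_eq_closure]
  have h2 : IsOfFinOrder (cs.simple u) := by
    rw [isOfFinOrder_iff_pow_eq_one]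
    exact ⟨2, by norm_num, by rw [pow_two, cs.simple_mul_simple_self]⟩
  exact h2.finite_zpowers

theorem Pc_singleton (u : B) : Pc cs {u} ∅ = 1 - MonoidAlgebra.of ℤ (Artin M) (Artin.gen M u) := by
  have h := alt_sum cs (sph_singleton cs u) (isTop_singleton cs u)
  have h1 : ({u} : Finset B).powerset = {∅, {u}} := by
    ext t
    simp [Finset.subset_singleton_iff]
  rw [h1, sum_insert (by simp [eq_comm]), sum_singleton, Pc_self cs (sph_singleton cs u)] at h
  unfold el1 at h
  have h2 : sec cs (cs.simple u) = Artin.gen M u := by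
    have := sec_eq cs [u] (by
      unfold CoxeterSystem.IsReduced
      rw [cs.wordProd_singleton, cs.length_simple]
      rfl)
    simpa using this
  rw [h2, cs.length_simple] at h
  simp only [card_empty, pow_zero, one_smul, card_singleton, pow_one] at h
  rw [neg_one_smul, neg_one_smul] at h
  rw [sub_eq_add_neg, ← h]
  abel

/-- The Salvetti complex is exact in positive degrees. -/
def SalvExact : Prop := ∀ (n : ℕ) (c : Finset B → MonoidAlgebra ℤ (Artin M)), Chn (Sph cs) (n + 1) c →
  bdQ (Pc cs) c = 0 → ∃ c', Chn (Sph cs) (n + 2) c' ∧ bdQ (Pc cs) c' = c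

theorem augm_el (u : B) : augm (Artin M) (1 - MonoidAlgebra.of ℤ (Artin M) (Artin.gen M u)) = 0 := by
  rw [map_sub, augm_of, augm_one', sub_self]

/-- the vertex of degree zero -/
def empS : XS (Sph cs) 0 := ⟨∅, sph_empty cs, rfl⟩

theorem XS0_eq (σ : XS (Sph cs) 0) : σ = empS cs := Subtype.ext (card_eq_zero.mp σ.2.2)

theorem sph_hX : ∀ S T : Finset B, S ⊆ T → Sph cs T → Sph cs S := fun _ _ h1 h2 => Sph.mono cs h1 h2

theorem Pc_mul' : ∀ σ τ ρ : Finset B, Sph cs σ → τ ⊆ σ → ρ ⊆ τ → Pc cs σ τ * Pc cs τ ρ = Pc cs σ ρ :=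
  fun _ _ _ h h1 h2 => Pc_mul cs h h1 h2

theorem salv_dd0 (n : ℕ) (z : Finset B → MonoidAlgebra ℤ (Artin M)) (hz : Chn (Sph cs) (n + 1 + 1) z) :
    Matrix.vecMul (frS (Sph cs) (n + 1) (bdQ (Pc cs) z)) (dS (Sph cs) (Pc cs) n) = 0 := by
  have h1 : Chn (Sph cs) (n + 1) (bdQ (Pc cs) z) := bdQ_chn (sph_hX cs) hz
  have h2 := vecMul_dS (Sph cs) (Pc cs) n (frS (Sph cs) (n + 1) (bdQ (Pc cs) z))
  have h3 := toS_frS (Sph cs) (n + 1) h1
  have h4 : bdQ (Pc cs) (bdQ (Pc cs) z) = 0 := bdQ_bdQ (X := Sph cs) (n := n + 1 + 1) (Pc_mul' cs) hz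
  rw [h2, h3, h4, frS_zero]

theorem salv_dd (n : ℕ) (w : Fin (Fintype.card (XS (Sph cs) (n + 1 + 1))) → MonoidAlgebra ℤ (Artin M)) :
    Matrix.vecMul (Matrix.vecMul w (dS (Sph cs) (Pc cs) (n + 1))) (dS (Sph cs) (Pc cs) n) = 0 := by
  have h2 := vecMul_dS (Sph cs) (Pc cs) (n + 1) w
  rw [h2]
  exact salv_dd0 cs n _ (toS_chn (Sph cs) (n + 1 + 1) w)

theorem salv_exact (hex : SalvExact cs) (n : ℕ)
    (v : Fin (Fintype.card (XS (Sph cs) (n + 1))) → MonoidAlgebra ℤ (Artin M))
    (h : Matrix.vecMul v (dS (Sph cs) (Pc cs) n) = 0) :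
    ∃ w : Fin (Fintype.card (XS (Sph cs) (n + 1 + 1))) → MonoidAlgebra ℤ (Artin M),
      v = Matrix.vecMul w (dS (Sph cs) (Pc cs) (n + 1)) := by
  rw [vecMul_dS] at h
  have h1 : bdQ (Pc cs) (toS (Sph cs) (n + 1) v) = 0 := by
    refine frS_inj (Sph cs) (bdQ_chn (sph_hX cs) (toS_chn (Sph cs) (n + 1) v)) (fun T hT => absurd rfl hT) ?_
    rw [h, frS_zero]
  obtain ⟨w, hw, hbw⟩ := hex n _ (toS_chn (Sph cs) (n + 1) v) h1
  refine ⟨frS (Sph cs) (n + 1 + 1) w, ?_⟩
  rw [vecMul_dS, toS_frS (Sph cs) (n + 1 + 1) hw, hbw, frS_toS]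

/-- the free resolution -/
noncomputable def salvRes (hex : SalvExact cs) : V7N.FreeRes (Artin M) where
  r n := Fintype.card (XS (Sph cs) n)
  d n := dS (Sph cs) (Pc cs) n
  ε := (augm (Artin M)).comp (Pi.evalAddMonoidHom _ (nu (Sph cs) 0 (empS cs)))
  ε_smul g v := by
    change augm _ (MonoidAlgebra.single g (1 : ℤ) * v _) = augm _ (v _)
    rw [augm_mul]
    have : augm (Artin M) (MonoidAlgebra.single g (1 : ℤ)) = 1 := augm_of g
    rw [this, one_mul]
  ε_surj m := by
    refine ⟨fun _ => m • (1 : MonoidAlgebra ℤ (Artin M)), ?_⟩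
    change augm _ (m • (1 : MonoidAlgebra ℤ (Artin M))) = m
    rw [map_zsmul]
    rw [augm_one']
    simp
  exact_zero v := by
    classical
    set x := v (nu (Sph cs) 0 (empS cs)) with hx
    have hvx : ∀ w : Fin (Fintype.card (XS (Sph cs) 0)) → MonoidAlgebra ℤ (Artin M),
        v = w ↔ x = w (nu (Sph cs) 0 (empS cs)) := by
      intro w
      constructor
      · intro h; rw [hx, h]
      · intro h
        funext i
        have hi : i = nu (Sph cs) 0 (empS cs) := by
          rw [← XS0_eq cs ((nu (Sph cs) 0).symm i), Equiv.apply_symm_apply]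
        rw [hi]; exact h
    have hval : ∀ w : Fin (Fintype.card (XS (Sph cs) 1)) → MonoidAlgebra ℤ (Artin M),
        Matrix.vecMul w (dS (Sph cs) (Pc cs) 0) (nu (Sph cs) 0 (empS cs)) =
          ∑ u, toS (Sph cs) 1 w {u} * (1 - MonoidAlgebra.of ℤ (Artin M) (Artin.gen M u)) := by
      intro w
      rw [vecMul_dS]
      unfold frS
      rw [Equiv.symm_apply_apply]
      unfold bdQ empS
      have h5 : (∅ᶜ : Finset B) = univ := by simp
      simp only [h5]
      refine sum_congr rfl fun u _ => ?_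
      have h6 : sgn u (∅ : Finset B) = 1 := by simp [sgn]
      rw [h6, one_smul]
      have h7 : insert u (∅ : Finset B) = {u} := by simp
      rw [h7, Pc_singleton]
    change augm _ x = 0 ↔ _
    constructor
    · intro h
      have h1 := aug_th (Artin M) (Set.range (Artin.gen M)) Artin.closure_range_gen x h
      have h2 : IL ℤ (Set.range (Artin.gen M)) = Submodule.span (MonoidAlgebra ℤ (Artin M))
          (Set.range (fun u => MonoidAlgebra.of ℤ (Artin M) (Artin.gen M u) - 1)) := by
        unfold IL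
        congr 1
        rw [← Set.range_comp]
        rfl
      rw [h2, Submodule.mem_span_range_iff_exists_fun] at h1
      obtain ⟨y, hy⟩ := h1
      refine ⟨frS (Sph cs) 1 (fun T => ∑ u, if T = {u} then -y u else 0), ?_⟩
      rw [hvx, hval, ← hy]
      refine sum_congr rfl fun u _ => ?_
      rw [toS_frS]
      · have h3 : (∑ w, if ({u} : Finset B) = {w} then -y w else 0) = -y u := by
          rw [sum_eq_single u]
          · exact if_pos rfl
          · intro w _ hwu
            rw [if_neg]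
            intro h7
            exact hwu (singleton_injective h7).symm
          · intro h; exact absurd (mem_univ _) h
        rw [h3, smul_eq_mul, neg_mul, ← mul_neg, neg_sub]
      · intro T hT
        obtain ⟨w, _, hw⟩ := exists_ne_zero_of_sum_ne_zero hT
        split_ifs at hw with h4
        · rw [h4]
          exact ⟨sph_singleton cs w, card_singleton _⟩
        · exact absurd rfl hw
    · rintro ⟨w, hw⟩
      rw [hvx, hval] at hw
      rw [hw, map_sum]
      refine sum_eq_zero fun u _ => ?_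
      rw [augm_mul, augm_el, mul_zero]
  exact_succ n v := by
    constructor
    · exact salv_exact cs hex n v
    · rintro ⟨w, rfl⟩
      exact salv_dd cs n w

end Pool.Agent.H77AR
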