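import Pool.Agent.H77AR.C2
import Pool.Agent.H77RA.B2

/-!
# Ranks of the differentials of the Salvetti complex
-/

set_option autoImplicit false
set_option linter.unusedSectionVars false

open scoped Matrix

namespace Pool.Agent.H77AR

open CoxeterSystem Pool.Agent.Helper741 Finset Pool.Agent.H77RA Pool.Agent.W326.DU Pool.Agent.Helper655.VN Pool.Agent.RK

variable {B : Type} {M : CoxeterMatrix B} [Fintype B] [LinearOrder B] {W : Type} [Group W] (cs : CoxeterSystem M W)

/-- the image in the group von Neumann algebra -/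
noncomputable def evA (M : CoxeterMatrix B) : MonoidAlgebra ℤ (Artin M) →+* NG (Artin M) :=
  V7N.evM (canL : Artin M →* NG (Artin M))

theorem evA_of (g : Artin M) : evA M (MonoidAlgebra.of ℤ (Artin M) g) = canL g := by
  unfold evA V7N.evM
  simp

theorem pow_inj_of_len {x : Artin M} (h : (lenHom M x).toAdd ≠ 0) : Function.Injective (fun n : ℕ => x ^ n) := by
  intro a b hab
  have h1 := congrArg (lenHom M) hab
  simp only [map_pow] at h1
  have h2 := congrArg Multiplicative.toAdd h1
  rw [toAdd_pow, toAdd_pow, nsmul_eq_mul, nsmul_eq_mul] at h2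
  have h3 := mul_right_cancel₀ h h2
  exact_mod_cast h3

theorem omega_nz (m : ℕ) : ∀ σ : Finset B, σ.card = m → Sph cs σ → Nz (evA M (Pc cs σ ∅)) := by
  induction m using Nat.strong_induction_on with
  | _ m ih =>
  intro σ hm hσ
  rcases σ.eq_empty_or_nonempty with rfl | hne
  · rw [Pc_self cs (sph_empty cs), map_one]
    intro x hx
    rwa [mul_one] at hx
  · have : Finite (para cs σ) := hσ
    obtain ⟨w, hw⟩ := exists_top (cs := cs) σ
    intro y hy
    have h1 : ∀ τ ∈ σ.powerset, y * evA M ((-1 : ℤ) ^ τ.card • Pc cs σ τ) =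
        if τ = σ then (-1 : ℤ) ^ σ.card • y else 0 := by
      intro τ hτ
      rw [map_zsmul, mul_smul_comm]
      split_ifs with h
      · rw [h, Pc_self cs hσ, map_one, mul_one]
      · have hτσ : τ ⊂ σ := lt_of_le_of_ne (mem_powerset.mp hτ) h
        have h2 : y * evA M (Pc cs σ τ) = 0 := by
          refine ih τ.card (by rw [← hm]; exact card_lt_card hτσ) τ rfl (Sph.mono cs hτσ.1 hσ) _ ?_
          rw [mul_assoc, ← map_mul, Pc_mul cs hσ hτσ.1 (empty_subset _)]
          exact hy
        rw [h2, smul_zero]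
    have h2 : y * evA M (∑ τ ∈ σ.powerset, (-1 : ℤ) ^ τ.card • Pc cs σ τ) = y * evA M (el1 cs w) := by
      rw [alt_sum cs hσ hw]
    rw [map_sum, mul_sum, sum_congr rfl h1, sum_ite_eq', if_pos (mem_powerset_self σ)] at h2
    unfold el1 at h2
    rw [map_zsmul, evA_of, mul_smul_comm] at h2
    -- y * Δ = ± y
    have h3 : ∃ ε : ℤ, (ε = 1 ∨ ε = -1) ∧ y * canL (sec cs w) = ε • y := by
      rcases neg_one_pow_eq_or ℤ (cs.length w) with h4 | h4
      · rw [h4, one_smul] at h2
        rcases neg_one_pow_eq_or ℤ σ.card with h5 | h5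
        · rw [h5] at h2
          exact ⟨1, Or.inl rfl, h2.symm⟩
        · rw [h5] at h2
          exact ⟨-1, Or.inr rfl, h2.symm⟩
      · rw [h4, neg_one_smul] at h2
        rcases neg_one_pow_eq_or ℤ σ.card with h5 | h5
        · rw [h5, one_smul] at h2
          refine ⟨-1, Or.inr rfl, ?_⟩
          have h6 := congrArg Neg.neg h2
          rw [neg_neg] at h6
          rw [neg_one_smul]
          exact h6.symm
        · rw [h5, neg_one_smul] at h2
          refine ⟨1, Or.inl rfl, ?_⟩
          rw [one_smul]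
          exact (neg_inj.mp h2).symm
    obtain ⟨ε, hε, h3⟩ := h3
    have h4 : y * canL (sec cs w * sec cs w) = y := by
      rw [map_mul, ← mul_assoc, h3, smul_mul_assoc, h3, smul_smul]
      rcases hε with rfl | rfl <;> simp
    refine nz_canL (K := Artin M) (g := sec cs w * sec cs w) (pow_inj_of_len ?_) y ?_
    · rw [map_mul, lenHom_sec, ← ofAdd_add, toAdd_ofAdd]
      obtain ⟨i, hi⟩ := hne
      have h5 := hw.desc i hi
      have : 0 < cs.length w := by omega
      positivity
    · rw [mul_sub, mul_one, h4, sub_self]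

/-- the diagonal matrix -/
noncomputable def DMs (n : ℕ) : Matrix (Fin (Fintype.card (XS (Sph cs) n))) (Fin (Fintype.card (XS (Sph cs) n))) (NG (Artin M)) :=
  Matrix.diagonal (fun i => evA M (Pc cs ((nu (Sph cs) n).symm i).1 ∅))

theorem DMs_nz (n : ℕ) (x : Fin (Fintype.card (XS (Sph cs) n)) → NG (Artin M)) (h : Matrix.vecMul x (DMs cs n) = 0) :
    x = 0 := by
  funext i
  have h1 := congrFun h i
  unfold DMs at h1
  rw [Matrix.vecMul_diagonal] at h1
  exact omega_nz cs _ _ rfl ((nu (Sph cs) n).symm i).2.1 _ h1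

theorem DMs_nz' (n : ℕ) (x : Fin (Fintype.card (XS (Sph cs) n)) → NG (Artin M)) (h : Matrix.mulVec (DMs cs n) x = 0) :
    x = 0 := by
  funext i
  have h1 := congrFun h i
  unfold DMs at h1
  rw [Matrix.mulVec_diagonal] at h1
  exact (Pool.Agent.RK.Nz.nz_iff (vn_NG (G := Artin M)) _).mp
    (omega_nz cs _ _ rfl ((nu (Sph cs) n).symm i).2.1) _ h1

/-- the boundary matrix with constant coefficients -/
noncomputable def bS (R : Type) [Ring R] (n : ℕ) :
    Matrix (Fin (Fintype.card (XS (Sph cs) (n + 1)))) (Fin (Fintype.card (XS (Sph cs) n))) R :=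
  dS (Sph cs) (fun _ _ => (1 : R)) n

theorem bS_map {R R' : Type} [Ring R] [Ring R'] (F : R →+* R') (n : ℕ) : (bS cs R n).map F = bS cs R' n := by
  unfold bS
  rw [dS_map]
  simp

theorem nmS_eq (hex : SalvExact cs) (n : ℕ) :
    N496.CV.nm (salvRes cs hex) n = dS (Sph cs) (fun a b => evA M (Pc cs a b)) n := by
  have h := dS_map (Sph cs) (Pc cs) (evA M) n
  rw [← h]
  rfl

theorem nmS_DM (n : ℕ) : dS (Sph cs) (fun a b => evA M (Pc cs a b)) n * DMs cs n = DMs cs (n + 1) * bS cs (NG (Artin M)) n := by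
  ext1 i j
  unfold DMs
  rw [Matrix.mul_diagonal, Matrix.diagonal_mul]
  unfold bS dS incQ
  rw [sum_mul, mul_sum]
  refine sum_congr rfl fun v _ => ?_
  split_ifs with h
  · rw [smul_mul_assoc, mul_smul_comm, mul_one, ← map_mul, Pc_mul cs ((nu (Sph cs) (n + 1)).symm i).2.1
      (by rw [← h.2]; exact subset_insert _ _) (empty_subset _)]
  · rw [zero_mul, mul_zero]

theorem rk_nmS (hex : SalvExact cs) (n : ℕ) : rk (tau (Artin M)) (N496.CV.nm (salvRes cs hex) n) =
    rk (tau (Artin M)) (bS cs (NG (Artin M)) n) := by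
  have h0 : rk (tau (Artin M)) (N496.CV.nm (salvRes cs hex) n) =
      rk (m := Fin (Fintype.card (XS (Sph cs) (n + 1)))) (n := Fin (Fintype.card (XS (Sph cs) n))) (tau (Artin M))
        (dS (Sph cs) (fun a b => evA M (Pc cs a b)) n) := by
    rw [nmS_eq]
    rfl
  rw [h0, ← Pool.Agent.RK.RkInj.rk_mul_of_inj (vn_NG (G := Artin M)) (dS (Sph cs) (fun a b => evA M (Pc cs a b)) n)
    (DMs cs n) (DMs_nz cs n), nmS_DM, Pool.Agent.RK.RkInj.rk_mul_of_inj' (vn_NG (G := Artin M)) _ _ (DMs_nz' cs (n + 1))]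

theorem rank_critS (hex : SalvExact cs) (n : ℕ)
    (H : Matrix (Fin (Fintype.card (XS (Sph cs) n))) (Fin (Fintype.card (XS (Sph cs) (n + 1)))) ℤ)
    (H' : Matrix (Fin (Fintype.card (XS (Sph cs) (n + 1)))) (Fin (Fintype.card (XS (Sph cs) (n + 2)))) ℤ)
    (hdet : (bS cs ℤ n * H + H' * bS cs ℤ (n + 1)).det ≠ 0) :
    VN831.l2Betti (Artin M) (n + 1) = 0 := by
  classical
  have hvn := vn_NG (G := Artin M)
  rw [N496.CV.succ_iff (salvRes cs hex) n]
  have hsyl := RkSyl.rk_sylvester hvn (N496.CV.nm (salvRes cs hex) (n + 1)) (N496.CV.nm (salvRes cs hex) n)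
    (N496.CV.nm_mul (salvRes cs hex) n)
  rw [Fintype.card_fin] at hsyl
  refine le_antisymm hsyl ?_
  rw [rk_nmS, rk_nmS]
  set ι : ℤ →+* NG (Artin M) := Int.castRingHom _ with hι
  set U := bS cs ℤ n * H + H' * bS cs ℤ (n + 1) with hU
  have h1 : rk (tau (Artin M)) (U.map ι) = Fintype.card (Fin (Fintype.card (XS (Sph cs) (n + 1)))) := by
    rw [RkFull.rk_full_left hvn]
    intro x hx
    have h2 : U.map ι * (U.adjugate).map ι = (U.det : NG (Artin M)) • (1 : Matrix _ _ (NG (Artin M))) := by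
      rw [← Matrix.map_mul, Matrix.mul_adjugate]
      ext1 i j
      rw [Matrix.map_apply, Matrix.smul_apply, Matrix.smul_apply]
      by_cases hij : i = j
      · rw [hij, Matrix.one_apply_eq, Matrix.one_apply_eq]
        simp [hι]
      · rw [Matrix.one_apply_ne hij, Matrix.one_apply_ne hij]
        simp [hι]
    have h3 : Matrix.vecMul x (U.map ι * (U.adjugate).map ι) = 0 := by
      rw [← Matrix.vecMul_vecMul, hx, Matrix.zero_vecMul]
    rw [h2] at h3
    funext i
    have h4 := congrFun h3 i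
    have h5 : Matrix.vecMul x ((U.det : NG (Artin M)) • (1 : Matrix _ _ (NG (Artin M)))) i =
        x i * (U.det : NG (Artin M)) := by
      have h6 : (U.det : NG (Artin M)) • (1 : Matrix (Fin (Fintype.card (XS (Sph cs) (n + 1)))) (Fin (Fintype.card (XS (Sph cs) (n + 1)))) (NG (Artin M))) =
          Matrix.diagonal (fun _ => (U.det : NG (Artin M))) := by
        rw [← Matrix.smul_one_eq_diagonal]
      rw [h6, Matrix.vecMul_diagonal]
    rw [h5, Pi.zero_apply] at h4
    rw [Pi.zero_apply]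
    have h7 : ((U.det : ℂ) • x i : NG (Artin M)) = 0 := by
      rw [← h4]
      rw [← Int.cast_comm, Int.cast_smul_eq_zsmul, zsmul_eq_mul]
    have h8 : (U.det : ℂ) ≠ 0 := by exact_mod_cast hdet
    rw [← inv_smul_smul₀ h8 (x i), h7, smul_zero]
  rw [Fintype.card_fin] at h1
  have h2 : U.map ι = bS cs (NG (Artin M)) n * H.map ι + H'.map ι * bS cs (NG (Artin M)) (n + 1) := by
    rw [hU, Matrix.map_add _ (map_add ι), Matrix.map_mul, Matrix.map_mul, bS_map, bS_map]
  rw [h2] at h1
  have h3 : ((salvRes cs hex).r (n + 1) : ℝ) = (Fintype.card (XS (Sph cs) (n + 1)) : ℝ) := rfl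
  rw [h3, ← h1]
  refine (rk_add_le hvn _ _).trans ?_
  have h4 := RkMul.rk_mul_left hvn (bS cs (NG (Artin M)) n) (H.map ι)
  have h5 := RkMul.rk_mul_right hvn (H'.map ι) (bS cs (NG (Artin M)) (n + 1))
  linarith

end Pool.Agent.H77AR
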