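import Pool.Agent.H77AR.C3

/-!
# From the pairing of cocycles and cycles to the vanishing of the `L²`-Betti number
-/

set_option autoImplicit false
set_option linter.unusedSectionVars false

open scoped Matrix

namespace Pool.Agent.H77AR

open CoxeterSystem Pool.Agent.Helper741 Finset Pool.Agent.H77RA Pool.Agent.W326.DU Pool.Agent.Helper655.VN Pool.Agent.RK

variable {B : Type} {M : CoxeterMatrix B} [Fintype B] [LinearOrder B] {W : Type} [Group W] (cs : CoxeterSystem M W)

theorem exact_of_pairingS (k : ℕ)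
    (hpair : ∀ z φ : Finset B → ZMod 2, Chn (Sph cs) (k + 1) z →
      (∀ S : Finset B, ∑ v ∈ Sᶜ, z (insert v S) = 0) →
      (∀ R : Finset B, Sph cs R → R.card = k + 2 → ∑ v ∈ R, φ (R.erase v) = 0) →
      ∑ P ∈ powersetCard (k + 1) univ, φ P * z P = 0)
    (v : Fin (Fintype.card (XS (Sph cs) (k + 1))) → ZMod 2) (hv : Matrix.vecMul v (bS cs (ZMod 2) k) = 0) :
    ∃ w, v = Matrix.vecMul w (bS cs (ZMod 2) (k + 1)) := by
  classical
  by_contra hne
  set Rg : Submodule (ZMod 2) (Fin (Fintype.card (XS (Sph cs) (k + 1))) → ZMod 2) :=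
    LinearMap.range (Matrix.vecMulLinear (bS cs (ZMod 2) (k + 1))) with hRg
  have hvR : v ∉ Rg := by
    rintro ⟨w, hw⟩
    exact hne ⟨w, hw.symm⟩
  obtain ⟨ψ, hψ1, hψ2⟩ := Submodule.exists_dual_map_eq_bot_of_notMem hvR inferInstance
  have hψ3 : ∀ w, ψ (Matrix.vecMul w (bS cs (ZMod 2) (k + 1))) = 0 := by
    intro w
    have h1 : ψ (Matrix.vecMul w (bS cs (ZMod 2) (k + 1))) ∈ Rg.map ψ :=
      Submodule.mem_map_of_mem ⟨w, rfl⟩
    rw [hψ2] at h1
    exact h1
  -- expansion of `ψ`
  set c : Fin (Fintype.card (XS (Sph cs) (k + 1))) → ZMod 2 := fun i => ψ (Pi.single i 1) with hc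
  have hψ : ∀ u : Fin (Fintype.card (XS (Sph cs) (k + 1))) → ZMod 2, ψ u = ∑ i, c i * u i := by
    intro u
    have h1 : u = ∑ i, u i • (Pi.single i (1 : ZMod 2) : Fin (Fintype.card (XS (Sph cs) (k + 1))) → ZMod 2) := by
      funext j
      rw [Finset.sum_apply, Finset.sum_eq_single j]
      · simp
      · intro i _ hij
        simp [Pi.single_eq_of_ne hij.symm]
      · intro h; exact absurd (mem_univ _) h
    conv_lhs => rw [h1]
    rw [map_sum]
    refine sum_congr rfl fun i _ => ?_
    rw [map_smul, smul_eq_mul, mul_comm]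
  have hsum : ∀ x y : Fin (Fintype.card (XS (Sph cs) (k + 1))) → ZMod 2,
      ∑ P ∈ powersetCard (k + 1) univ, toS (Sph cs) (k + 1) x P * toS (Sph cs) (k + 1) y P = ∑ i, x i * y i := by
    intro x y
    have h1 : ∑ P ∈ powersetCard (k + 1) univ, toS (Sph cs) (k + 1) x P * toS (Sph cs) (k + 1) y P =
        ∑ P : Finset B, toS (Sph cs) (k + 1) x P * toS (Sph cs) (k + 1) y P := by
      refine sum_subset (subset_univ _) fun P _ hP => ?_
      rw [mem_powersetCard_univ] at hP
      unfold toS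
      rw [dif_neg (fun h => hP h.2), zero_mul]
    rw [h1, ← Equiv.sum_comp (nu (Sph cs) (k + 1)) (fun i => x i * y i)]
    rw [← sum_filter_add_sum_filter_not univ (fun P : Finset B => Sph cs P ∧ P.card = k + 1),
      sum_eq_zero (s := univ.filter (fun P : Finset B => ¬ (Sph cs P ∧ P.card = k + 1))), add_zero]
    · rw [Finset.sum_subtype (univ.filter (fun P : Finset B => Sph cs P ∧ P.card = k + 1))
        (p := fun P : Finset B => Sph cs P ∧ P.card = k + 1) (by simp)]
      refine Fintype.sum_congr _ _ fun P => ?_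
      unfold toS
      rw [dif_pos P.2, dif_pos P.2]
    · intro P hP
      unfold toS
      rw [dif_neg (mem_filter.mp hP).2, zero_mul]
  have h0 := hpair (toS (Sph cs) (k + 1) v) (toS (Sph cs) (k + 1) c) (toS_chn (Sph cs) (k + 1) v) ?_ ?_
  · rw [hsum, ← hψ] at h0
    exact hψ1 h0
  · -- the cycle condition
    have h1 : bdQ (fun _ _ => (1 : ZMod 2)) (toS (Sph cs) (k + 1) v) = 0 := by
      refine frS_inj (Sph cs) (bdQ_chn (sph_hX cs) (toS_chn (Sph cs) (k + 1) v)) (fun T hT => absurd rfl hT) ?_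
      rw [frS_zero, ← hv]
      exact (vecMul_dS (Sph cs) (fun _ _ => (1 : ZMod 2)) k v).symm
    intro S
    have h2 := congrFun h1 S
    unfold bdQ at h2
    rw [Pi.zero_apply] at h2
    rw [← h2]
    refine sum_congr rfl fun u _ => ?_
    rw [sgn_two, mul_one]
  · -- the cocycle condition
    intro R hR hRc
    set σ : XS (Sph cs) (k + 2) := ⟨R, hR, hRc⟩ with hσ
    have h1 := hψ3 (Pi.single (nu (Sph cs) (k + 2) σ) 1)
    rw [hψ] at h1
    rw [← h1]
    have h2 : ∀ i, Matrix.vecMul (Pi.single (nu (Sph cs) (k + 2) σ) 1) (bS cs (ZMod 2) (k + 1)) i =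
        incQ (Sph cs) (fun _ _ => (1 : ZMod 2)) σ ((nu (Sph cs) (k + 1)).symm i) := by
      intro i
      rw [Matrix.single_one_vecMul]
      change incQ (Sph cs) (fun _ _ => (1 : ZMod 2)) ((nu (Sph cs) (k + 2)).symm (nu (Sph cs) (k + 2) σ)) ((nu (Sph cs) (k + 1)).symm i) = _
      rw [Equiv.symm_apply_apply]
    simp only [h2]
    rw [← Equiv.sum_comp (nu (Sph cs) (k + 1))]
    simp only [Equiv.symm_apply_apply]
    unfold incQ
    simp only [mul_sum, sgn_two]
    rw [sum_comm]
    have h3 : ∀ u : B, (∑ τ : XS (Sph cs) (k + 1), c (nu (Sph cs) (k + 1) τ) *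
        (if u ∉ τ.1 ∧ insert u τ.1 = σ.1 then (1 : ZMod 2) else 0)) =
        if u ∈ R then toS (Sph cs) (k + 1) c (R.erase u) else 0 := by
      intro u
      by_cases hu : u ∈ R
      · rw [if_pos hu]
        have h4 : Sph cs (R.erase u : Finset B) ∧ (R.erase u).card = k + 1 := by
          refine ⟨Sph.mono cs (erase_subset _ _) hR, ?_⟩
          rw [card_erase_of_mem hu, hRc]
          rfl
        rw [sum_eq_single ⟨R.erase u, h4⟩]
        · rw [if_pos ⟨notMem_erase _ _, insert_erase hu⟩, mul_one]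
          unfold toS
          rw [dif_pos h4]
        · intro τ _ hτ
          rw [if_neg, mul_zero]
          rintro ⟨h5, h6⟩
          apply hτ
          apply Subtype.ext
          change τ.1 = R.erase u
          have h7 : insert u τ.1 = R := h6
          rw [← h7, erase_insert h5]
        · intro h; exact absurd (mem_univ _) h
      · rw [if_neg hu]
        refine sum_eq_zero fun τ _ => ?_
        rw [if_neg, mul_zero]
        rintro ⟨_, h6⟩
        apply hu
        have h7 : insert u τ.1 = R := h6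
        rw [← h7]
        exact mem_insert_self _ _
    rw [sum_congr rfl fun u _ => h3 u, ← sum_filter]
    refine sum_congr ?_ fun _ _ => rfl
    ext u; simp

/-- **L² part.** -/
theorem salv_l2 (hex : SalvExact cs) (k : ℕ)
    (hpair : ∀ z φ : Finset B → ZMod 2, Chn (Sph cs) (k + 1) z →
      (∀ S : Finset B, ∑ v ∈ Sᶜ, z (insert v S) = 0) →
      (∀ R : Finset B, Sph cs R → R.card = k + 2 → ∑ v ∈ R, φ (R.erase v) = 0) →
      ∑ P ∈ powersetCard (k + 1) univ, φ P * z P = 0) :
    N496.CV.HasL2Betti (Artin M) (k + 1) 0 := by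
  have h2 := exact_of_pairingS cs k hpair
  obtain ⟨H, H', hH⟩ := split_of_exact (bS cs (ZMod 2) k) (bS cs (ZMod 2) (k + 1)) h2
  rw [← bS_map cs (Int.castRingHom (ZMod 2)), ← bS_map cs (Int.castRingHom (ZMod 2))] at hH
  obtain ⟨K, K', hK⟩ := det_lift _ _ _ _ hH
  have h3 := rank_critS cs hex k K K' hK
  rw [← h3]
  exact N496.CV.hasL2Betti (Artin M) (k + 1)

end Pool.Agent.H77AR
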