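import Pool.Agent.H77AR.N4
import Pool.Agent.H77AR.A2
import Pool.Agent.H77AR.C2

/-!
# The leading terms of the differential of the Salvetti complex
-/

set_option autoImplicit false
set_option linter.unusedSectionVars false

namespace Pool.Agent.H77AR

open CoxeterSystem Pool.Agent.Helper741 Finset Pool.Agent.H77RA

variable {B : Type} {M : CoxeterMatrix B} [Fintype B] [LinearOrder B] {W : Type} [Group W] (cs : CoxeterSystem M W)

open Classical in
/-- the longest element of a finite parabolic subgroup -/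
noncomputable def tw (σ : Finset B) : W := if h : Sph cs σ then (exists_top' cs h).choose else 1

theorem tw_top {σ : Finset B} (h : Sph cs σ) : IsTop cs σ (tw cs σ) := by
  unfold tw
  rw [dif_pos h]
  exact (exists_top' cs h).choose_spec

theorem FW_le {σ τ : Finset B} (h : Sph cs σ) (hτ : τ ⊆ σ) {w : W} (hw : w ∈ FW cs σ τ) :
    cs.length w + cs.length (tw cs τ) ≤ cs.length (tw cs σ) := by
  rw [mem_FW cs h] at hw
  have hDτ := tw_top cs (Sph.mono cs hτ h)
  have h1 := len_add cs hw.2 hDτ.mem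
  rw [← h1]
  exact (tw_top cs h).le (mul_mem hw.1 (para_mono cs hτ hDτ.mem))

theorem FW_eq {σ τ : Finset B} (h : Sph cs σ) (hτ : τ ⊆ σ) {w : W} (hw : w ∈ FW cs σ τ)
    (hl : cs.length (tw cs σ) ≤ cs.length w + cs.length (tw cs τ)) : w = tw cs σ * tw cs τ := by
  have hw' := (mem_FW cs h).mp hw
  have hDτ := tw_top cs (Sph.mono cs hτ h)
  have hDσ := tw_top cs h
  have h1 := len_add cs hw'.2 hDτ.mem
  have h2 := hDσ.mul (mul_mem hw'.1 (para_mono cs hτ hDτ.mem))
  have h3 : cs.length (tw cs σ * (w * tw cs τ)) = 0 := by omega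
  rw [cs.length_eq_zero_iff] at h3
  have h4 : w * tw cs τ = tw cs σ := by
    have h5 := eq_inv_of_mul_eq_one_right h3
    rw [hDσ.inv_eq] at h5
    exact h5
  calc w = w * (tw cs τ * tw cs τ) := by rw [hDτ.sq, mul_one]
    _ = tw cs σ * tw cs τ := by rw [← mul_assoc, h4]

theorem FW_mem {σ τ : Finset B} (h : Sph cs σ) (hτ : τ ⊆ σ) : tw cs σ * tw cs τ ∈ FW cs σ τ := by
  have hDτ := tw_top cs (Sph.mono cs hτ h)
  have hDσ := tw_top cs h
  rw [mem_FW cs h]
  refine ⟨mul_mem hDσ.mem (para_mono cs hτ hDτ.mem), fun j hj => ?_⟩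
  have h1 := hDσ.mul (para_mono cs hτ hDτ.mem)
  have h2 := hDσ.mul (para_mono cs hτ (mul_mem hDτ.mem (simple_mem_para cs hj)))
  have h3 := hDτ.mul (simple_mem_para cs hj)
  rw [cs.length_simple] at h3
  rw [mul_assoc]
  omega

theorem FW_len {σ τ : Finset B} (h : Sph cs σ) (hτ : τ ⊆ σ) :
    cs.length (tw cs σ * tw cs τ) + cs.length (tw cs τ) = cs.length (tw cs σ) :=
  (tw_top cs h).mul (para_mono cs hτ (tw_top cs (Sph.mono cs hτ h)).mem)

theorem sec_tw {σ τ : Finset B} (h : Sph cs σ) (hτ : τ ⊆ σ) :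
    sec cs (tw cs σ * tw cs τ) * sec cs (tw cs τ) = sec cs (tw cs σ) := by
  have hDτ := tw_top cs (Sph.mono cs hτ h)
  have e : tw cs σ * tw cs τ * tw cs τ = tw cs σ := by rw [mul_assoc, hDτ.sq, mul_one]
  rw [← sec_mul cs, e]
  rw [e, FW_len cs h hτ]

/-! ### Coefficients -/

theorem coeff_term (a : MonoidAlgebra ℤ (Artin M)) (σ τ : Finset B) (x : Artin M) :
    (a * Pc cs σ τ).coeff x = ∑ w ∈ FW cs σ τ, (-1 : ℤ) ^ cs.length w * a.coeff (x * (sec cs w)⁻¹) := by
  unfold Pc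
  rw [mul_sum, MonoidAlgebra.coeff_sum, Finsupp.finsetSum_apply]
  refine sum_congr rfl fun w _ => ?_
  unfold el1
  rw [mul_smul_comm, MonoidAlgebra.coeff_smul_apply, smul_eq_mul]
  congr 1
  change (a * MonoidAlgebra.single (sec cs w) 1).coeff x = _
  rw [MonoidAlgebra.coeff_mul_single_apply, mul_one]

theorem coeff_bd (c : Finset B → MonoidAlgebra ℤ (Artin M)) (τ : Finset B) (x : Artin M) :
    (bdQ (Pc cs) c τ).coeff x = ∑ v ∈ τᶜ, sgn v τ *
      ∑ w ∈ FW cs (insert v τ) τ, (-1 : ℤ) ^ cs.length w * (c (insert v τ)).coeff (x * (sec cs w)⁻¹) := by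
  unfold bdQ
  rw [MonoidAlgebra.coeff_sum, Finsupp.finsetSum_apply]
  refine sum_congr rfl fun v _ => ?_
  rw [MonoidAlgebra.coeff_smul_apply, smul_eq_mul, coeff_term]

/-- the coefficient of the cell with top `y` -/
noncomputable def gam (c : Finset B → MonoidAlgebra ℤ (Artin M)) (y : Artin M) (σ : Finset B) : ℤ :=
  (-1) ^ cs.length (tw cs σ) * (c σ).coeff (y * (sec cs (tw cs σ))⁻¹)

theorem pow_sq_one (n : ℕ) : (-1 : ℤ) ^ n * (-1) ^ n = 1 := by
  rw [← mul_pow]
  norm_num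

theorem gam_zero {c : Finset B → MonoidAlgebra ℤ (Artin M)} {y : Artin M} {σ : Finset B} (h : gam cs c y σ = 0) :
    (c σ).coeff (y * (sec cs (tw cs σ))⁻¹) = 0 := by
  unfold gam at h
  rcases mul_eq_zero.mp h with h1 | h1
  · exact absurd h1 (pow_ne_zero _ (by norm_num))
  · exact h1

/-- level -/
def LevLe (mu : Artin M → ℤ) (m : ℤ) (c : Finset B → MonoidAlgebra ℤ (Artin M)) : Prop :=
  ∀ σ x, (c σ).coeff x ≠ 0 → mu x + cs.length (tw cs σ) ≤ m

/-- The leading term of the differential. -/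
theorem lead {K : Finset B} (hK : Sph cs K) {mu : Artin M → ℤ} (hmu : ∀ x, ∀ g ∈ AJ M K, mu (x * g) = mu x + lam g)
    {m : ℤ} {c : Finset B → MonoidAlgebra ℤ (Artin M)} (hc : ∀ σ, c σ ≠ 0 → σ ⊆ K) (hl : LevLe cs mu m c)
    {y : Artin M} (hy : mu y = m) {τ : Finset B} (hτ : τ ⊆ K) :
    gam cs (bdQ (Pc cs) c) y τ = ∑ v ∈ τᶜ, sgn v τ * gam cs c y (insert v τ) := by
  unfold gam
  rw [coeff_bd, mul_sum]
  refine sum_congr rfl fun v hv => ?_
  by_cases hvK : insert v τ ⊆ K
  · have hσ : Sph cs (insert v τ) := Sph.mono cs hvK hK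
    have hsub : τ ⊆ insert v τ := subset_insert v τ
    have hDτ := tw_top cs (Sph.mono cs hτ hK)
    rw [sum_eq_single (tw cs (insert v τ) * tw cs τ)]
    · have e1 : y * (sec cs (tw cs τ))⁻¹ * (sec cs (tw cs (insert v τ) * tw cs τ))⁻¹ =
          y * (sec cs (tw cs (insert v τ)))⁻¹ := by
        rw [mul_assoc, ← mul_inv_rev, sec_tw cs hσ hsub]
      rw [e1]
      have e2 := FW_len cs hσ hsub
      have e3 : (-1 : ℤ) ^ cs.length (tw cs (insert v τ)) =
          (-1) ^ cs.length (tw cs τ) * (-1) ^ cs.length (tw cs (insert v τ) * tw cs τ) := by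
        rw [← pow_add]
        congr 1
        omega
      rw [e3]
      ring
    · intro w hw hne
      have h1 : (c (insert v τ)).coeff (y * (sec cs (tw cs τ))⁻¹ * (sec cs w)⁻¹) = 0 := by
        by_contra h2
        have h3 := hl _ _ h2
        have hwA : (sec cs w)⁻¹ ∈ AJ M K := inv_mem (sec_mem cs (para_mono cs hvK ((mem_FW cs hσ).mp hw).1))
        have hDA : (sec cs (tw cs τ))⁻¹ ∈ AJ M K := inv_mem (sec_mem cs (para_mono cs hτ hDτ.mem))
        rw [hmu _ _ hwA, hmu _ _ hDA, hy, lam_inv, lam_inv, lam_sec, lam_sec] at h3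
        exact hne (FW_eq cs hσ hsub hw (by omega))
      rw [h1, mul_zero]
    · intro h
      exact absurd (FW_mem cs hσ hsub) h
  · have h0 : c (insert v τ) = 0 := by
      by_contra h
      exact hvK (hc _ h)
    rw [h0]
    simp

end Pool.Agent.H77AR
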