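import Pool.Agent.H77AR.E1

/-!
# Exactness of the Salvetti complex of a parabolic subgroup of finite type
-/

set_option autoImplicit false
set_option linter.unusedSectionVars false

namespace Pool.Agent.H77AR

open CoxeterSystem Pool.Agent.Helper741 Finset Pool.Agent.H77RA

variable {B : Type} {M : CoxeterMatrix B} [Fintype B] [LinearOrder B] {W : Type} [Group W] (cs : CoxeterSystem M W)

/-- the signs of the cone -/
theorem sgn_swap {s v : B} {ρ : Finset B} (hsv : s ≠ v) (hs : s ∉ ρ) (hv : v ∉ ρ) :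
    sgn v (insert s ρ) * sgn s (insert v ρ) = - (sgn v ρ * sgn s ρ) := by
  rw [sgn_insert hs, sgn_insert hv]
  rcases lt_or_gt_of_ne hsv with h | h
  · rw [if_pos h, if_neg h.not_gt]
    ring
  · rw [if_neg h.not_gt, if_pos h]
    ring

theorem sgn_sq (v : B) (T : Finset B) : sgn v T * sgn v T = 1 := pow_sq_one _

/-- the cone formula in a simplex -/
theorem cone_id {K : Finset B} (g : Finset B → ℤ) (s : B)
    (hg : ∀ ρ ⊆ K, ∑ v ∈ ρᶜ, sgn v ρ * g (insert v ρ) = 0) {τ : Finset B} (hτ : τ ⊆ K) :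
    ∑ v ∈ τᶜ, sgn v τ * (if s ∈ insert v τ then sgn s ((insert v τ).erase s) * g ((insert v τ).erase s) else 0) =
      g τ := by
  by_cases hsτ : s ∈ τ
  · obtain ⟨ρ, hρ⟩ : ∃ ρ, ρ = τ.erase s := ⟨_, rfl⟩
    have hτρ : τ = insert s ρ := by rw [hρ, insert_erase hsτ]
    have hsρ : s ∉ ρ := by rw [hρ]; exact notMem_erase s τ
    have h1 := hg ρ (by rw [hρ]; exact (erase_subset s τ).trans hτ)
    have h2 : ρᶜ = insert s τᶜ := by
      rw [hτρ]
      ext a
      simp only [mem_compl, mem_insert]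
      by_cases ha : a = s
      · rw [ha]; simp [hsρ]
      · simp [ha]
    rw [h2, sum_insert (by simp [hsτ]), ← hτρ] at h1
    have h3 : ∀ v ∈ τᶜ, sgn v τ * (if s ∈ insert v τ then sgn s ((insert v τ).erase s) * g ((insert v τ).erase s)
        else 0) = - sgn s ρ * (sgn v ρ * g (insert v ρ)) := by
      intro v hv
      have hvτ := mem_compl.mp hv
      have hvρ : v ∉ ρ := fun h => hvτ (by rw [hτρ]; exact mem_insert_of_mem h)
      have hne : s ≠ v := by
        rintro rfl
        exact hvτ hsτ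
      have h4 : (insert v τ).erase s = insert v ρ := by
        rw [erase_insert_of_ne hne.symm, hρ]
      rw [if_pos (mem_insert_of_mem hsτ), h4, hτρ]
      have h5 := sgn_swap hne hsρ hvρ
      linear_combination (g (insert v ρ)) * h5
    rw [sum_congr rfl h3, ← mul_sum]
    have h4 := sgn_sq s ρ
    linear_combination (- sgn s ρ) * h1 + g τ * h4
  · rw [sum_eq_single s]
    · rw [if_pos (mem_insert_self _ _), erase_insert hsτ, ← mul_assoc, sgn_sq, one_mul]
    · intro v hv hne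
      rw [if_neg, mul_zero]
      rw [mem_insert]
      rintro (h | h)
      · exact hne h.symm
      · exact hsτ h
    · intro h
      exact absurd (mem_compl.mpr hsτ) h

open Classical in
/-- the coefficients of the correction -/
noncomputable def fbh (mu : Artin M → ℤ) (m : ℤ) (s0 : Artin M → B) (c : Finset B → MonoidAlgebra ℤ (Artin M))
    (τ : Finset B) (x : Artin M) : ℤ :=
  if mu x + cs.length (tw cs τ) = m ∧ s0 (x * sec cs (tw cs τ)) ∈ τ then
    (-1) ^ cs.length (tw cs τ) * (sgn (s0 (x * sec cs (tw cs τ))) (τ.erase (s0 (x * sec cs (tw cs τ)))) *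
      gam cs c (x * sec cs (tw cs τ)) (τ.erase (s0 (x * sec cs (tw cs τ)))))
  else 0

theorem fbh_fin (mu : Artin M → ℤ) (m : ℤ) (s0 : Artin M → B) (c : Finset B → MonoidAlgebra ℤ (Artin M))
    (τ : Finset B) : (Function.support (fbh cs mu m s0 c τ)).Finite := by
  have h1 : (⋃ s ∈ τ, (fun x : Artin M => x * sec cs (tw cs τ) * (sec cs (tw cs (τ.erase s)))⁻¹) ⁻¹'
      ((c (τ.erase s)).coeff.support : Set (Artin M))).Finite := by
    refine Set.Finite.biUnion (Finset.finite_toSet τ) fun s _ => ?_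
    refine Set.Finite.preimage ?_ (Finset.finite_toSet _)
    intro x _ y _ hxy
    simpa using hxy
  refine h1.subset fun x hx => ?_
  rw [Function.mem_support] at hx
  unfold fbh at hx
  split_ifs at hx with h
  · rw [Set.mem_iUnion₂]
    refine ⟨_, h.2, ?_⟩
    rw [Set.mem_preimage, mem_coe, Finsupp.mem_support_iff]
    intro h2
    apply hx
    unfold gam
    rw [h2, mul_zero, mul_zero, mul_zero]
  · exact absurd rfl hx

/-- the correction -/
noncomputable def bh (mu : Artin M → ℤ) (m : ℤ) (s0 : Artin M → B) (c : Finset B → MonoidAlgebra ℤ (Artin M))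
    (τ : Finset B) : MonoidAlgebra ℤ (Artin M) :=
  MonoidAlgebra.ofCoeff (Finsupp.ofSupportFinite (fbh cs mu m s0 c τ) (fbh_fin cs mu m s0 c τ))

theorem bh_coeff (mu : Artin M → ℤ) (m : ℤ) (s0 : Artin M → B) (c : Finset B → MonoidAlgebra ℤ (Artin M))
    (τ : Finset B) (x : Artin M) : (bh cs mu m s0 c τ).coeff x = fbh cs mu m s0 c τ x := rfl

theorem ne_zero_coeff {a : MonoidAlgebra ℤ (Artin M)} (h : a ≠ 0) : ∃ x, a.coeff x ≠ 0 := by
  by_contra hcon
  push Not at hcon
  apply h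
  apply MonoidAlgebra.coeff_injective
  ext x
  exact hcon x

/-- one step of the reduction of the level -/
theorem level_step {K : Finset B} (hK : Sph cs K) {G : Set (Artin M)} {mu : Artin M → ℤ}
    (hmu : ∀ x, ∀ g ∈ AJ M K, mu (x * g) = mu x + lam g) (hG1 : ∀ x ∈ G, ∀ g ∈ PM M K, x * g ∈ G)
    (hG2 : ∀ y ∈ G, ∀ σ ⊆ K, (∀ s ∈ σ, y * (Artin.gen M s)⁻¹ ∈ G) → ∀ Dσ, IsTop cs σ Dσ → y * (sec cs Dσ)⁻¹ ∈ G)
    {n : ℕ} {m : ℤ} {c : Finset B → MonoidAlgebra ℤ (Artin M)} (hc : Chn (fun S => S ⊆ K) (n + 1) c)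
    (hcG : ∀ σ x, (c σ).coeff x ≠ 0 → x ∈ G) (hl : LevLe cs mu m c) (hb : bdQ (Pc cs) c = 0) :
    ∃ b : Finset B → MonoidAlgebra ℤ (Artin M), Chn (fun S => S ⊆ K) (n + 2) b ∧
      (∀ σ x, ((c - bdQ (Pc cs) b) σ).coeff x ≠ 0 → x ∈ G) ∧ LevLe cs mu (m - 1) (c - bdQ (Pc cs) b) := by
  classical
  -- choice of the apex
  by_cases hKne : K.Nonempty
  swap
  · refine ⟨0, fun T hT => absurd rfl hT, ?_, ?_⟩
    · intro σ x h
      exfalso
      have h1 : c σ = 0 := by
        by_contra h2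
        obtain ⟨h3, h4⟩ := hc σ h2
        rw [Finset.not_nonempty_iff_eq_empty] at hKne
        rw [hKne, subset_empty] at h3
        rw [h3, card_empty] at h4
        omega
      have h2 : bdQ (Pc cs) (0 : Finset B → MonoidAlgebra ℤ (Artin M)) = 0 := by
        funext τ; unfold bdQ; simp
      rw [h2, sub_zero, h1] at h
      exact h rfl
    · intro σ x h
      exfalso
      have h1 : c σ = 0 := by
        by_contra h2
        obtain ⟨h3, h4⟩ := hc σ h2
        rw [Finset.not_nonempty_iff_eq_empty] at hKne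
        rw [hKne, subset_empty] at h3
        rw [h3, card_empty] at h4
        omega
      have h2 : bdQ (Pc cs) (0 : Finset B → MonoidAlgebra ℤ (Artin M)) = 0 := by
        funext τ; unfold bdQ; simp
      rw [h2, sub_zero, h1] at h
      exact h rfl
  obtain ⟨k0, hk0⟩ := hKne
  have hs : ∀ y : Artin M, ∃ s ∈ K, (∃ s' ∈ K, y * (Artin.gen M s')⁻¹ ∈ G) → y * (Artin.gen M s)⁻¹ ∈ G := by
    intro y
    by_cases h : ∃ s' ∈ K, y * (Artin.gen M s')⁻¹ ∈ G
    · obtain ⟨s', h1, h2⟩ := h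
      exact ⟨s', h1, fun _ => h2⟩
    · exact ⟨k0, hk0, fun h' => absurd h' h⟩
  choose s0 hs0K hs0 using hs
  have hDK : ∀ σ ⊆ K, IsTop cs σ (tw cs σ) := fun σ hσ => tw_top cs (Sph.mono cs hσ hK)
  have hDA : ∀ σ ⊆ K, sec cs (tw cs σ) ∈ AJ M K := fun σ hσ => sec_mem cs (para_mono cs hσ (hDK σ hσ).mem)
  obtain ⟨b, hbdef⟩ : ∃ b, b = bh cs mu m s0 c := ⟨_, rfl⟩
  -- the support of the correction
  have hbsupp : ∀ τ x, (b τ).coeff x ≠ 0 → (mu x + cs.length (tw cs τ) = m ∧ s0 (x * sec cs (tw cs τ)) ∈ τ) ∧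
      (c (τ.erase (s0 (x * sec cs (tw cs τ))))).coeff
        (x * sec cs (tw cs τ) * (sec cs (tw cs (τ.erase (s0 (x * sec cs (tw cs τ))))))⁻¹) ≠ 0 := by
    intro τ x h
    rw [hbdef, bh_coeff] at h
    unfold fbh at h
    split_ifs at h with h1
    · refine ⟨h1, fun h2 => h ?_⟩
      unfold gam
      rw [h2, mul_zero, mul_zero, mul_zero]
    · exact absurd rfl h
  have hbch : Chn (fun S => S ⊆ K) (n + 2) b := by
    intro τ hτ
    obtain ⟨x, hx⟩ := ne_zero_coeff hτ
    obtain ⟨⟨_, h2⟩, h3⟩ := hbsupp τ x hx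
    have h4 : c (τ.erase (s0 (x * sec cs (tw cs τ)))) ≠ 0 := by
      intro h
      rw [h] at h3
      exact h3 rfl
    obtain ⟨h5, h6⟩ := hc _ h4
    constructor
    · rw [← insert_erase h2]
      exact insert_subset (hs0K _) h5
    · rw [card_erase_of_mem h2] at h6
      have : 0 < τ.card := card_pos.mpr ⟨_, h2⟩
      omega
  have hbK : ∀ τ, b τ ≠ 0 → τ ⊆ K := fun τ h => (hbch τ h).1
  have hbG : ∀ τ x, (b τ).coeff x ≠ 0 → x ∈ G := by
    intro τ x hx
    have hτK : τ ⊆ K := hbK τ (by intro h; rw [h] at hx; exact hx rfl)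
    obtain ⟨⟨_, h2⟩, h3⟩ := hbsupp τ x hx
    obtain ⟨y, hy⟩ : ∃ y, y = x * sec cs (tw cs τ) := ⟨_, rfl⟩
    rw [← hy] at h2 h3
    obtain ⟨ρ, hρ⟩ : ∃ ρ, ρ = τ.erase (s0 y) := ⟨_, rfl⟩
    rw [← hρ] at h3
    have hρK : ρ ⊆ K := by rw [hρ]; exact (erase_subset _ _).trans hτK
    have h4 := hcG _ _ h3
    have hDρ := hDK ρ hρK
    have h5 : ∀ s ∈ ρ, y * (Artin.gen M s)⁻¹ ∈ G := by
      intro s hsρ
      have e1 : sec cs (tw cs ρ) = sec cs (tw cs ρ * cs.simple s) * Artin.gen M s := by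
        have h6 := sec_mul_simple cs (tw cs ρ * cs.simple s) s (by
          rw [cs.simple_mul_simple_cancel_right]
          exact hDρ.desc s hsρ)
        rwa [cs.simple_mul_simple_cancel_right] at h6
      have e2 : y * (Artin.gen M s)⁻¹ = y * (sec cs (tw cs ρ))⁻¹ * sec cs (tw cs ρ * cs.simple s) := by
        rw [e1]
        group
      rw [e2]
      refine hG1 _ h4 _ (sec_PM ?_)
      exact para_mono cs hρK (mul_mem hDρ.mem (simple_mem_para cs hsρ))
    have hρne : ρ.Nonempty := by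
      have h6 : c ρ ≠ 0 := by
        intro h
        rw [h] at h3
        exact h3 rfl
      rw [← card_pos, (hc ρ h6).2]
      exact Nat.succ_pos _
    obtain ⟨s1, hs1⟩ := hρne
    have h7 := hs0 y ⟨s1, hρK hs1, h5 s1 hs1⟩
    have hyG : y ∈ G := by
      have e : y = y * (Artin.gen M s1)⁻¹ * Artin.gen M s1 := by group
      rw [e]
      exact hG1 _ (h5 s1 hs1) _ (gen_mem_PM (hρK hs1))
    have h8 := hG2 y hyG τ hτK (fun s hs => by
      by_cases hss : s = s0 y
      · rw [hss]; exact h7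
      · exact h5 s (by rw [hρ]; exact mem_erase.mpr ⟨hss, hs⟩)) (tw cs τ) (hDK τ hτK)
    rw [hy] at h8
    rwa [mul_inv_cancel_right] at h8
  have hblev : LevLe cs mu m b := fun τ x hx => (hbsupp τ x hx).1.1.le
  -- the differential of the correction
  have hdsupp : ∀ τ x, (bdQ (Pc cs) b τ).coeff x ≠ 0 → ∃ v ∈ τᶜ, insert v τ ⊆ K ∧ ∃ w ∈ FW cs (insert v τ) τ,
      (b (insert v τ)).coeff (x * (sec cs w)⁻¹) ≠ 0 := by
    intro τ x h
    rw [coeff_bd] at h
    obtain ⟨v, hv, h1⟩ := exists_ne_zero_of_sum_ne_zero h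
    obtain ⟨w, hw, h2⟩ := exists_ne_zero_of_sum_ne_zero (right_ne_zero_of_mul h1)
    have h3 := right_ne_zero_of_mul h2
    refine ⟨v, hv, hbK _ (by intro h; rw [h] at h3; exact h3 rfl), w, hw, h3⟩
  have hdG : ∀ τ x, (bdQ (Pc cs) b τ).coeff x ≠ 0 → x ∈ G := by
    intro τ x h
    obtain ⟨v, hv, hvK, w, hw, h1⟩ := hdsupp τ x h
    have h2 := hG1 _ (hbG _ _ h1) (sec cs w)
      (sec_PM (para_mono cs hvK ((mem_FW cs (Sph.mono cs hvK hK)).mp hw).1))
    rwa [inv_mul_cancel_right] at h2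
  have hdlev : LevLe cs mu m (bdQ (Pc cs) b) := by
    intro τ x h
    obtain ⟨v, hv, hvK, w, hw, h1⟩ := hdsupp τ x h
    have hσ := Sph.mono cs hvK hK
    have h2 := hblev _ _ h1
    have hwA : (sec cs w)⁻¹ ∈ AJ M K := inv_mem (sec_mem cs (para_mono cs hvK ((mem_FW cs hσ).mp hw).1))
    rw [hmu _ _ hwA, lam_inv, lam_sec] at h2
    have h3 := FW_le cs hσ (subset_insert v τ) hw
    have h4 : ((cs.length w + cs.length (tw cs τ) : ℕ) : ℤ) ≤ (cs.length (tw cs (insert v τ)) : ℕ) := by exact_mod_cast h3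
    push_cast at h4
    linarith
  have hcK : ∀ σ, c σ ≠ 0 → σ ⊆ K := fun σ h => (hc σ h).1
  -- the leading coefficients agree
  have hlead : ∀ y, mu y = m → ∀ τ ⊆ K, gam cs (bdQ (Pc cs) b) y τ = gam cs c y τ := by
    intro y hy τ hτ
    rw [lead cs hK hmu hbK hblev hy hτ]
    have h1 : ∀ v ∈ τᶜ, sgn v τ * gam cs b y (insert v τ) = sgn v τ * (if s0 y ∈ insert v τ then
        sgn (s0 y) ((insert v τ).erase (s0 y)) * gam cs c y ((insert v τ).erase (s0 y)) else 0) := by
      intro v hv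
      congr 1
      by_cases hvK : insert v τ ⊆ K
      · have hA := hDA _ hvK
        unfold gam
        rw [hbdef, bh_coeff]
        unfold fbh
        rw [inv_mul_cancel_right, hmu _ _ (inv_mem hA), lam_inv, lam_sec, hy]
        by_cases h2 : s0 y ∈ insert v τ
        · rw [if_pos ⟨by ring, h2⟩, if_pos h2, ← mul_assoc, pow_sq_one, one_mul]
          rfl
        · rw [if_neg (fun h => h2 h.2), if_neg h2, mul_zero]
      · have h2 : b (insert v τ) = 0 := by
          by_contra h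
          exact hvK (hbK _ h)
        have h3 : gam cs b y (insert v τ) = 0 := by
          unfold gam
          rw [h2]
          simp
        rw [h3]
        split_ifs with h4
        · have h5 : c ((insert v τ).erase (s0 y)) = 0 := by
            by_contra h6
            apply hvK
            rw [← insert_erase h4]
            exact insert_subset (hs0K y) (hcK _ h6)
          unfold gam
          rw [h5]
          simp
        · rfl
    rw [sum_congr rfl h1]
    refine cone_id (K := K) (fun σ => gam cs c y σ) (s0 y) ?_ hτ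
    intro ρ hρ
    rw [← lead cs hK hmu hcK hl hy hρ, hb]
    unfold gam
    simp
  refine ⟨b, hbch, ?_, ?_⟩
  · intro σ x h
    rw [Pi.sub_apply, MonoidAlgebra.coeff_sub, Finsupp.sub_apply] at h
    by_cases h1 : (c σ).coeff x = 0
    · rw [h1, zero_sub, neg_ne_zero] at h
      exact hdG σ x h
    · exact hcG σ x h1
  · intro σ x h
    rw [Pi.sub_apply, MonoidAlgebra.coeff_sub, Finsupp.sub_apply] at h
    have h1 : mu x + cs.length (tw cs σ) ≤ m := by
      by_cases h1 : (c σ).coeff x = 0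
      · rw [h1, zero_sub, neg_ne_zero] at h
        exact hdlev σ x h
      · exact hl σ x h1
    have h2 : mu x + cs.length (tw cs σ) ≠ m := by
      intro h2
      apply h
      have hσK : σ ⊆ K := by
        by_contra hσ
        have h3 : c σ = 0 := by
          by_contra h4
          exact hσ (hcK σ h4)
        rw [h3] at h
        simp only [MonoidAlgebra.coeff_zero, Finsupp.coe_zero, Pi.zero_apply, zero_sub, neg_ne_zero] at h
        obtain ⟨v, hv, hvK, _⟩ := hdsupp σ x h
        exact hσ ((subset_insert v σ).trans hvK)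
      have h3 := hlead (x * sec cs (tw cs σ)) (by rw [hmu _ _ (hDA σ hσK), lam_sec, h2]) σ hσK
      unfold gam at h3
      rw [mul_inv_cancel_right] at h3
      have h4 := mul_left_cancel₀ (pow_ne_zero _ (by norm_num : (-1 : ℤ) ≠ 0)) h3
      rw [h4, sub_self]
    omega

/-- **Deligne's theorem**, in algebraic form: exactness for a parabolic subgroup of finite type. -/
theorem exact_sph {K : Finset B} (hK : Sph cs K) (n : ℕ) {c : Finset B → MonoidAlgebra ℤ (Artin M)}
    (hc : Chn (fun S => S ⊆ K) (n + 1) c) (hb : bdQ (Pc cs) c = 0) :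
    ∃ c', Chn (fun S => S ⊆ K) (n + 2) c' ∧ bdQ (Pc cs) c' = c := by
  classical
  obtain ⟨S, hS⟩ : ∃ S : Finset (Artin M), ∀ σ x, (c σ).coeff x ≠ 0 → x ∈ S := by
    refine ⟨(univ : Finset (Finset B)).biUnion (fun σ => (c σ).coeff.support), fun σ x h => ?_⟩
    rw [mem_biUnion]
    exact ⟨σ, mem_univ _, Finsupp.mem_support_iff.mpr h⟩
  obtain ⟨G, mu, hSG, hpos, hmu, hG1, hG2⟩ := exists_region hK S
  -- the level is bounded
  obtain ⟨m0, hm0⟩ : ∃ m0 : ℕ, LevLe cs mu ((m0 : ℤ) - 1) c := by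
    refine ⟨∑ x ∈ S, ∑ σ : Finset B, (mu x + cs.length (tw cs σ)).natAbs + 1, fun σ x h => ?_⟩
    have h1 : (mu x + cs.length (tw cs σ)).natAbs ≤
        ∑ x ∈ S, ∑ σ : Finset B, (mu x + cs.length (tw cs σ)).natAbs := by
      refine (Finset.single_le_sum (f := fun σ => (mu x + cs.length (tw cs σ)).natAbs) (fun _ _ => Nat.zero_le _)
        (mem_univ σ)).trans ?_
      exact Finset.single_le_sum (f := fun x => ∑ σ : Finset B, (mu x + cs.length (tw cs σ)).natAbs)
        (fun _ _ => Nat.zero_le _) (hS σ x h)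
    have h2 := Int.ofNat_le.mpr h1
    push_cast at h2 ⊢
    rw [add_sub_cancel_right]
    exact (le_abs_self _).trans h2
  have hcG : ∀ σ x, (c σ).coeff x ≠ 0 → x ∈ G := fun σ x h => hSG x (hS σ x h)
  clear hS
  induction m0 generalizing c with
  | zero =>
    refine ⟨0, fun T hT => absurd rfl hT, ?_⟩
    have h1 : c = 0 := by
      funext σ
      by_contra h
      obtain ⟨x, hx⟩ := ne_zero_coeff h
      have h2 := hm0 σ x hx
      have h3 := hpos x (hcG σ x hx)
      push_cast at h2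
      omega
    rw [h1]
    funext τ
    unfold bdQ
    simp
  | succ m0 ih =>
    have hm0' : LevLe cs mu (m0 : ℤ) c := by
      intro σ x h
      have := hm0 σ x h
      push_cast at this
      linarith
    obtain ⟨b, h1, h2, h3⟩ := level_step cs hK hmu hG1 hG2 hc hcG hm0' hb
    have hX : ∀ S T : Finset B, S ⊆ T → T ⊆ K → S ⊆ K := fun _ _ h1 h2 => h1.trans h2
    have hQ : ∀ σ τ ρ : Finset B, σ ⊆ K → τ ⊆ σ → ρ ⊆ τ → Pc cs σ τ * Pc cs τ ρ = Pc cs σ ρ :=
      fun σ τ ρ h h1 h2 => Pc_mul cs (Sph.mono cs h hK) h1 h2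
    have hbb : bdQ (Pc cs) (bdQ (Pc cs) b) = 0 := bdQ_bdQ (X := fun S => S ⊆ K) hQ h1
    have hsub : bdQ (Pc cs) (c - bdQ (Pc cs) b) = 0 := by
      have e : bdQ (Pc cs) (c - bdQ (Pc cs) b) = bdQ (Pc cs) c - bdQ (Pc cs) (bdQ (Pc cs) b) := by
        funext τ
        unfold bdQ
        simp only [Pi.sub_apply, sub_mul, smul_sub, sum_sub_distrib]
      rw [e, hb, hbb, sub_zero]
    have hch : Chn (fun S => S ⊆ K) (n + 1) (c - bdQ (Pc cs) b) := by
      intro T hT
      by_cases h4 : c T = 0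
      · rw [Pi.sub_apply, h4, zero_sub, neg_ne_zero] at hT
        exact bdQ_chn (X := fun S => S ⊆ K) hX h1 T hT
      · exact hc T h4
    obtain ⟨c'', h5, h6⟩ := ih hch hsub h3 h2
    refine ⟨b + c'', ?_, ?_⟩
    · intro T hT
      by_cases h4 : b T = 0
      · rw [Pi.add_apply, h4, zero_add] at hT
        exact h5 T hT
      · exact h1 T h4
    · have e : bdQ (Pc cs) (b + c'') = bdQ (Pc cs) b + bdQ (Pc cs) c'' := by
        funext τ
        unfold bdQ
        simp only [Pi.add_apply, add_mul, smul_add, sum_add_distrib]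
      rw [e, h6]
      abel

end Pool.Agent.H77AR
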