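import Pool.Agent.H77AR.A4
import Pool.Agent.H77AR.C4
import Pool.Agent.H77RA.E3

/-!
# The `L²`-Betti numbers of an Artin group above the middle dimension of a contractible manifold
-/

set_option autoImplicit false
set_option linter.unusedSectionVars false

namespace Pool.Agent.H77AR

open Finset Pool.Agent.W326.DU Pool.Agent.W555.KS Pool.Agent.Y131.KS Pool.Agent.R782.Bal Pool.Agent.H77RA
open CoxeterSystem Pool.Agent.Helper741
open scoped Manifold ContDiff

theorem artin_main {B : Type} {M : CoxeterMatrix B} [Fintype B] [LinearOrder B] {Wc : Type} [Group Wc]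
    (cs : CoxeterSystem M Wc) (hex : SalvExact cs) {E : Type} [NormedAddCommGroup E] [NormedSpace ℝ E]
    [FiniteDimensional ℝ E] {HH : Type} [TopologicalSpace HH] (I : ModelWithCorners ℝ E HH) {W : Type}
    [TopologicalSpace W] [T2Space W] [ChartedSpace HH W] [ContractibleSpace W]
    [MulAction (Artin M) W] [ContinuousConstSMul (Artin M) W] [ProperlyDiscontinuousSMul (Artin M) W]
    {k : ℕ} (hk : Module.finrank ℝ E < 2 * k) : N496.CV.HasL2Betti (Artin M) k 0 := by
  obtain ⟨j, rfl⟩ : ∃ j, k = j + 1 := ⟨k - 1, by omega⟩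
  obtain ⟨e⟩ : Nonempty (IV cs × Bool ≃ Fin (Fintype.card (IV cs × Bool))) := ⟨Fintype.equivFin _⟩
  obtain ⟨f1, hc, hne⟩ := exists_f1g (W := W) (GI cs) (rho cs) (sep_rho cs) e
  have hcx := clF_cx (OG (GI cs)) e
  rw [dJoin_eq hcx] at hne
  have h0 : VK2 (clF (OG (GI cs)) e) (Module.finrank ℝ E + 1) :=
    vk2_of_locDir2 hcx f1 hc hne (fun C hC => locDir2_manifold I hC)
  have h1 : VK2 (clF (OG (GI cs)) e) (2 * j + 2) := vk2_le hcx (by omega) h0
  refine salv_l2 cs hex j (fun z φ hz hz2 hφ => ?_)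
  exact pair_transfer cs j (fun z φ hz1 hz2 hφ => pairing_zero e j h1 hz1 hz2 hφ) z φ hz hz2 hφ

end Pool.Agent.H77AR
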