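import Pool.Agent.H77AR.P1

/-!
# The coefficients of the differentials of the Salvetti complex
-/

set_option autoImplicit false
set_option linter.unusedSectionVars false

namespace Pool.Agent.H77AR

open CoxeterSystem Pool.Agent.Helper741 Finset

variable {B : Type} {M : CoxeterMatrix B} [Fintype B] [DecidableEq B] {W : Type} [Group W] (cs : CoxeterSystem M W)

/-- a set of generators is spherical if it generates a finite group -/
def Sph (J : Finset B) : Prop := (para cs J : Set W).Finite

theorem Sph.mono {J K : Finset B} (h : J ⊆ K) (hK : Sph cs K) : Sph cs J :=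
  Set.Finite.subset hK (para_mono cs h)

theorem para_empty : para cs ∅ = ⊥ := by
  unfold para
  simp

theorem sph_empty : Sph cs ∅ := by
  unfold Sph
  rw [para_empty]
  simp

/-- the elements of a finite parabolic subgroup -/
noncomputable def Sph.fs {σ : Finset B} (h : Sph cs σ) : Finset W :=
  Set.Finite.toFinset (s := (para cs σ : Set W)) h

theorem Sph.mem_fs {σ : Finset B} (h : Sph cs σ) {w : W} : w ∈ Sph.fs cs h ↔ w ∈ para cs σ :=
  Set.Finite.mem_toFinset (s := (para cs σ : Set W)) h

open Classical in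
/-- the elements of the parabolic subgroup, if it is finite, without right descents in `T` -/
noncomputable def FW (σ τ : Finset B) : Finset W :=
  if h : Sph cs σ then (Sph.fs cs h).filter (fun w => ∀ j ∈ τ, cs.length w < cs.length (w * cs.simple j)) else ∅

theorem mem_FW {σ τ : Finset B} (h : Sph cs σ) {w : W} :
    w ∈ FW cs σ τ ↔ w ∈ para cs σ ∧ ∀ j ∈ τ, cs.length w < cs.length (w * cs.simple j) := by
  classical
  unfold FW
  rw [dif_pos h, mem_filter, Sph.mem_fs]

/-- the group ring element of an element of the Coxeter group, with its sign -/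
noncomputable def el1 (w : W) : MonoidAlgebra ℤ (Artin M) :=
  (-1 : ℤ) ^ cs.length w • MonoidAlgebra.of ℤ (Artin M) (sec cs w)

theorem el1_mul {u v : W} (h : cs.length (u * v) = cs.length u + cs.length v) :
    el1 cs (u * v) = el1 cs u * el1 cs v := by
  unfold el1
  rw [h, sec_mul cs h, map_mul, smul_mul_smul_comm, pow_add]

/-- The coefficient: the alternating sum of the elements of `W_σ` which are shortest in their cosets modulo `W_τ`. -/
noncomputable def Pc (σ τ : Finset B) : MonoidAlgebra ℤ (Artin M) := ∑ w ∈ FW cs σ τ, el1 cs w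

theorem Pc_mul {σ τ ρ : Finset B} (h : Sph cs σ) (h1 : τ ⊆ σ) (h2 : ρ ⊆ τ) : Pc cs σ τ * Pc cs τ ρ = Pc cs σ ρ := by
  classical
  have hτ : Sph cs τ := Sph.mono cs h1 h
  unfold Pc
  rw [sum_mul_sum, ← sum_product']
  have hlen : ∀ p ∈ FW cs σ τ ×ˢ FW cs τ ρ, cs.length (p.1 * p.2) = cs.length p.1 + cs.length p.2 := by
    intro p hp
    rw [mem_product, mem_FW cs h, mem_FW cs hτ] at hp
    exact len_add cs hp.1.2 hp.2.1
  refine sum_bij (fun p _ => p.1 * p.2) ?_ ?_ ?_ ?_
  · intro p hp
    have hp' := hp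
    rw [mem_product, mem_FW cs h, mem_FW cs hτ] at hp
    rw [mem_FW cs h]
    refine ⟨mul_mem hp.1.1 (para_mono cs h1 hp.2.1), fun j hj => ?_⟩
    rw [mul_assoc, len_add cs hp.1.2 hp.2.1, len_add cs hp.1.2 (mul_mem hp.2.1 (simple_mem_para cs (h2 hj)))]
    exact Nat.add_lt_add_left (hp.2.2 j hj) _
  · intro p hp q hq hpq
    rw [mem_product, mem_FW cs h, mem_FW cs hτ] at hp hq
    obtain ⟨e1, e2⟩ := minrep_unique cs hp.1.2 hq.1.2 hp.2.1 hq.2.1 hpq
    exact Prod.ext e1 e2
  · intro w hw
    rw [mem_FW cs h] at hw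
    obtain ⟨u, v, e, hv, hu⟩ := exists_minrep cs τ w
    have hu' : u ∈ para cs σ := by
      have : u = w * v⁻¹ := by rw [e]; group
      rw [this]
      exact mul_mem hw.1 (inv_mem (para_mono cs h1 hv))
    refine ⟨(u, v), ?_, e.symm⟩
    rw [mem_product, mem_FW cs h, mem_FW cs hτ]
    refine ⟨⟨hu', hu⟩, hv, fun j hj => ?_⟩
    have h3 := hw.2 j hj
    rw [e, mul_assoc, len_add cs hu hv, len_add cs hu (mul_mem hv (simple_mem_para cs (h2 hj)))] at h3
    exact Nat.lt_of_add_lt_add_left h3
  · intro p hp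
    exact (el1_mul cs (hlen p hp)).symm

theorem Pc_self {σ : Finset B} (h : Sph cs σ) : Pc cs σ σ = 1 := by
  have h1 : FW cs σ σ = {1} := by
    ext w
    rw [mem_FW cs h, mem_singleton]
    constructor
    · rintro ⟨h1, h2⟩
      have h3 := minrep_unique cs (J := σ) (u := w) (v := 1) (u' := 1) (v' := w) h2 (fun j hj => by
        rw [one_mul, cs.length_one, cs.length_simple]; exact one_pos) (one_mem _) h1 (by rw [mul_one, one_mul])
      exact h3.1
    · rintro rfl
      refine ⟨one_mem _, fun j hj => ?_⟩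
      rw [one_mul, cs.length_one, cs.length_simple]
      exact one_pos
  unfold Pc
  rw [h1, sum_singleton]
  unfold el1
  have h2 : sec cs (1 : W) = 1 := by
    have := sec_eq cs [] (by simp [CoxeterSystem.IsReduced])
    simpa using this
  rw [h2, cs.length_one, pow_zero, one_smul, map_one]

theorem alt_sum {σ : Finset B} (h : Sph cs σ) {w : W} (hw : IsTop cs σ w) :
    ∑ τ ∈ σ.powerset, (-1 : ℤ) ^ τ.card • Pc cs σ τ = el1 cs w := by
  classical
  have h1 : ∀ τ ∈ σ.powerset, (-1 : ℤ) ^ τ.card • Pc cs σ τ =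
      ∑ v ∈ Sph.fs cs h, if τ ⊆ σ.filter (fun j => cs.length v < cs.length (v * cs.simple j)) then
        (-1 : ℤ) ^ τ.card • el1 cs v else 0 := by
    intro τ hτ
    unfold Pc
    rw [smul_sum, ← sum_filter]
    refine sum_congr ?_ (fun _ _ => rfl)
    ext v
    rw [mem_FW cs h, mem_filter, Sph.mem_fs]
    refine and_congr Iff.rfl ?_
    constructor
    · intro h1 j hj
      exact mem_filter.mpr ⟨mem_powerset.mp hτ hj, h1 j hj⟩
    · intro h1 j hj
      exact (mem_filter.mp (h1 hj)).2
  rw [sum_congr rfl h1, sum_comm]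
  have h2 : ∀ v ∈ Sph.fs cs h, (∑ τ ∈ σ.powerset,
      if τ ⊆ σ.filter (fun j => cs.length v < cs.length (v * cs.simple j)) then
        (-1 : ℤ) ^ τ.card • el1 cs v else 0) = if v = w then el1 cs v else 0 := by
    intro v hv
    rw [Sph.mem_fs] at hv
    have h3 : (∑ τ ∈ σ.powerset,
      if τ ⊆ σ.filter (fun j => cs.length v < cs.length (v * cs.simple j)) then
        (-1 : ℤ) ^ τ.card • el1 cs v else 0) =
        (∑ τ ∈ (σ.filter (fun j => cs.length v < cs.length (v * cs.simple j))).powerset, (-1 : ℤ) ^ τ.card) •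
          el1 cs v := by
      rw [sum_smul, ← sum_filter]
      refine sum_congr ?_ (fun _ _ => rfl)
      ext τ
      rw [mem_filter, mem_powerset, mem_powerset]
      exact ⟨fun h => h.2, fun h => ⟨h.trans (filter_subset _ _), h⟩⟩
    rw [h3, sum_powerset_neg_one_pow_card]
    by_cases hvw : v = w
    · rw [if_pos hvw, if_pos, one_smul]
      rw [filter_eq_empty_iff]
      intro j hj hlt
      rw [hvw] at hlt
      exact absurd (hw.desc j hj) (by omega)
    · rw [if_neg hvw, if_neg, zero_smul]
      intro h4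
      apply hvw
      refine IsTop.unique (J := σ) ⟨hv, fun j hj => ?_⟩ hw
      rw [filter_eq_empty_iff] at h4
      have := h4 hj
      rcases cs.length_mul_simple v j with h5 | h5 <;> omega
  rw [sum_congr rfl h2, sum_ite_eq']
  rw [if_pos]
  rw [Sph.mem_fs]
  exact hw.mem

end Pool.Agent.H77AR
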