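import Pool.Agent.H77AR.V3
import Pool.Agent.H77AR.P2

/-!
# Greedy products in Coxeter groups
-/

set_option autoImplicit false
set_option linter.unusedSectionVars false

namespace Pool.Agent.H77AR

open CoxeterSystem Pool.Agent.Helper741

variable {B : Type} {M : CoxeterMatrix B} [Fintype B] [DecidableEq B] {W : Type} [Group W] (cs : CoxeterSystem M W)

/-- prefixes -/
def Pre (v w : W) : Prop := cs.length v + cs.length (v⁻¹ * w) = cs.length w

theorem pre_mul {a b : W} (h : cs.length (a * b) = cs.length a + cs.length b) : Pre cs a (a * b) := by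
  unfold Pre
  rw [inv_mul_cancel_left, h]

theorem pre_one (w : W) : Pre cs 1 w := by
  unfold Pre
  rw [cs.length_one, inv_one, one_mul, zero_add]

theorem pre_refl (w : W) : Pre cs w w := by
  unfold Pre
  rw [inv_mul_cancel, cs.length_one, add_zero]

theorem Pre.trans {a b c : W} (h1 : Pre cs a b) (h2 : Pre cs b c) : Pre cs a c := by
  unfold Pre at *
  have h3 := cs.length_mul_le (a⁻¹ * b) (b⁻¹ * c)
  have h4 := cs.length_mul_le a (a⁻¹ * c)
  rw [mul_inv_cancel_left] at h4
  have e : a⁻¹ * b * (b⁻¹ * c) = a⁻¹ * c := by group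
  rw [e] at h3
  omega

theorem Pre.antisymm {a b : W} (h1 : Pre cs a b) (h2 : Pre cs b a) : a = b := by
  unfold Pre at h1 h2
  have h3 : cs.length (a⁻¹ * b) = 0 := by omega
  rw [cs.length_eq_zero_iff] at h3
  rw [inv_mul_eq_one] at h3
  exact h3

/-- `a ≤ a b` and `a b ≤ a c` give `b ≤ c` -/
theorem pre_cancel {a b c : W} (hb : cs.length (a * b) = cs.length a + cs.length b)
    (hc : cs.length (a * c) = cs.length a + cs.length c) (h : Pre cs (a * b) (a * c)) : Pre cs b c := by
  unfold Pre at *
  have e : (a * b)⁻¹ * (a * c) = b⁻¹ * c := by group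
  rw [e] at h
  omega

theorem pre_mul_left {a b c : W} (hc : cs.length (a * c) = cs.length a + cs.length c) (h : Pre cs b c) :
    Pre cs (a * b) (a * c) ∧ cs.length (a * b) = cs.length a + cs.length b := by
  unfold Pre at *
  have e : (a * b)⁻¹ * (a * c) = b⁻¹ * c := by group
  have h3 := cs.length_mul_le (a * b) (b⁻¹ * c)
  have e2 : a * b * (b⁻¹ * c) = a * c := by group
  rw [e2] at h3
  have h4 := cs.length_mul_le a b
  rw [e]
  omega

theorem pre_simple {s : B} {w : W} : Pre cs (cs.simple s) w ↔ cs.length (cs.simple s * w) < cs.length w := by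
  unfold Pre
  rw [cs.length_simple, cs.inv_simple]
  rcases cs.length_simple_mul w s with h | h <;> omega

theorem pre_para {K : Finset B} {v w : W} (h : Pre cs v w) (hw : w ∈ para cs K) : v ∈ para cs K := by
  unfold Pre at h
  have h1 : cs.IsReduced (rword cs v ++ rword cs (v⁻¹ * w)) := by
    unfold CoxeterSystem.IsReduced
    rw [cs.wordProd_append, rword_prod, rword_prod, mul_inv_cancel_left, List.length_append, rword_length, rword_length, h]
  have h2 := letters_mem cs _ h1 (by rw [cs.wordProd_append, rword_prod, rword_prod, mul_inv_cancel_left]; exact hw)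
  rw [← rword_prod cs v]
  exact wordProd_mem_para cs _ fun i hi => h2 i (List.mem_append_left _ hi)

/-- an element different from `1` has a first letter -/
theorem exists_first {x : W} (hx : x ≠ 1) : ∃ s, Pre cs (cs.simple s) x := by
  have h1 : (rword cs x) ≠ [] := by
    intro h
    apply hx
    rw [← rword_prod cs x, h, cs.wordProd_nil]
  obtain ⟨s, ω, hω⟩ := List.exists_cons_of_ne_nil h1
  refine ⟨s, ?_⟩
  rw [pre_simple]
  have h2 := rword_reduced cs x
  have h3 := rword_prod cs x
  rw [hω] at h2 h3
  rw [← h3, cs.wordProd_cons, cs.simple_mul_simple_cancel_left, red_cons_len cs h2]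
  exact Nat.lt_succ_self _

variable {cs} in
theorem IsTop.inv_eq {J : Finset B} {w : W} (hw : IsTop cs J w) : w⁻¹ = w := inv_eq_of_mul_eq_one_left hw.sq

variable {cs} in
theorem IsTop.descL {J : Finset B} {w : W} (hw : IsTop cs J w) {j : B} (hj : j ∈ J) :
    cs.length (cs.simple j * w) < cs.length w := by
  have h1 := hw.desc j hj
  rw [len_inv_mul, hw.inv_eq, cs.inv_simple] at h1
  exact h1

/-- the longest element of the parabolic subgroup of a set of left descents is a prefix -/
theorem desc_top {σ : Finset B} {w : W} (h : ∀ s ∈ σ, Pre cs (cs.simple s) w) :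
    Sph cs σ ∧ ∃ x, IsTop cs σ x ∧ Pre cs x w := by
  obtain ⟨u, v, e, hv, hu⟩ := exists_minrep cs σ w⁻¹
  have hw : w = v⁻¹ * u⁻¹ := by rw [← mul_inv_rev, ← e, inv_inv]
  have hu' : ∀ j ∈ σ, cs.length u⁻¹ < cs.length (cs.simple j * u⁻¹) := by
    intro j hj
    have h1 := hu j hj
    rw [len_inv_mul, inv_inv, cs.inv_simple, cs.length_inv]
    exact h1
  have hl := len_addL cs hu' (inv_mem hv)
  have htop : IsTop cs σ v := by
    refine ⟨hv, fun j hj => ?_⟩
    have h1 := (pre_simple cs).mp (h j hj)
    rw [hw, ← mul_assoc, len_addL cs hu' (mul_mem (simple_mem_para cs hj) (inv_mem hv)), hl] at h1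
    have h2 : cs.length (v * cs.simple j) = cs.length (cs.simple j * v⁻¹) := by rw [len_inv_mul, cs.inv_simple]
    rw [h2, ← cs.length_inv v]
    omega
  have htop' : IsTop cs σ v⁻¹ := by
    rw [htop.inv_eq]; exact htop
  refine ⟨?_, v⁻¹, htop', ?_⟩
  · -- finiteness
    have h1 : ∀ n : ℕ, {x : W | cs.length x ≤ n}.Finite := by
      intro n
      have h2 : {x : W | cs.length x ≤ n} ⊆ cs.wordProd '' {l : List B | l.length ≤ n} := by
        intro x hx
        refine ⟨rword cs x, ?_, rword_prod cs x⟩
        rw [Set.mem_ofPred_eq, rword_length]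
        exact hx
      exact ((List.finite_length_le B n).image _).subset h2
    exact (h1 (cs.length v)).subset fun x hx => htop.le hx
  · rw [hw]
    exact pre_mul cs hl

/-- the greatest prefix `m` of `w` such that `u m` is reduced -/
theorem exists_mx : ∀ (n : ℕ) (u w : W), cs.length w = n →
    ∃ m, Pre cs m w ∧ cs.length (u * m) = cs.length u + cs.length m ∧
      ∀ v, Pre cs v w → cs.length (u * v) = cs.length u + cs.length v → Pre cs v m := by
  intro n
  induction n using Nat.strong_induction_on with
  | _ n ih =>
  intro u w hn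
  by_cases hT : ∃ s, Pre cs (cs.simple s) w ∧ cs.length u < cs.length (u * cs.simple s)
  · -- the greatest element which begins with `s`
    have hA : ∀ s, Pre cs (cs.simple s) w → cs.length u < cs.length (u * cs.simple s) →
        ∃ m, Pre cs (cs.simple s) m ∧ Pre cs m w ∧ cs.length (u * m) = cs.length u + cs.length m ∧
          ∀ v, Pre cs (cs.simple s) v → Pre cs v w → cs.length (u * v) = cs.length u + cs.length v → Pre cs v m := by
      intro s hs hus
      have hus' : cs.length (u * cs.simple s) = cs.length u + 1 := by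
        rcases cs.length_mul_simple u s with h | h <;> omega
      have hsw : cs.length (cs.simple s * w) + 1 = cs.length w := by
        have h1 := (pre_simple cs).mp hs
        rcases cs.length_simple_mul w s with h | h <;> omega
      obtain ⟨m1, h1, h2, h3⟩ := ih (cs.length (cs.simple s * w)) (by omega) (u * cs.simple s) (cs.simple s * w) rfl
      have hw : w = cs.simple s * (cs.simple s * w) := by rw [cs.simple_mul_simple_cancel_left]
      have hwl : cs.length (cs.simple s * (cs.simple s * w)) = cs.length (cs.simple s) + cs.length (cs.simple s * w) := by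
        rw [← hw, cs.length_simple]; omega
      obtain ⟨h4, h5⟩ := pre_mul_left cs hwl h1
      rw [← hw] at h4
      refine ⟨cs.simple s * m1, pre_mul cs h5, h4, ?_, ?_⟩
      · rw [← mul_assoc, h2, hus', h5, cs.length_simple]
        ring
      · intro v hsv hvw huv
        have hv : v = cs.simple s * (cs.simple s * v) := by rw [cs.simple_mul_simple_cancel_left]
        have hsv' : cs.length (cs.simple s * v) + 1 = cs.length v := by
          have h1 := (pre_simple cs).mp hsv
          rcases cs.length_simple_mul v s with h | h <;> omega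
        have h6 : Pre cs (cs.simple s * v) (cs.simple s * w) := by
          refine pre_cancel cs (a := cs.simple s) ?_ hwl ?_
          · rw [← hv, cs.length_simple]; omega
          · rw [← hv, ← hw]; exact hvw
        have h7 := h3 _ h6 (by
          rw [mul_assoc, cs.simple_mul_simple_cancel_left, hus', huv]
          omega)
        have h8 := (pre_mul_left cs h5 h7).1
        rw [← hv] at h8
        exact h8
    obtain ⟨s, hs, hus⟩ := hT
    obtain ⟨m, hm1, hm2, hm3, hm4⟩ := hA s hs hus
    refine ⟨m, hm2, hm3, fun v hvw huv => ?_⟩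
    by_cases hv1 : v = 1
    · rw [hv1]; exact pre_one cs m
    · obtain ⟨t, ht⟩ := exists_first cs hv1
      have htw := ht.trans cs hvw
      have hut : cs.length u < cs.length (u * cs.simple t) := by
        have hv : v = cs.simple t * (cs.simple t * v) := by rw [cs.simple_mul_simple_cancel_left]
        have h1 := cs.length_mul_le (u * cs.simple t) (cs.simple t * v)
        rw [mul_assoc, ← hv, huv] at h1
        have h2 := (pre_simple cs).mp ht
        rcases cs.length_mul_simple u t with h | h <;> omega
      obtain ⟨m', hm1', hm2', hm3', hm4'⟩ := hA t htw hut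
      have hvm' := hm4' v ht hvw huv
      -- the longest element of the dihedral group
      obtain ⟨_, x, hx, hxw⟩ := desc_top cs (σ := {s, t}) (w := w) (by
        intro r hr
        rw [Finset.mem_insert, Finset.mem_singleton] at hr
        rcases hr with h | h
        · rw [h]; exact hs
        · rw [h]; exact htw)
      have hux : cs.length (u * x) = cs.length u + cs.length x := by
        refine len_add cs (J := {s, t}) ?_ hx.mem
        intro r hr
        rw [Finset.mem_insert, Finset.mem_singleton] at hr
        rcases hr with h | h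
        · rw [h]; exact hus
        · rw [h]; exact hut
      have hsx : Pre cs (cs.simple s) x := (pre_simple cs).mpr (hx.descL (Finset.mem_insert_self _ _))
      have htx : Pre cs (cs.simple t) x :=
        (pre_simple cs).mpr (hx.descL (Finset.mem_insert_of_mem (Finset.mem_singleton_self _)))
      have h1 := hm4 x hsx hxw hux
      have h2 := hm4' x htx hxw hux
      -- `m = m'`
      have h3 : Pre cs m' m := hm4 m' (hsx.trans cs h2) hm2' hm3'
      exact hvm'.trans cs h3
  · push Not at hT
    refine ⟨1, pre_one cs w, by rw [mul_one, cs.length_one, add_zero], fun v hvw huv => ?_⟩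
    by_cases hv1 : v = 1
    · rw [hv1]; exact pre_refl cs 1
    · exfalso
      obtain ⟨t, ht⟩ := exists_first cs hv1
      have h1 := hT t (ht.trans cs hvw)
      have hv : v = cs.simple t * (cs.simple t * v) := by rw [cs.simple_mul_simple_cancel_left]
      have h2 := cs.length_mul_le (u * cs.simple t) (cs.simple t * v)
      rw [mul_assoc, ← hv, huv] at h2
      have h3 := (pre_simple cs).mp ht
      omega

/-- the part of `w` which is moved to `u` -/
noncomputable def mx (u w : W) : W := (exists_mx cs _ u w rfl).choose

theorem mx_pre (u w : W) : Pre cs (mx cs u w) w := (exists_mx cs _ u w rfl).choose_spec.1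

theorem mx_len (u w : W) : cs.length (u * mx cs u w) = cs.length u + cs.length (mx cs u w) :=
  (exists_mx cs _ u w rfl).choose_spec.2.1

theorem mx_max {u w v : W} (h1 : Pre cs v w) (h2 : cs.length (u * v) = cs.length u + cs.length v) :
    Pre cs v (mx cs u w) := (exists_mx cs _ u w rfl).choose_spec.2.2 v h1 h2

theorem mx_unique {u w m : W} (h1 : Pre cs m w) (h2 : cs.length (u * m) = cs.length u + cs.length m)
    (h3 : Pre cs (mx cs u w) m) : mx cs u w = m := h3.antisymm cs (mx_max cs h1 h2)

/-- the head of the product -/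
noncomputable def al (u w : W) : W := u * mx cs u w

/-- the remainder -/
noncomputable def om (u w : W) : W := (mx cs u w)⁻¹ * w

theorem al_len (u w : W) : cs.length (al cs u w) = cs.length u + cs.length (mx cs u w) := mx_len cs u w

theorem mx_om (u w : W) : mx cs u w * om cs u w = w := mul_inv_cancel_left _ _

theorem om_len (u w : W) : cs.length (mx cs u w) + cs.length (om cs u w) = cs.length w := mx_pre cs u w

/-- greedy pairs -/
def Gr (u w : W) : Prop := ∀ s, Pre cs (cs.simple s) w → cs.length (u * cs.simple s) < cs.length u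

theorem Gr.mx {u w : W} (h : Gr cs u w) : mx cs u w = 1 := by
  by_contra h1
  obtain ⟨s, hs⟩ := exists_first cs h1
  have h2 := h s (hs.trans cs (mx_pre cs u w))
  obtain ⟨v, hv⟩ : ∃ v, v = Pool.Agent.H77AR.mx cs u w := ⟨_, rfl⟩
  rw [← hv] at hs
  have hv' : v = cs.simple s * (cs.simple s * v) := by rw [cs.simple_mul_simple_cancel_left]
  have h3 := cs.length_mul_le (u * cs.simple s) (cs.simple s * v)
  have h4 := mx_len cs u w
  rw [← hv] at h4
  rw [mul_assoc, ← hv', h4] at h3
  have h5 := (pre_simple cs).mp hs
  omega

theorem Gr.al {u w : W} (h : Gr cs u w) : al cs u w = u := by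
  unfold Pool.Agent.H77AR.al
  rw [h.mx, mul_one]

theorem Gr.om {u w : W} (h : Gr cs u w) : om cs u w = w := by
  unfold Pool.Agent.H77AR.om
  rw [h.mx, inv_one, one_mul]

theorem gr_al_om (u w : W) : Gr cs (al cs u w) (om cs u w) := by
  intro s hs
  by_contra h
  have hus : cs.length (al cs u w * cs.simple s) = cs.length (al cs u w) + 1 := by
    rcases cs.length_mul_simple (al cs u w) s with h1 | h1 <;> omega
  have h2 := al_len cs u w
  have h3 : cs.length (mx cs u w * cs.simple s) = cs.length (mx cs u w) + 1 := by
    have h4 := cs.length_mul_le u (mx cs u w * cs.simple s)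
    have h5 : al cs u w * cs.simple s = u * (mx cs u w * cs.simple s) := mul_assoc _ _ _
    rw [h5] at hus
    rcases cs.length_mul_simple (mx cs u w) s with h1 | h1 <;> omega
  have h4 : Pre cs (mx cs u w * cs.simple s) w := by
    have h5 := pre_mul_left cs (a := mx cs u w) (b := cs.simple s) (c := om cs u w)
      (by rw [mx_om]; exact (om_len cs u w).symm) hs
    rw [mx_om] at h5
    exact h5.1
  have h5 := mx_max cs h4 (by rw [← mul_assoc]; change cs.length (al cs u w * cs.simple s) = _; rw [hus, h2, h3]; ring)
  unfold Pre at h5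
  omega

/-- propagation of greediness -/
theorem gr_next {w1 w2 : W} (h : Gr cs w1 w2) (u : W) : Gr cs (al cs u w1) (al cs (om cs u w1) w2) := by
  intro s hs
  by_contra hcon
  obtain ⟨v1, hv1⟩ : ∃ v1, v1 = mx cs u w1 := ⟨_, rfl⟩
  obtain ⟨o1, ho1⟩ : ∃ o1, o1 = om cs u w1 := ⟨_, rfl⟩
  obtain ⟨v2, hv2⟩ : ∃ v2, v2 = mx cs o1 w2 := ⟨_, rfl⟩
  have e1 : v1 * o1 = w1 := by rw [hv1, ho1]; exact mx_om cs u w1
  have l1 : cs.length v1 + cs.length o1 = cs.length w1 := by rw [hv1, ho1]; exact om_len cs u w1
  have l2 : cs.length (o1 * v2) = cs.length o1 + cs.length v2 := by rw [hv2]; exact mx_len cs o1 w2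
  have hs' : Pre cs (cs.simple s) (o1 * v2) := by
    rw [hv2, ho1]
    rw [← ho1] at hs ⊢
    exact hs
  have hal : al cs u w1 = u * v1 := by rw [hv1]; rfl
  have lal : cs.length (u * v1) = cs.length u + cs.length v1 := by rw [hv1]; exact mx_len cs u w1
  rw [hal] at hcon
  have hv1s : cs.length (v1 * cs.simple s) = cs.length v1 + 1 := by
    have h4 := cs.length_mul_le u (v1 * cs.simple s)
    rw [← mul_assoc] at h4
    rcases cs.length_mul_simple v1 s with h1 | h1
    · exact h1
    · rcases cs.length_mul_simple (u * v1) s with h2 | h2 <;> omega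
  obtain ⟨m, hm⟩ : ∃ m, m = mx cs v1 (o1 * v2) := ⟨_, rfl⟩
  have ho : Pre cs o1 m := by
    rw [hm]
    exact mx_max cs (pre_mul cs l2) (by rw [e1, l1])
  have hsm : Pre cs (cs.simple s) m := by
    rw [hm]
    exact mx_max cs hs' (by rw [hv1s, cs.length_simple])
  have hmp : Pre cs m (o1 * v2) := by rw [hm]; exact mx_pre cs _ _
  have hml : cs.length (v1 * m) = cs.length v1 + cs.length m := by rw [hm]; exact mx_len cs _ _
  obtain ⟨x, hx⟩ : ∃ x, x = o1⁻¹ * m := ⟨_, rfl⟩
  have hmx : m = o1 * x := by rw [hx, mul_inv_cancel_left]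
  have lx : cs.length (o1 * x) = cs.length o1 + cs.length x := by
    unfold Pre at ho
    rw [← hx, hmx] at ho
    exact ho.symm
  by_cases hx1 : x = 1
  · rw [hx1, mul_one] at hmx
    rw [hmx, ho1] at hsm
    have h5 := gr_al_om cs u w1 s hsm
    rw [hal] at h5
    exact hcon h5
  · obtain ⟨t, ht⟩ := exists_first cs hx1
    have hxv2 : Pre cs x v2 := by
      refine pre_cancel cs lx l2 ?_
      rw [← hmx]; exact hmp
    have htw2 : Pre cs (cs.simple t) w2 := (ht.trans cs hxv2).trans cs (by rw [hv2]; exact mx_pre cs _ _)
    have h6 := h t htw2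
    -- but `w1 x` is reduced
    have h7 : cs.length (w1 * x) = cs.length w1 + cs.length x := by
      rw [hmx, ← mul_assoc, e1] at hml
      rw [hml, ← l1]
      omega
    have hxt : x = cs.simple t * (cs.simple t * x) := by rw [cs.simple_mul_simple_cancel_left]
    have h8 := cs.length_mul_le (w1 * cs.simple t) (cs.simple t * x)
    rw [mul_assoc, ← hxt, h7] at h8
    have h9 := (pre_simple cs).mp ht
    omega

/-- associativity -/
theorem mx_assoc {u v : W} (huv : cs.length (u * v) = cs.length u + cs.length v) (w : W) :
    mx cs u (al cs v w) = v * mx cs (u * v) w := by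
  obtain ⟨m, hm⟩ : ∃ m, m = mx cs (u * v) w := ⟨_, rfl⟩
  obtain ⟨w', hw'⟩ : ∃ w', w' = mx cs v w := ⟨_, rfl⟩
  have hmw : Pre cs m w := by rw [hm]; exact mx_pre cs _ _
  have hml : cs.length (u * v * m) = cs.length (u * v) + cs.length m := by rw [hm]; exact mx_len cs _ _
  have hvm : cs.length (v * m) = cs.length v + cs.length m := by
    have h1 := cs.length_mul_le u (v * m)
    have h2 := cs.length_mul_le v m
    rw [← mul_assoc] at h1
    omega
  have hmw' : Pre cs m w' := by rw [hw']; exact mx_max cs hmw hvm
  have hal : al cs v w = v * w' := by rw [hw']; rfl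
  have hall : cs.length (v * w') = cs.length v + cs.length w' := by rw [hw']; exact mx_len cs v w
  have hw'w : Pre cs w' w := by rw [hw']; exact mx_pre cs v w
  rw [hal, ← hm]
  refine mx_unique cs (pre_mul_left cs hall hmw').1 ?_ ?_
  · rw [← mul_assoc, hml, huv, hvm]
    ring
  · -- the greatest element is `v z'`
    obtain ⟨z, hz⟩ : ∃ z, z = mx cs u (v * w') := ⟨_, rfl⟩
    rw [← hz]
    have hzp : Pre cs z (v * w') := by rw [hz]; exact mx_pre cs _ _
    have hzl : cs.length (u * z) = cs.length u + cs.length z := by rw [hz]; exact mx_len cs _ _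
    have hvz : Pre cs v z := by
      rw [hz]
      exact mx_max cs (pre_mul cs hall) huv
    obtain ⟨x, hx⟩ : ∃ x, x = v⁻¹ * z := ⟨_, rfl⟩
    have hzx : z = v * x := by rw [hx, mul_inv_cancel_left]
    have lx : cs.length (v * x) = cs.length v + cs.length x := by
      unfold Pre at hvz
      rw [← hx, hzx] at hvz
      exact hvz.symm
    have hxw' : Pre cs x w' := by
      refine pre_cancel cs lx hall ?_
      rw [← hzx]; exact hzp
    have hxm : Pre cs x m := by
      rw [hm]
      refine mx_max cs (hxw'.trans cs hw'w) ?_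
      rw [mul_assoc, ← hzx, hzl, huv, hzx, lx]
      ring
    rw [hzx]
    exact (pre_mul_left cs hvm hxm).1

theorem al_assoc {u v : W} (huv : cs.length (u * v) = cs.length u + cs.length v) (w : W) :
    al cs u (al cs v w) = al cs (u * v) w := by
  unfold al
  have h := mx_assoc cs huv w
  unfold al at h
  rw [h, mul_assoc]

theorem om_assoc {u v : W} (huv : cs.length (u * v) = cs.length u + cs.length v) (w : W) :
    om cs u (al cs v w) * om cs v w = om cs (u * v) w ∧
      cs.length (om cs u (al cs v w) * om cs v w) = cs.length (om cs u (al cs v w)) + cs.length (om cs v w) := by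
  have h := mx_assoc cs huv w
  have e : om cs u (al cs v w) * om cs v w = om cs (u * v) w := by
    unfold om
    rw [h]
    unfold al
    group
  refine ⟨e, ?_⟩
  rw [e]
  have l1 := om_len cs u (al cs v w)
  have l2 := om_len cs v w
  have l3 := om_len cs (u * v) w
  have l4 := al_len cs v w
  have l5 := mx_len cs u (al cs v w)
  have l6 := mx_len cs (u * v) w
  have l7 : cs.length (v * mx cs (u * v) w) = cs.length v + cs.length (mx cs (u * v) w) := by
    have h1 := cs.length_mul_le u (v * mx cs (u * v) w)
    have h2 := cs.length_mul_le v (mx cs (u * v) w)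
    rw [← mul_assoc] at h1
    omega
  rw [h, l7] at l1
  omega

end Pool.Agent.H77AR
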