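import Pool.Agent.H77AR.N1

/-!
# Normal lists
-/

set_option autoImplicit false
set_option linter.unusedSectionVars false

namespace Pool.Agent.H77AR

open CoxeterSystem Pool.Agent.Helper741

variable {B : Type} {M : CoxeterMatrix B} [Fintype B] [DecidableEq B] {W : Type} [Group W] (cs : CoxeterSystem M W)

open Classical in
/-- multiplication of a list of group elements by an element, on the left -/
noncomputable def mN (u : W) : List W → List W
  | [] => if u = 1 then [] else [u]
  | w :: l => al cs u w :: mN (om cs u w) l

theorem mN_nil_one : mN cs 1 [] = [] := by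
  unfold mN
  rw [if_pos rfl]

theorem mN_nil {u : W} (h : u ≠ 1) : mN cs u [] = [u] := by
  unfold mN
  rw [if_neg h]

theorem mN_cons (u w : W) (l : List W) : mN cs u (w :: l) = al cs u w :: mN cs (om cs u w) l := rfl

theorem mx_red {u v : W} (h : cs.length (u * v) = cs.length u + cs.length v) : mx cs u v = v :=
  mx_unique cs (pre_refl cs v) h (mx_pre cs u v)

theorem mN_one (l : List W) : mN cs 1 l = l := by
  induction l with
  | nil => exact mN_nil_one cs
  | cons w l ih =>
    have h : mx cs 1 w = w := mx_red cs (by rw [one_mul, cs.length_one, zero_add])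
    rw [mN_cons]
    unfold al om
    rw [h, one_mul, inv_mul_cancel, ih]

theorem mN_mul (l : List W) : ∀ {u v : W}, cs.length (u * v) = cs.length u + cs.length v →
    mN cs u (mN cs v l) = mN cs (u * v) l := by
  induction l with
  | nil =>
    intro u v huv
    by_cases hv : v = 1
    · rw [hv, mN_nil_one, mul_one]
    · rw [mN_nil cs hv, mN_cons]
      have h := mx_red cs huv
      have huv1 : u * v ≠ 1 := by
        intro h1
        rw [h1, cs.length_one] at huv
        apply hv
        rw [← cs.length_eq_zero_iff]
        omega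
      unfold al om
      rw [h, inv_mul_cancel, mN_nil_one, mN_nil cs huv1]
  | cons w l ih =>
    intro u v huv
    obtain ⟨e, he⟩ := om_assoc cs huv w
    rw [mN_cons, mN_cons, mN_cons, al_assoc cs huv, ih he, e]

/-- normal lists with entries in the parabolic subgroup -/
def Nrm (K : Finset B) : List W → Prop
  | [] => True
  | w :: l => w ≠ 1 ∧ w ∈ para cs K ∧ (∀ w2 ∈ l.head?, Gr cs w w2) ∧ Nrm K l

theorem om_para {K : Finset B} {u w : W} (hw : w ∈ para cs K) : om cs u w ∈ para cs K := by
  have h := mx_om cs u w
  have h1 := pre_para cs (mx_pre cs u w) hw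
  unfold om
  exact mul_mem (inv_mem h1) hw

theorem al_para {K : Finset B} {u w : W} (hu : u ∈ para cs K) (hw : w ∈ para cs K) : al cs u w ∈ para cs K :=
  mul_mem hu (pre_para cs (mx_pre cs u w) hw)

theorem al_ne {u w : W} (hw : w ≠ 1) : al cs u w ≠ 1 := by
  intro h
  have h1 := al_len cs u w
  rw [h, cs.length_one] at h1
  have h2 : u = 1 := by rw [← cs.length_eq_zero_iff]; omega
  have h3 : mx cs u w = 1 := by rw [← cs.length_eq_zero_iff]; omega
  rw [h2, mx_red cs (by rw [one_mul, cs.length_one, zero_add])] at h3
  exact hw h3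

theorem mN_nrm {K : Finset B} (l : List W) : ∀ {u : W}, u ∈ para cs K → Nrm cs K l → Nrm cs K (mN cs u l) := by
  induction l with
  | nil =>
    intro u hu _
    by_cases h : u = 1
    · rw [h, mN_nil_one]; trivial
    · rw [mN_nil cs h]
      exact ⟨h, hu, by intro w2 hw2; simp at hw2, trivial⟩
  | cons w l ih =>
    intro u hu hl
    obtain ⟨h1, h2, h3, h4⟩ := hl
    rw [mN_cons]
    refine ⟨al_ne cs h1, al_para cs hu h2, ?_, ih (om_para cs h2) h4⟩
    intro w2 hw2
    cases l with
    | nil =>
      by_cases h : om cs u w = 1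
      · rw [h, mN_nil_one] at hw2
        simp at hw2
      · rw [mN_nil cs h] at hw2
        simp at hw2
        rw [← hw2]
        exact gr_al_om cs u w
    | cons w' l' =>
      rw [mN_cons] at hw2
      simp at hw2
      rw [← hw2]
      exact gr_next cs (h3 w' (by simp)) u

theorem mN_self {K : Finset B} : ∀ (l : List W) {w : W}, Nrm cs K (w :: l) → mN cs w l = w :: l := by
  intro l
  induction l with
  | nil =>
    intro w h
    exact mN_nil cs h.1
  | cons w2 l ih =>
    intro w h
    have h1 := h.2.2.1 w2 (by simp)
    rw [mN_cons, h1.al, h1.om, ih h.2.2.2]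

theorem mN_head {u : W} (hu : u ≠ 1) (l : List W) : ∃ w l', mN cs u l = w :: l' ∧ Pre cs u w := by
  cases l with
  | nil => exact ⟨u, [], mN_nil cs hu, pre_refl cs u⟩
  | cons w l => exact ⟨_, _, mN_cons cs u w l, pre_mul cs (mx_len cs u w)⟩

/-- the product of the lifts -/
noncomputable def prL : List W → Artin M
  | [] => 1
  | w :: l => sec cs w * prL l

theorem sec_one : sec cs (1 : W) = 1 := by
  have := sec_eq cs [] (by simp [CoxeterSystem.IsReduced])
  simpa using this

theorem prL_mN (l : List W) : ∀ u : W, prL cs (mN cs u l) = sec cs u * prL cs l := by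
  induction l with
  | nil =>
    intro u
    by_cases h : u = 1
    · rw [h, mN_nil_one, sec_one, one_mul]
    · rw [mN_nil cs h]
      rfl
  | cons w l ih =>
    intro u
    rw [mN_cons]
    change sec cs (al cs u w) * prL cs (mN cs (om cs u w) l) = sec cs u * (sec cs w * prL cs l)
    rw [ih]
    have h1 : sec cs (al cs u w) = sec cs u * sec cs (mx cs u w) := sec_mul cs (mx_len cs u w)
    have h2 : sec cs w = sec cs (mx cs u w) * sec cs (om cs u w) := by
      rw [← sec_mul cs, mx_om]
      rw [mx_om]
      exact (om_len cs u w).symm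
    rw [h1, h2]
    simp only [mul_assoc]

/-! ### The longest element -/

variable {cs}

theorem IsTop.gr {K : Finset B} {D : W} (hD : IsTop cs K D) {w : W} (hw : w ∈ para cs K) : Gr cs D w := by
  intro s hs
  exact hD.desc s (desc_mem cs hw ((pre_simple cs).mp hs))

theorem IsTop.mN_eq {K : Finset B} {D : W} (hD : IsTop cs K D) (h1 : D ≠ 1) {l : List W} (hl : Nrm cs K l) :
    mN cs D l = D :: l := by
  cases l with
  | nil => exact mN_nil cs h1
  | cons w l =>
    have h2 := hD.gr hl.2.1
    rw [mN_cons, h2.al, h2.om, mN_self cs l hl]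

theorem IsTop.mx_simple {K : Finset B} {D : W} (hD : IsTop cs K D) {s : B} (hs : s ∈ K) :
    mx cs (cs.simple s) D = cs.simple s * D := by
  have h1 := hD.descL hs
  have h1' : cs.length (cs.simple s * D) + 1 = cs.length D := by
    rcases cs.length_simple_mul D s with h | h <;> omega
  obtain ⟨j, hj, hjs⟩ := hD.conj hs
  have hp : Pre cs (cs.simple s * D) D := by
    unfold Pre
    have e : (cs.simple s * D)⁻¹ * D = cs.simple j := by
      rw [← hjs, mul_inv_rev, cs.inv_simple, hD.inv_eq]
    rw [e, cs.length_simple]
    exact h1'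
  refine mx_unique cs hp ?_ ?_
  · rw [cs.simple_mul_simple_cancel_left, cs.length_simple]
    omega
  · have h2 := mx_max cs (u := cs.simple s) hp (by
      rw [cs.simple_mul_simple_cancel_left, cs.length_simple]
      omega)
    have h3 := mx_len cs (cs.simple s) D
    have h4 := mx_pre cs (cs.simple s) D
    -- the length of `mx` is less than the length of `D`
    have h5 : mx cs (cs.simple s) D = cs.simple s * D := by
      by_contra hne
      have h6 : mx cs (cs.simple s) D = D := by
        unfold Pre at h2 h4
        have h7 : cs.length ((cs.simple s * D)⁻¹ * mx cs (cs.simple s) D) ≠ 0 := by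
          intro h8
          rw [cs.length_eq_zero_iff, inv_mul_eq_one] at h8
          exact hne h8.symm
        have h8 : cs.length ((mx cs (cs.simple s) D)⁻¹ * D) = 0 := by omega
        rw [cs.length_eq_zero_iff, inv_mul_eq_one] at h8
        exact h8
      rw [h6, cs.length_simple] at h3
      omega
    rw [h5]
    exact pre_refl cs _

theorem IsTop.mN_simple {K : Finset B} {D : W} (hD : IsTop cs K D) {s : B} (hs : s ∈ K) (l : List W) :
    mN cs (cs.simple s) (D :: l) = D :: mN cs (D * cs.simple s * D) l := by
  rw [mN_cons]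
  unfold al om
  rw [hD.mx_simple hs, cs.simple_mul_simple_cancel_left, mul_inv_rev, cs.inv_simple, hD.inv_eq]

theorem IsTop.conj_conj {K : Finset B} {D : W} (hD : IsTop cs K D) (x : W) : D * (D * x * D) * D = x := by
  have h := hD.sq
  calc D * (D * x * D) * D = (D * D) * x * (D * D) := by simp only [mul_assoc]
    _ = x := by rw [h, one_mul, mul_one]

theorem IsTop.mN_two {K : Finset B} {D : W} (hD : IsTop cs K D) {s : B} (hs : s ∈ K) (l : List W) :
    mN cs (cs.simple s) (D :: D :: l) = D :: D :: mN cs (cs.simple s) l := by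
  obtain ⟨j, hj, hjs⟩ := hD.conj hs
  rw [hD.mN_simple hs, hjs, hD.mN_simple hj, ← hjs, hD.conj_conj]

theorem IsTop.mN_two' {K : Finset B} {D : W} (hD : IsTop cs K D) {u : W} (hu : u ∈ para cs K) (l : List W) :
    mN cs u (D :: D :: l) = D :: D :: mN cs u l := by
  obtain ⟨ω, h1, h2, h3⟩ := exists_jword cs hu
  rw [← h2]
  clear h2 hu
  induction ω generalizing l with
  | nil => rw [cs.wordProd_nil, mN_one, mN_one]
  | cons s ω ih =>
    have h4 := red_cons_len cs h1
    have h5 : cs.length (cs.simple s * cs.wordProd ω) = cs.length (cs.simple s) + cs.length (cs.wordProd ω) := by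
      rw [h4, cs.length_simple, add_comm]
    rw [cs.wordProd_cons, ← mN_mul cs _ h5, ← mN_mul cs _ h5,
      ih l (red_cons cs h1) (fun i hi => h3 i (List.mem_cons_of_mem _ hi)), hD.mN_two (h3 s List.mem_cons_self)]

end Pool.Agent.H77AR
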