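import Pool.Agent.H77AR.N2

/-!
# The positive elements of the parabolic subgroups of finite type
-/

set_option autoImplicit false
set_option linter.unusedSectionVars false

namespace Pool.Agent.H77AR

open CoxeterSystem Pool.Agent.Helper741

variable {B : Type} {M : CoxeterMatrix B} [Fintype B] [DecidableEq B] {W : Type} [Group W] (cs : CoxeterSystem M W)

/-- the type of normal lists -/
def NL (K : Finset B) : Type := {l : List W // Nrm cs K l}

/-- multiplication -/
noncomputable def mL {K : Finset B} (u : W) (hu : u ∈ para cs K) (l : NL cs K) : NL cs K :=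
  ⟨mN cs u l.1, mN_nrm cs l.1 hu l.2⟩

variable {cs}

theorem IsTop.nrm_cons {K : Finset B} {D : W} (hD : IsTop cs K D) (h1 : D ≠ 1) {l : List W} (hl : Nrm cs K l) :
    Nrm cs K (D :: l) := by
  rw [← hD.mN_eq h1 hl]
  exact mN_nrm cs l hD.mem hl

/-- multiplication by the square of the longest element -/
def zL {K : Finset B} {D : W} (hD : IsTop cs K D) (h1 : D ≠ 1) (l : NL cs K) : NL cs K :=
  ⟨D :: D :: l.1, hD.nrm_cons h1 (hD.nrm_cons h1 l.2)⟩

theorem zL_inj {K : Finset B} {D : W} (hD : IsTop cs K D) (h1 : D ≠ 1) : Function.Injective (zL hD h1) := by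
  intro l l' h
  have h2 := congrArg Subtype.val h
  unfold zL at h2
  simp only [List.cons.injEq, true_and] at h2
  exact Subtype.ext h2

theorem zL_mL {K : Finset B} {D : W} (hD : IsTop cs K D) (h1 : D ≠ 1) {u : W} (hu : u ∈ para cs K) (l : NL cs K) :
    zL hD h1 (mL cs u hu l) = mL cs u hu (zL hD h1 l) := by
  apply Subtype.ext
  exact (hD.mN_two' hu l.1).symm

theorem zL_iter_mL {K : Finset B} {D : W} (hD : IsTop cs K D) (h1 : D ≠ 1) {u : W} (hu : u ∈ para cs K) (n : ℕ)
    (l : NL cs K) : (zL hD h1)^[n] (mL cs u hu l) = mL cs u hu ((zL hD h1)^[n] l) := by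
  induction n with
  | zero => rfl
  | succ n ih => rw [Function.iterate_succ_apply', Function.iterate_succ_apply', ih, zL_mL]

/-- multiplication by `D² s⁻¹` -/
noncomputable def tL {K : Finset B} {D : W} (hD : IsTop cs K D) (h1 : D ≠ 1) {s : B} (hs : s ∈ K) (l : NL cs K) :
    NL cs K :=
  ⟨D :: mN cs (D * cs.simple s) l.1, hD.nrm_cons h1 (mN_nrm cs l.1 (mul_mem hD.mem (simple_mem_para cs hs)) l.2)⟩

theorem IsTop.len_simple {K : Finset B} {D : W} (hD : IsTop cs K D) {s : B} (hs : s ∈ K) :
    cs.length (D * cs.simple s) + 1 = cs.length D := by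
  have := hD.mul (simple_mem_para cs hs)
  rwa [cs.length_simple] at this

theorem tL_mL {K : Finset B} {D : W} (hD : IsTop cs K D) (h1 : D ≠ 1) {s : B} (hs : s ∈ K) (l : NL cs K) :
    tL hD h1 hs (mL cs (cs.simple s) (simple_mem_para cs hs) l) = zL hD h1 l := by
  apply Subtype.ext
  have h2 := hD.len_simple hs
  change D :: mN cs (D * cs.simple s) (mN cs (cs.simple s) l.1) = D :: D :: l.1
  rw [mN_mul cs, cs.simple_mul_simple_cancel_right, hD.mN_eq h1 l.2]
  rw [cs.simple_mul_simple_cancel_right, cs.length_simple, h2]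

theorem mL_tL {K : Finset B} {D : W} (hD : IsTop cs K D) (h1 : D ≠ 1) {s : B} (hs : s ∈ K) (l : NL cs K) :
    mL cs (cs.simple s) (simple_mem_para cs hs) (tL hD h1 hs l) = zL hD h1 l := by
  apply Subtype.ext
  obtain ⟨j, hj, hjs⟩ := hD.conj hs
  change mN cs (cs.simple s) (D :: mN cs (D * cs.simple s) l.1) = D :: D :: l.1
  rw [hD.mN_simple hs]
  have h2 := hD.len_simple hs
  have e : D * cs.simple s * D * (D * cs.simple s) = D := by
    have h3 := hD.sq
    calc D * cs.simple s * D * (D * cs.simple s) = D * cs.simple s * (D * D) * cs.simple s := by simp only [mul_assoc]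
      _ = D := by rw [h3, mul_one, cs.simple_mul_simple_cancel_right]
  rw [mN_mul cs, e, hD.mN_eq h1 l.2]
  rw [e, hjs, cs.length_simple]
  omega

theorem zL_tL {K : Finset B} {D : W} (hD : IsTop cs K D) (h1 : D ≠ 1) {s : B} (hs : s ∈ K) (l : NL cs K) :
    zL hD h1 (tL hD h1 hs l) = tL hD h1 hs (zL hD h1 l) := by
  apply Subtype.ext
  change D :: D :: D :: mN cs (D * cs.simple s) l.1 = D :: mN cs (D * cs.simple s) (D :: D :: l.1)
  rw [hD.mN_two' (mul_mem hD.mem (simple_mem_para cs hs))]

theorem zL_iter_tL {K : Finset B} {D : W} (hD : IsTop cs K D) (h1 : D ≠ 1) {s : B} (hs : s ∈ K) (n : ℕ)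
    (l : NL cs K) : (zL hD h1)^[n] (tL hD h1 hs l) = tL hD h1 hs ((zL hD h1)^[n] l) := by
  induction n with
  | zero => rfl
  | succ n ih => rw [Function.iterate_succ_apply', Function.iterate_succ_apply', ih, zL_tL]

/-- fractions -/
def frs {K : Finset B} {D : W} (hD : IsTop cs K D) (h1 : D ≠ 1) : Setoid (NL cs K × ℕ) where
  r p q := (zL hD h1)^[q.2] p.1 = (zL hD h1)^[p.2] q.1
  iseqv := {
    refl := fun _ => rfl
    symm := fun h => h.symm
    trans := by
      rintro ⟨l, a⟩ ⟨l', b⟩ ⟨l'', c⟩ h h'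
      simp only at h h' ⊢
      apply (zL_inj hD h1).iterate b
      rw [← Function.iterate_add_apply, ← Function.iterate_add_apply, add_comm b c, Function.iterate_add_apply, h,
        ← Function.iterate_add_apply, add_comm c a, Function.iterate_add_apply, h', ← Function.iterate_add_apply,
        add_comm a b] }

/-- the localization -/
def XL {K : Finset B} {D : W} (hD : IsTop cs K D) (h1 : D ≠ 1) : Type := Quotient (frs hD h1)

/-- the class of a normal list -/
def mkL {K : Finset B} {D : W} (hD : IsTop cs K D) (h1 : D ≠ 1) (l : NL cs K) (n : ℕ) : XL hD h1 :=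
  Quotient.mk (frs hD h1) (l, n)

theorem mkL_eq {K : Finset B} {D : W} (hD : IsTop cs K D) (h1 : D ≠ 1) {l l' : NL cs K} {n n' : ℕ} :
    mkL hD h1 l n = mkL hD h1 l' n' ↔ (zL hD h1)^[n'] l = (zL hD h1)^[n] l' := by
  unfold mkL
  exact ⟨fun h => Quotient.exact (s := frs hD h1) h, fun h => Quotient.sound (s := frs hD h1) h⟩

/-- the permutation of a generator -/
noncomputable def pmL {K : Finset B} {D : W} (hD : IsTop cs K D) (h1 : D ≠ 1) {s : B} (hs : s ∈ K) :
    Equiv.Perm (XL hD h1) where
  toFun := Quotient.map (sa := frs hD h1) (sb := frs hD h1)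
    (fun p => (mL cs (cs.simple s) (simple_mem_para cs hs) p.1, p.2)) (by
      rintro ⟨l, a⟩ ⟨l', b⟩ h
      change (zL hD h1)^[b] l = (zL hD h1)^[a] l' at h
      change (zL hD h1)^[b] (mL cs _ (simple_mem_para cs hs) l) = (zL hD h1)^[a] (mL cs _ (simple_mem_para cs hs) l')
      rw [zL_iter_mL, zL_iter_mL, h])
  invFun := Quotient.map (sa := frs hD h1) (sb := frs hD h1) (fun p => (tL hD h1 hs p.1, p.2 + 1)) (by
      rintro ⟨l, a⟩ ⟨l', b⟩ h
      change (zL hD h1)^[b] l = (zL hD h1)^[a] l' at h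
      change (zL hD h1)^[b + 1] (tL hD h1 hs l) = (zL hD h1)^[a + 1] (tL hD h1 hs l')
      rw [Function.iterate_succ_apply', Function.iterate_succ_apply', zL_iter_tL, zL_iter_tL, h])
  left_inv x := by
    induction x using Quotient.inductionOn with
    | _ p =>
      obtain ⟨l, a⟩ := p
      rw [Quotient.map_mk, Quotient.map_mk]
      refine Quotient.sound ?_
      change (zL hD h1)^[a] (tL hD h1 hs (mL cs _ (simple_mem_para cs hs) l)) = (zL hD h1)^[a + 1] l
      rw [tL_mL, ← Function.iterate_succ_apply]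
  right_inv x := by
    induction x using Quotient.inductionOn with
    | _ p =>
      obtain ⟨l, a⟩ := p
      rw [Quotient.map_mk, Quotient.map_mk]
      refine Quotient.sound ?_
      change (zL hD h1)^[a] (mL cs _ (simple_mem_para cs hs) (tL hD h1 hs l)) = (zL hD h1)^[a + 1] l
      rw [mL_tL, ← Function.iterate_succ_apply]

open Classical in
/-- the function on the generators -/
noncomputable def fL {K : Finset B} {D : W} (hD : IsTop cs K D) (h1 : D ≠ 1) (s : B) : Equiv.Perm (XL hD h1) :=
  if hs : s ∈ K then pmL hD h1 hs else 1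

theorem fL_mk {K : Finset B} {D : W} (hD : IsTop cs K D) (h1 : D ≠ 1) {s : B} (hs : s ∈ K) (l : NL cs K) (n : ℕ) :
    fL hD h1 s (mkL hD h1 l n) = mkL hD h1 (mL cs (cs.simple s) (simple_mem_para cs hs) l) n := by
  unfold fL
  rw [dif_pos hs]
  rfl

theorem fL_word {K : Finset B} {D : W} (hD : IsTop cs K D) (h1 : D ≠ 1) (ω : List B) (hω : cs.IsReduced ω)
    (hK : ∀ i ∈ ω, i ∈ K) (l : NL cs K) (n : ℕ) :
    (ω.map (fL hD h1)).prod (mkL hD h1 l n) = mkL hD h1 (mL cs (cs.wordProd ω) (wordProd_mem_para cs ω hK) l) n := by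
  induction ω with
  | nil =>
    have : mL cs (cs.wordProd []) (wordProd_mem_para cs [] hK) l = l := by
      apply Subtype.ext
      change mN cs (cs.wordProd []) l.1 = l.1
      rw [cs.wordProd_nil, mN_one]
    rw [this]
    rfl
  | cons s ω ih =>
    rw [List.map_cons, List.prod_cons, Equiv.Perm.mul_apply,
      ih (red_cons cs hω) (fun i hi => hK i (List.mem_cons_of_mem _ hi)), fL_mk hD h1 (hK s List.mem_cons_self)]
    congr 1
    apply Subtype.ext
    change mN cs (cs.simple s) (mN cs (cs.wordProd ω) l.1) = mN cs (cs.wordProd (s :: ω)) l.1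
    rw [mN_mul cs, cs.wordProd_cons]
    rw [red_cons_len cs hω, cs.length_simple, add_comm]

theorem fL_rel {K : Finset B} {D : W} (hD : IsTop cs K D) (h1 : D ≠ 1) :
    ∀ i ∈ K, ∀ j ∈ K, alt (fL hD h1 i) (fL hD h1 j) (M i j) = alt (fL hD h1 j) (fL hD h1 i) (M i j) := by
  intro i hi j hj
  by_cases hij : i = j
  · rw [hij]
  · by_cases hm : M i j = 0
    · rw [hm, alt_zero, alt_zero]
    · have hK : ∀ x y : B, x ∈ K → y ∈ K → ∀ n, ∀ z ∈ aw x y n, z ∈ K := by
        intro x y hx hy n
        induction n generalizing x y with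
        | zero => intro z hz; simp [aw] at hz
        | succ n ih =>
          intro z hz
          rw [aw_succ] at hz
          rcases List.mem_cons.mp hz with rfl | hz
          · exact hx
          · exact ih y x hy hx z hz
      rw [← aw_prod, ← aw_prod]
      refine Equiv.ext fun x => ?_
      induction x using Quotient.inductionOn with
      | _ p =>
        obtain ⟨l, n⟩ := p
        have e1 := fL_word hD h1 (aw i j (M i j)) (isReduced_aw cs hij (Or.inr le_rfl)) (hK i j hi hj _) l n
        have e2 := fL_word hD h1 (aw j i (M i j)) (isReduced_aw cs (Ne.symm hij) (Or.inr (by rw [M.symmetric])))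
          (hK j i hj hi _) l n
        unfold mkL at e1 e2
        rw [e1, e2]
        congr 2
        apply Subtype.ext
        change mN cs (cs.wordProd (aw i j (M i j))) l.1 = mN cs (cs.wordProd (aw j i (M i j))) l.1
        rw [wordProd_aw, wordProd_aw, alt_comm_of_pow (cs.simple_mul_simple_self i) (cs.simple_mul_simple_self j)
          (cs.simple_mul_simple_pow i j)]

/-! ### Positive elements -/

/-- the positive elements in the generators of `K` -/
def PM (M : CoxeterMatrix B) (K : Finset B) : Submonoid (Artin M) := Submonoid.closure (Artin.gen M '' (K : Set B))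

theorem gen_mem_PM {K : Finset B} {s : B} (hs : s ∈ K) : Artin.gen M s ∈ PM M K := Submonoid.subset_closure ⟨s, hs, rfl⟩

theorem PM_AJ {K : Finset B} {x : Artin M} (hx : x ∈ PM M K) : x ∈ AJ M K := by
  unfold PM at hx
  induction hx using Submonoid.closure_induction with
  | mem x hx => exact Subgroup.subset_closure hx
  | one => exact one_mem _
  | mul x y _ _ hx hy => exact mul_mem hx hy

theorem PM_mono {K L : Finset B} (h : K ⊆ L) : PM M K ≤ PM M L :=
  Submonoid.closure_mono (Set.image_mono (Finset.coe_subset.mpr h))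

theorem sec_PM {K : Finset B} {w : W} (hw : w ∈ para cs K) : sec cs w ∈ PM M K := by
  obtain ⟨ω, h1, h2, h3⟩ := exists_jword cs hw
  rw [← h2, sec_eq cs ω h1]
  clear h1 h2
  induction ω with
  | nil => simp
  | cons i ω ih =>
    rw [List.map_cons, List.prod_cons]
    exact mul_mem (gen_mem_PM (h3 i List.mem_cons_self)) (ih fun j hj => h3 j (List.mem_cons_of_mem _ hj))

theorem prL_PM {K : Finset B} : ∀ l : List W, Nrm cs K l → prL cs l ∈ PM M K := by
  intro l
  induction l with
  | nil => intro _; exact one_mem _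
  | cons w l ih => intro h; exact mul_mem (sec_PM h.2.1) (ih h.2.2.2)

/-- the empty list -/
def nilL (K : Finset B) : NL cs K := ⟨[], trivial⟩

theorem exists_nf {K : Finset B} {D : W} (hD : IsTop cs K D) (h1 : D ≠ 1) (F : AJ M K →* Equiv.Perm (XL hD h1))
    (hF : ∀ x : AJ M K, ∀ i ∈ K, (x : Artin M) = Artin.gen M i → F x = fL hD h1 i) {y : Artin M} (hy : y ∈ PM M K) :
    ∃ l : NL cs K, prL cs l.1 = y ∧ F ⟨y, PM_AJ hy⟩ (mkL hD h1 (nilL K) 0) = mkL hD h1 l 0 := by
  have key : ∀ y ∈ PM M K, ∀ l0 : NL cs K, ∃ l : NL cs K, prL cs l.1 = y * prL cs l0.1 ∧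
      ∀ hy : y ∈ AJ M K, F ⟨y, hy⟩ (mkL hD h1 l0 0) = mkL hD h1 l 0 := by
    intro y hy
    unfold PM at hy
    induction hy using Submonoid.closure_induction with
    | mem x hx =>
      intro l0
      obtain ⟨s, hs, rfl⟩ := hx
      refine ⟨mL cs (cs.simple s) (simple_mem_para cs hs) l0, ?_, fun hy => ?_⟩
      · change prL cs (mN cs (cs.simple s) l0.1) = _
        rw [prL_mN]
        congr 1
        have := sec_eq cs [s] (by
          unfold CoxeterSystem.IsReduced
          rw [cs.wordProd_singleton, cs.length_simple]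
          rfl)
        simpa using this
      · rw [hF _ s hs rfl, fL_mk hD h1 hs]
    | one =>
      intro l0
      refine ⟨l0, by rw [one_mul], fun hy => ?_⟩
      have : (⟨1, hy⟩ : AJ M K) = 1 := rfl
      rw [this, map_one, Equiv.Perm.one_apply]
    | mul x y hx' hy' hx hy =>
      intro l0
      obtain ⟨l1, e1, g1⟩ := hy l0
      obtain ⟨l2, e2, g2⟩ := hx l1
      refine ⟨l2, by rw [e2, e1, mul_assoc], fun hxy => ?_⟩
      have hxA : x ∈ AJ M K := PM_AJ hx'
      have hyA : y ∈ AJ M K := PM_AJ hy'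
      have : (⟨x * y, hxy⟩ : AJ M K) = ⟨x, hxA⟩ * ⟨y, hyA⟩ := rfl
      rw [this, map_mul, Equiv.Perm.mul_apply, g1, g2]
  obtain ⟨l, e, g⟩ := key y hy (nilL K)
  refine ⟨l, ?_, g _⟩
  rw [e]
  exact mul_one _

/-- If `s` divides `y` on the left in the positive monoid for all `s` in `σ`, then the Garside element of `σ` divides
`y` on the left. -/
theorem left_lcm {K : Finset B} (hK : Sph cs K) {y : Artin M} (hy : y ∈ PM M K) {σ : Finset B} (hσ : σ ⊆ K)
    (h : ∀ s ∈ σ, (Artin.gen M s)⁻¹ * y ∈ PM M K) {Dσ : W} (hDσ : IsTop cs σ Dσ) :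
    (sec cs Dσ)⁻¹ * y ∈ PM M K := by
  rcases σ.eq_empty_or_nonempty with h0 | ⟨s0, hs0⟩
  · have h1 : Dσ = 1 := by
      have h2 := hDσ.mem
      rw [h0, para_empty] at h2
      exact Subgroup.mem_bot.mp h2
    rw [h1, sec_one, inv_one, one_mul]
    exact hy
  · have hfin : Finite (para cs K) := Set.Finite.to_subtype (s := (para cs K : Set W)) hK
    obtain ⟨D, hD⟩ := exists_top (cs := cs) K
    have h1 : D ≠ 1 := by
      intro h1
      have h2 := hD.desc s0 (hσ hs0)
      rw [h1, one_mul, cs.length_one] at h2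
      omega
    obtain ⟨F, hF⟩ := exists_hom (M := M) (fL hD h1) (fL_rel hD h1)
    obtain ⟨l, hl, hFl⟩ := exists_nf hD h1 F hF hy
    have hhead : ∀ s ∈ σ, ∃ w l', l.1 = w :: l' ∧ Pre cs (cs.simple s) w := by
      intro s hs
      obtain ⟨ls, hls, hFls⟩ := exists_nf hD h1 F hF (h s hs)
      have e1 : (⟨y, PM_AJ hy⟩ : AJ M K) = ⟨Artin.gen M s, PM_AJ (gen_mem_PM (hσ hs))⟩ *
          ⟨(Artin.gen M s)⁻¹ * y, PM_AJ (h s hs)⟩ := by
        apply Subtype.ext
        change y = Artin.gen M s * ((Artin.gen M s)⁻¹ * y)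
        rw [mul_inv_cancel_left]
      rw [e1, map_mul, Equiv.Perm.mul_apply, hFls, hF _ s (hσ hs) rfl, fL_mk hD h1 (hσ hs), mkL_eq] at hFl
      have e2 : l.1 = mN cs (cs.simple s) ls.1 := congrArg Subtype.val hFl.symm
      rw [e2]
      refine mN_head cs ?_ _
      intro h3
      have := cs.length_simple s
      rw [h3, cs.length_one] at this
      omega
    obtain ⟨w, l', hw, _⟩ := hhead s0 hs0
    have hall : ∀ s ∈ σ, Pre cs (cs.simple s) w := by
      intro s hs
      obtain ⟨w', l'', hw', h2⟩ := hhead s hs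
      rw [hw] at hw'
      rw [(List.cons.inj hw').1]
      exact h2
    obtain ⟨_, x, hx, hxw⟩ := desc_top cs hall
    have hxD := hx.unique hDσ
    rw [hxD] at hxw
    have hn := l.2
    rw [hw] at hn
    have e3 : sec cs w = sec cs Dσ * sec cs (Dσ⁻¹ * w) := by
      rw [← sec_mul cs, mul_inv_cancel_left]
      rw [mul_inv_cancel_left]
      exact hxw.symm
    rw [← hl, hw]
    change (sec cs Dσ)⁻¹ * (sec cs w * prL cs l') ∈ PM M K
    rw [e3, mul_assoc, inv_mul_cancel_left]
    refine mul_mem (sec_PM ?_) (prL_PM l' hn.2.2.2)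
    exact mul_mem (inv_mem (para_mono cs hσ hDσ.mem)) hn.2.1

end Pool.Agent.H77AR
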