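import Pool.Agent.H77AR.N3

/-!
# Right divisors, fractions and the good region
-/

set_option autoImplicit false
set_option linter.unusedSectionVars false

namespace Pool.Agent.H77AR

open CoxeterSystem Pool.Agent.Helper741

variable {B : Type} {M : CoxeterMatrix B} [Fintype B] [DecidableEq B] {W : Type} [Group W] (cs : CoxeterSystem M W)

theorem alt_op {G : Type} [Monoid G] (a b : G) (m : ℕ) :
    MulOpposite.unop (alt (MulOpposite.op a) (MulOpposite.op b) m) = if Even m then alt b a m else alt a b m := by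
  induction m with
  | zero => simp
  | succ m ih =>
    rw [alt_succ', MulOpposite.unop_mul, ih]
    rcases Nat.even_or_odd m with h | h
    · rw [if_pos h, if_pos h, if_neg (by rw [Nat.even_add_one]; simpa using h), MulOpposite.unop_op, alt_succ]
    · have h' : ¬ Even m := by simpa using h
      rw [if_neg h', if_neg h', if_pos (by rw [Nat.even_add_one]; exact h'), MulOpposite.unop_op, alt_succ]

/-- the anti-automorphism -/
def rev (M : CoxeterMatrix B) : Artin M →* (Artin M)ᵐᵒᵖ :=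
  Artin.lift (fun i => MulOpposite.op (Artin.gen M i)) (fun i j => by
    apply MulOpposite.unop_injective
    rw [alt_op, alt_op]
    have h := Artin.rel (M := M) i j
    split_ifs
    · exact h.symm
    · exact h)

/-- the anti-automorphism, as a function -/
def ta (x : Artin M) : Artin M := MulOpposite.unop (rev M x)

theorem ta_mul (x y : Artin M) : ta (x * y) = ta y * ta x := by
  unfold ta
  rw [map_mul, MulOpposite.unop_mul]

theorem ta_one : ta (1 : Artin M) = 1 := by
  unfold ta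
  rw [map_one, MulOpposite.unop_one]

theorem ta_inv (x : Artin M) : ta x⁻¹ = (ta x)⁻¹ := by
  unfold ta
  rw [map_inv, MulOpposite.unop_inv]

theorem ta_gen (i : B) : ta (Artin.gen M i) = Artin.gen M i := by
  unfold ta rev
  rw [Artin.lift_gen, MulOpposite.unop_op]

theorem ta_ta (x : Artin M) : ta (ta x) = x := by
  induction x using Artin.induction with
  | one => rw [ta_one, ta_one]
  | gen i => rw [ta_gen, ta_gen]
  | mul x y hx hy => rw [ta_mul, ta_mul, hx, hy]
  | inv x hx => rw [ta_inv, ta_inv, hx]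

theorem ta_PM {K : Finset B} {x : Artin M} (hx : x ∈ PM M K) : ta x ∈ PM M K := by
  unfold PM at hx
  induction hx using Submonoid.closure_induction with
  | mem x hx =>
    obtain ⟨i, hi, rfl⟩ := hx
    rw [ta_gen]
    exact gen_mem_PM hi
  | one => rw [ta_one]; exact one_mem _
  | mul x y _ _ hx hy => rw [ta_mul]; exact mul_mem hy hx

theorem ta_sec (w : W) : ta (sec cs w) = sec cs w⁻¹ := by
  have h1 : ∀ ω : List B, ta ((ω.map (Artin.gen M)).prod) = ((ω.reverse.map (Artin.gen M)).prod) := by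
    intro ω
    induction ω with
    | nil => simp [ta_one]
    | cons i ω ih =>
      rw [List.map_cons, List.prod_cons, ta_mul, ih, ta_gen, List.reverse_cons, List.map_append, List.prod_append]
      simp
  have h2 : cs.IsReduced (rword cs w).reverse := by
    rw [cs.isReduced_reverse_iff]
    exact rword_reduced cs w
  have h3 := sec_eq cs _ h2
  rw [cs.wordProd_reverse, rword_prod] at h3
  rw [h3, ← h1]
  rfl

variable {cs}

/-- If `s` divides `y` on the right in the positive monoid for all `s` in `σ`, then the Garside element of `σ` divides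
`y` on the right. -/
theorem right_lcm {K : Finset B} (hK : Sph cs K) {y : Artin M} (hy : y ∈ PM M K) {σ : Finset B} (hσ : σ ⊆ K)
    (h : ∀ s ∈ σ, y * (Artin.gen M s)⁻¹ ∈ PM M K) {Dσ : W} (hDσ : IsTop cs σ Dσ) :
    y * (sec cs Dσ)⁻¹ ∈ PM M K := by
  have h1 := left_lcm hK (ta_PM hy) hσ (fun s hs => by
    have h2 := ta_PM (h s hs)
    rwa [ta_mul, ta_inv, ta_gen] at h2) hDσ
  have h2 := ta_PM h1
  rwa [ta_mul, ta_inv, ta_ta, ta_sec, hDσ.inv_eq] at h2

/-- the length homomorphism -/
noncomputable def lam (x : Artin M) : ℤ := Multiplicative.toAdd (lenHom M x)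

theorem lam_mul (x y : Artin M) : lam (x * y) = lam x + lam y := by
  unfold lam
  rw [map_mul, toAdd_mul]

theorem lam_inv (x : Artin M) : lam x⁻¹ = - lam x := by
  unfold lam
  rw [map_inv, toAdd_inv]

theorem lam_sec (w : W) : lam (sec cs w) = cs.length w := by
  unfold lam
  rw [lenHom_sec, toAdd_ofAdd]

theorem lam_PM {K : Finset B} {x : Artin M} (hx : x ∈ PM M K) : 0 ≤ lam x := by
  unfold PM at hx
  induction hx using Submonoid.closure_induction with
  | mem x hx =>
    obtain ⟨i, hi, rfl⟩ := hx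
    unfold lam
    rw [lenHom_gen, toAdd_ofAdd]
    norm_num
  | one => unfold lam; rw [map_one, toAdd_one]
  | mul x y _ _ hx hy => rw [lam_mul]; linarith

/-- fractions -/
theorem exists_frac {K : Finset B} {D : W} (hD : IsTop cs K D) {g : Artin M} (hg : g ∈ AJ M K) :
    ∃ N : ℕ, ∀ n ≥ N, (sec cs D * sec cs D) ^ n * g ∈ PM M K := by
  have hZ : sec cs D * sec cs D ∈ PM M K := mul_mem (sec_PM hD.mem) (sec_PM hD.mem)
  unfold AJ at hg
  induction hg using Subgroup.closure_induction_left with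
  | one => exact ⟨0, fun n _ => by rw [mul_one]; exact pow_mem hZ n⟩
  | mul_left x hx y hy ih =>
    obtain ⟨i, hi, rfl⟩ := hx
    obtain ⟨N, hN⟩ := ih
    refine ⟨N, fun n hn => ?_⟩
    have hc : Commute ((sec cs D * sec cs D) ^ n) (Artin.gen M i) := (hD.sq_comm hi).pow_left n
    rw [← mul_assoc, hc.eq, mul_assoc]
    exact mul_mem (gen_mem_PM hi) (hN n hn)
  | inv_mul_cancel x hx y hy ih =>
    obtain ⟨i, hi, rfl⟩ := hx
    obtain ⟨N, hN⟩ := ih
    refine ⟨N + 1, fun n hn => ?_⟩
    obtain ⟨n', rfl⟩ : ∃ n', n = n' + 1 := ⟨n - 1, by omega⟩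
    have hc : Commute ((sec cs D * sec cs D) ^ n') (Artin.gen M i)⁻¹ := ((hD.sq_comm hi).pow_left n').inv_right
    have e1 : sec cs D = sec cs (D * cs.simple i) * Artin.gen M i := by
      have h2 := sec_mul_simple cs (D * cs.simple i) i (by
        rw [cs.simple_mul_simple_cancel_right]
        exact hD.desc i hi)
      rwa [cs.simple_mul_simple_cancel_right] at h2
    have e2 : sec cs D * sec cs D * (Artin.gen M i)⁻¹ = sec cs D * sec cs (D * cs.simple i) := by
      rw [mul_assoc]
      conv_lhs => rw [e1]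
      rw [mul_assoc _ (Artin.gen M i), ← e1]
      have h3 : sec cs D * (Artin.gen M i)⁻¹ = sec cs (D * cs.simple i) := by
        rw [mul_inv_eq_iff_eq_mul]; exact e1
      rw [h3, ← mul_assoc, ← e1]
    have e3 : ∀ Z : Artin M, Commute (Z ^ n') (Artin.gen M i)⁻¹ →
        Z ^ (n' + 1) * ((Artin.gen M i)⁻¹ * y) = Z * (Artin.gen M i)⁻¹ * (Z ^ n' * y) := by
      intro Z hc
      calc Z ^ (n' + 1) * ((Artin.gen M i)⁻¹ * y) = Z * (Z ^ n' * (Artin.gen M i)⁻¹) * y := by
            rw [pow_succ']; simp only [mul_assoc]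
        _ = Z * ((Artin.gen M i)⁻¹ * Z ^ n') * y := by rw [hc.eq]
        _ = Z * (Artin.gen M i)⁻¹ * (Z ^ n' * y) := by simp only [mul_assoc]
    rw [e3 _ hc, e2]
    exact mul_mem (mul_mem (sec_PM hD.mem) (sec_PM (mul_mem hD.mem (simple_mem_para cs hi)))) (hN n' (by omega))

/-- A good region: it contains a given finite set, the level is nonnegative on it, it is stable under right
multiplication by positive elements, and the right least common multiples exist in it. -/
theorem exists_region {K : Finset B} (hK : Sph cs K) (S : Finset (Artin M)) :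
    ∃ (G : Set (Artin M)) (mu : Artin M → ℤ), (∀ x ∈ S, x ∈ G) ∧ (∀ x ∈ G, 0 ≤ mu x) ∧
      (∀ x, ∀ g ∈ AJ M K, mu (x * g) = mu x + lam g) ∧ (∀ x ∈ G, ∀ g ∈ PM M K, x * g ∈ G) ∧
      (∀ y ∈ G, ∀ σ ⊆ K, (∀ s ∈ σ, y * (Artin.gen M s)⁻¹ ∈ G) → ∀ Dσ, IsTop cs σ Dσ → y * (sec cs Dσ)⁻¹ ∈ G) := by
  classical
  have hfin : Finite (para cs K) := Set.Finite.to_subtype (s := (para cs K : Set W)) hK
  obtain ⟨D, hD⟩ := exists_top (cs := cs) K
  obtain ⟨Z, hZ⟩ : ∃ Z, Z = sec cs D * sec cs D := ⟨_, rfl⟩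
  have hZA : Z ∈ AJ M K := by
    rw [hZ]; exact mul_mem (sec_mem cs hD.mem) (sec_mem cs hD.mem)
  -- representatives
  obtain ⟨r, hr⟩ : ∃ r : Artin M → Artin M, r = fun y => (QuotientGroup.mk y : Artin M ⧸ AJ M K).out := ⟨_, rfl⟩
  have hr1 : ∀ y, ∀ g ∈ AJ M K, r (y * g) = r y := by
    intro y g hg
    rw [hr]
    simp only
    congr 1
    rw [QuotientGroup.eq]
    have : (y * g)⁻¹ * y = g⁻¹ := by group
    rw [this]
    exact inv_mem hg
  have hr2 : ∀ y, (r y)⁻¹ * y ∈ AJ M K := by
    intro y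
    rw [hr]
    simp only
    rw [← QuotientGroup.eq]
    exact QuotientGroup.out_eq' _
  have hN : ∃ N : ℕ, ∀ x ∈ S, Z ^ N * ((r x)⁻¹ * x) ∈ PM M K := by
    induction S using Finset.induction_on with
    | empty => exact ⟨0, fun x hx => absurd hx (Finset.notMem_empty x)⟩
    | insert a S ha ih =>
      obtain ⟨N1, h1⟩ := ih
      obtain ⟨N2, h2⟩ := exists_frac hD (hr2 a)
      rw [← hZ] at h2
      refine ⟨N1 + N2, fun x hx => ?_⟩
      rcases Finset.mem_insert.mp hx with rfl | hx
      · exact h2 _ (Nat.le_add_left _ _)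
      · rw [add_comm, pow_add, mul_assoc]
        refine mul_mem (pow_mem ?_ _) (h1 x hx)
        rw [hZ]
        exact mul_mem (sec_PM hD.mem) (sec_PM hD.mem)
  obtain ⟨N, hN⟩ := hN
  -- base points
  obtain ⟨b, hb⟩ : ∃ b : Artin M → Artin M, b = fun y => r y * (Z ^ N)⁻¹ := ⟨_, rfl⟩
  have hb1 : ∀ y, ∀ g ∈ AJ M K, b (y * g) = b y := by
    intro y g hg
    rw [hb]
    simp only
    rw [hr1 y g hg]
  refine ⟨{y | (b y)⁻¹ * y ∈ PM M K}, fun y => lam ((b y)⁻¹ * y), ?_, ?_, ?_, ?_, ?_⟩
  · intro x hx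
    have h1 := hN x hx
    change (b x)⁻¹ * x ∈ PM M K
    rw [hb]
    simp only [mul_inv_rev, inv_inv]
    rwa [mul_assoc]
  · intro x hx
    exact lam_PM hx
  · intro x g hg
    simp only
    rw [hb1 x g hg, ← mul_assoc, lam_mul]
  · intro x hx g hg
    change (b (x * g))⁻¹ * (x * g) ∈ PM M K
    rw [hb1 x g (PM_AJ hg), ← mul_assoc]
    exact mul_mem hx hg
  · intro y hy σ hσ h Dσ hDσ
    have hDA : (sec cs Dσ)⁻¹ ∈ AJ M K := inv_mem (sec_mem cs (para_mono cs hσ hDσ.mem))
    change (b (y * (sec cs Dσ)⁻¹))⁻¹ * (y * (sec cs Dσ)⁻¹) ∈ PM M K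
    rw [hb1 y _ hDA, ← mul_assoc]
    refine right_lcm hK hy hσ (fun s hs => ?_) hDσ
    have h1 := h s hs
    change (b (y * (Artin.gen M s)⁻¹))⁻¹ * (y * (Artin.gen M s)⁻¹) ∈ PM M K at h1
    rwa [hb1 y _ (inv_mem (PM_AJ (gen_mem_PM (hσ hs)))), ← mul_assoc] at h1

end Pool.Agent.H77AR
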