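import Pool.Agent.Helper741.Garside

/-!
# Standard parabolic subgroups of Coxeter groups
-/

set_option autoImplicit false
set_option linter.unusedSectionVars false

namespace Pool.Agent.H77AR

open CoxeterSystem Pool.Agent.Helper741

variable {B : Type} {M : CoxeterMatrix B} [Fintype B] [DecidableEq B] {W : Type} [Group W] (cs : CoxeterSystem M W)

/-- the standard parabolic subgroup -/
def para (J : Finset B) : Subgroup W := Subgroup.closure (cs.simple '' (J : Set B))

theorem simple_mem_para {J : Finset B} {i : B} (hi : i ∈ J) : cs.simple i ∈ para cs J :=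
  Subgroup.subset_closure ⟨i, hi, rfl⟩

theorem para_mono {J K : Finset B} (h : J ⊆ K) : para cs J ≤ para cs K :=
  Subgroup.closure_mono (Set.image_mono (Finset.coe_subset.mpr h))

theorem geo_para {J : Finset B} {w : W} (hw : w ∈ para cs J) (v : B → ℝ) {k : B} (hk : k ∉ J) :
    geo cs w v k = v k := by
  unfold para at hw
  induction hw using Subgroup.closure_induction generalizing v with
  | mem x hx =>
    obtain ⟨i, hi, rfl⟩ := hx
    have hik : k ≠ i := fun h => hk (by rw [h]; exact hi)
    rw [geo_simple, sg_apply]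
    simp [ee, Pi.single_apply, hik]
  | one => simp
  | mul x y _ _ hx hy =>
    rw [map_mul, Module.End.mul_apply, hx, hy]
  | inv x _ hx =>
    have := hx (geo cs x⁻¹ v)
    rw [geo_apply_inv] at this
    exact this.symm

theorem simple_mem_iff {J : Finset B} {i : B} : cs.simple i ∈ para cs J ↔ i ∈ J := by
  refine ⟨fun h => ?_, simple_mem_para cs⟩
  by_contra hi
  have h1 := geo_para cs h (ee i) hi
  rw [geo_simple, sg_ee_self] at h1
  simp [ee] at h1
  norm_num at h1

theorem wordProd_mem_para {J : Finset B} (ω : List B) (h : ∀ i ∈ ω, i ∈ J) : cs.wordProd ω ∈ para cs J := by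
  induction ω with
  | nil => simp
  | cons i ω ih =>
    rw [cs.wordProd_cons]
    exact mul_mem (simple_mem_para cs (h i List.mem_cons_self)) (ih fun j hj => h j (List.mem_cons_of_mem _ hj))

/-- every element of a parabolic subgroup has a reduced word in the generators of the subgroup -/
theorem exists_jword {J : Finset B} {w : W} (hw : w ∈ para cs J) :
    ∃ ω : List B, cs.IsReduced ω ∧ cs.wordProd ω = w ∧ ∀ i ∈ ω, i ∈ J := by
  have step : ∀ (i : B) (y : W), i ∈ J → (∃ ω : List B, cs.IsReduced ω ∧ cs.wordProd ω = y ∧ ∀ i ∈ ω, i ∈ J) →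
      ∃ ω : List B, cs.IsReduced ω ∧ cs.wordProd ω = cs.simple i * y ∧ ∀ i ∈ ω, i ∈ J := by
    rintro i y hi ⟨ω, h1, h2, h3⟩
    rcases cs.length_simple_mul y i with h4 | h4
    · refine ⟨i :: ω, ?_, by rw [cs.wordProd_cons, h2], ?_⟩
      · unfold CoxeterSystem.IsReduced
        rw [cs.wordProd_cons, h2, h4, List.length_cons, ← h1.eq, h2]
      · intro j hj
        rcases List.mem_cons.mp hj with rfl | hj
        · exact hi
        · exact h3 j hj
    · obtain ⟨j, hj, hje⟩ := exchange cs ω i (by rw [h2]; omega)
      refine ⟨ω.eraseIdx j, ?_, by rw [← hje, h2], fun k hk => h3 k (List.mem_of_mem_eraseIdx hk)⟩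
      unfold CoxeterSystem.IsReduced
      have h5 := List.length_eraseIdx_add_one hj
      have h6 := h1.eq
      rw [← hje, h2]
      rw [h2] at h6
      omega
  unfold para at hw
  induction hw using Subgroup.closure_induction_left with
  | one => exact ⟨[], by simp [CoxeterSystem.IsReduced], by simp, by simp⟩
  | mul_left x hx y _ ih =>
    obtain ⟨i, hi, rfl⟩ := hx
    exact step i y hi ih
  | inv_mul_cancel x hx y _ ih =>
    obtain ⟨i, hi, rfl⟩ := hx
    rw [cs.inv_simple]
    exact step i y hi ih

/-- the image of a simple root of `J` under an element of `W_J` which makes it longer is a nonnegative combination of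
simple roots of `J` -/
theorem geo_nonneg_para {J : Finset B} {u v : W} (hv : v ∈ para cs J) {i : B} (hi : i ∈ J)
    (hl : cs.length v < cs.length (v * cs.simple i)) (c : Module.End ℝ (B → ℝ)) (P : (B → ℝ) → Prop)
    (hP0 : P 0) (hPadd : ∀ x y, P x → P y → P (x + y)) (hPs : ∀ (r : ℝ) x, 0 ≤ r → P x → P (r • x))
    (hc : ∀ j ∈ J, P (c (ee j))) : P (c (geo cs v (ee i))) := by
  have h1 : geo cs v (ee i) = ∑ j ∈ J, (geo cs v (ee i) j) • (ee j : B → ℝ) := by
    funext k
    rw [Finset.sum_apply]
    by_cases hk : k ∈ J
    · rw [Finset.sum_eq_single k]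
      · simp [ee]
      · intro j _ hj
        simp [ee, Pi.single_apply, hj.symm]
      · intro h; exact absurd hk h
    · rw [Finset.sum_eq_zero]
      · rw [geo_para cs hv _ hk]
        have : k ≠ i := fun h => hk (by rw [h]; exact hi)
        simp [ee, Pi.single_apply, this]
      · intro j hj
        have : k ≠ j := fun h => hk (by rw [h]; exact hj)
        simp [ee, Pi.single_apply, this]
  have h2 : 0 ≤ geo cs v (ee i) := geo_nonneg cs v i hl
  rw [h1, map_sum]
  clear h1
  refine Finset.sum_induction _ P hPadd hP0 ?_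
  intro j hj
  rw [map_smul]
  exact hPs _ _ (h2 j) (hc j hj)

theorem len_add_word {J : Finset B} {u : W} (hu : ∀ j ∈ J, cs.length u < cs.length (u * cs.simple j))
    (ω : List B) (hω : cs.IsReduced ω) (hJ : ∀ i ∈ ω, i ∈ J) :
    cs.length (u * cs.wordProd ω) = cs.length u + ω.length := by
  induction ω using List.reverseRecOn with
  | nil => simp
  | append_singleton ω i ih =>
    have h1 : cs.IsReduced ω := by
      have := hω.take ω.length
      simpa using this
    have h2 := ih h1 (fun j hj => hJ j (by simp [hj]))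
    have hi : i ∈ J := hJ i (by simp)
    have hv : cs.wordProd ω ∈ para cs J := wordProd_mem_para cs ω (fun j hj => hJ j (by simp [hj]))
    have hl : cs.length (cs.wordProd ω) < cs.length (cs.wordProd ω * cs.simple i) := by
      have h3 := hω.eq
      rw [cs.wordProd_append, cs.wordProd_singleton] at h3
      rw [h3, h1.eq]
      simp
    have h3 : 0 ≤ geo cs u (geo cs (cs.wordProd ω) (ee i)) := by
      refine geo_nonneg_para cs (u := u) hv hi hl (geo cs u) (fun x => 0 ≤ x) le_rfl (fun x y hx hy => add_nonneg hx hy)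
        (fun r x hr hx => smul_nonneg hr hx) ?_
      intro j hj
      exact geo_nonneg cs u j (hu j hj)
    rw [← Module.End.mul_apply, ← map_mul, geo_nonneg_iff] at h3
    rw [cs.wordProd_append, cs.wordProd_singleton, ← mul_assoc, List.length_append]
    rcases cs.length_mul_simple (u * cs.wordProd ω) i with h4 | h4
    · rw [h4, h2]
      simp [add_assoc]
    · omega

theorem len_add {J : Finset B} {u v : W} (hu : ∀ j ∈ J, cs.length u < cs.length (u * cs.simple j))
    (hv : v ∈ para cs J) : cs.length (u * v) = cs.length u + cs.length v := by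
  obtain ⟨ω, h1, h2, h3⟩ := exists_jword cs hv
  rw [← h2, len_add_word cs hu ω h1 h3, h1.eq]

theorem sec_mul {u v : W} (h : cs.length (u * v) = cs.length u + cs.length v) :
    sec cs (u * v) = sec cs u * sec cs v := by
  have hred : cs.IsReduced (rword cs u ++ rword cs v) := by
    unfold CoxeterSystem.IsReduced
    rw [cs.wordProd_append, rword_prod, rword_prod, List.length_append, rword_length, rword_length, h]
  have h2 := sec_eq cs _ hred
  rw [cs.wordProd_append, rword_prod, rword_prod] at h2
  rw [h2, List.map_append, List.prod_append]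
  rfl

theorem exists_minrep (J : Finset B) (w : W) : ∃ u v, w = u * v ∧ v ∈ para cs J ∧
    ∀ j ∈ J, cs.length u < cs.length (u * cs.simple j) := by
  classical
  have hex : ∃ n, ∃ v ∈ para cs J, cs.length (w * v) = n := ⟨_, 1, one_mem _, rfl⟩
  obtain ⟨v, hv, hvl⟩ := Nat.find_spec hex
  refine ⟨w * v, v⁻¹, by group, inv_mem hv, ?_⟩
  intro j hj
  have h1 := Nat.find_min' hex ⟨v * cs.simple j, mul_mem hv (simple_mem_para cs hj), rfl⟩
  rw [← hvl, ← mul_assoc] at h1
  rcases cs.length_mul_simple (w * v) j with h2 | h2 <;> omega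

theorem minrep_unique {J : Finset B} {u v u' v' : W} (hu : ∀ j ∈ J, cs.length u < cs.length (u * cs.simple j))
    (hu' : ∀ j ∈ J, cs.length u' < cs.length (u' * cs.simple j)) (hv : v ∈ para cs J) (hv' : v' ∈ para cs J)
    (h : u * v = u' * v') : u = u' ∧ v = v' := by
  have h1 : u' = u * (v * v'⁻¹) := by
    rw [← mul_assoc, h]
    group
  have h2 : u = u' * (v * v'⁻¹)⁻¹ := by
    rw [h1]
    group
  have hx : v * v'⁻¹ ∈ para cs J := mul_mem hv (inv_mem hv')
  have h3 := len_add cs hu hx
  have h4 := len_add cs hu' (inv_mem hx)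
  rw [← h1] at h3
  rw [← h2, cs.length_inv] at h4
  have h5 : cs.length (v * v'⁻¹) = 0 := by omega
  rw [cs.length_eq_zero_iff] at h5
  rw [h5, mul_one] at h1
  exact ⟨h1.symm, mul_inv_eq_one.mp h5⟩

/-- all the generators in `J` are right descents -/
structure IsTop (J : Finset B) (w : W) : Prop where
  mem : w ∈ para cs J
  desc : ∀ j ∈ J, cs.length (w * cs.simple j) < cs.length w

variable {cs}

theorem IsTop.mul_word {J : Finset B} {w : W} (hw : IsTop cs J w) (ω : List B) (hω : cs.IsReduced ω)
    (hJ : ∀ i ∈ ω, i ∈ J) : cs.length (w * cs.wordProd ω) + ω.length = cs.length w := by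
  induction ω using List.reverseRecOn with
  | nil => simp
  | append_singleton ω i ih =>
    have h1 : cs.IsReduced ω := by
      have := hω.take ω.length
      simpa using this
    have h2 := ih h1 (fun j hj => hJ j (by simp [hj]))
    have hi : i ∈ J := hJ i (by simp)
    have hv : cs.wordProd ω ∈ para cs J := wordProd_mem_para cs ω (fun j hj => hJ j (by simp [hj]))
    have hl : cs.length (cs.wordProd ω) < cs.length (cs.wordProd ω * cs.simple i) := by
      have h3 := hω.eq
      rw [cs.wordProd_append, cs.wordProd_singleton] at h3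
      rw [h3, h1.eq]
      simp
    have h3 : geo cs w (geo cs (cs.wordProd ω) (ee i)) ≤ 0 := by
      refine geo_nonneg_para cs (u := w) hv hi hl (geo cs w) (fun x => x ≤ 0) le_rfl (fun x y hx hy => add_nonpos hx hy)
        (fun r x hr hx => smul_nonpos_of_nonneg_of_nonpos hr hx) ?_
      intro j hj
      exact geo_nonpos cs w j (hw.desc j hj)
    rw [← Module.End.mul_apply, ← map_mul, geo_nonpos_iff] at h3
    rw [cs.wordProd_append, cs.wordProd_singleton, ← mul_assoc, List.length_append]
    rcases cs.length_mul_simple (w * cs.wordProd ω) i with h4 | h4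
    · omega
    · simp only [List.length_singleton]
      omega

theorem IsTop.mul {J : Finset B} {w : W} (hw : IsTop cs J w) {v : W} (hv : v ∈ para cs J) :
    cs.length (w * v) + cs.length v = cs.length w := by
  obtain ⟨ω, h1, h2, h3⟩ := exists_jword cs hv
  rw [← h2, h1.eq]
  exact hw.mul_word ω h1 h3

theorem IsTop.sq {J : Finset B} {w : W} (hw : IsTop cs J w) : w * w = 1 := by
  have := hw.mul hw.mem
  rw [← cs.length_eq_zero_iff]
  omega

theorem IsTop.le {J : Finset B} {w : W} (hw : IsTop cs J w) {v : W} (hv : v ∈ para cs J) :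
    cs.length v ≤ cs.length w := by
  have := hw.mul hv
  omega

theorem IsTop.unique {J : Finset B} {w w' : W} (hw : IsTop cs J w) (hw' : IsTop cs J w') : w = w' := by
  have h1 := hw.mul hw'.mem
  have h2 := hw'.le hw.mem
  have h3 : cs.length (w * w') = 0 := by omega
  rw [cs.length_eq_zero_iff] at h3
  have h4 := hw'.sq
  calc w = w * (w' * w') := by rw [h4, mul_one]
    _ = w' := by rw [← mul_assoc, h3, one_mul]

theorem exists_top (J : Finset B) [Finite (para cs J)] : ∃ w, IsTop cs J w := by
  obtain ⟨w, hw⟩ := Finite.exists_max (fun w : para cs J => cs.length (w : W))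
  refine ⟨w, w.2, fun j hj => ?_⟩
  have h1 := hw ⟨w * cs.simple j, mul_mem w.2 (simple_mem_para cs hj)⟩
  simp only at h1
  rcases cs.length_mul_simple (w : W) j with h2 | h2 <;> omega

theorem IsTop.conj {J : Finset B} {w : W} (hw : IsTop cs J w) {i : B} (hi : i ∈ J) :
    ∃ j ∈ J, w * cs.simple i * w = cs.simple j := by
  have h1 := hw.mul (mul_mem (simple_mem_para cs hi) hw.mem)
  have h2 := hw.mul (simple_mem_para cs hi)
  have h3 : cs.length (cs.simple i * w) = cs.length (w * cs.simple i) := by
    rw [← cs.length_inv, mul_inv_rev, cs.inv_simple, inv_eq_of_mul_eq_one_left hw.sq]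
  rw [cs.length_simple] at h2
  have h4 : cs.length (w * cs.simple i * w) = 1 := by
    rw [mul_assoc]
    omega
  obtain ⟨j, hj⟩ := cs.length_eq_one_iff.mp h4
  refine ⟨j, ?_, hj⟩
  rw [← simple_mem_iff cs, ← hj]
  exact mul_mem (mul_mem hw.mem (simple_mem_para cs hi)) hw.mem

theorem IsTop.comm {J : Finset B} {w : W} (hw : IsTop cs J w) {i j : B} (hi : i ∈ J)
    (hij : w * cs.simple i * w = cs.simple j) :
    sec cs w * Artin.gen M i = Artin.gen M j * sec cs w := by
  have h2 := hw.mul (simple_mem_para cs hi)
  rw [cs.length_simple] at h2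
  have e1 : w = (w * cs.simple i) * cs.simple i := by
    rw [cs.simple_mul_simple_cancel_right]
  have e2 : w = cs.simple j * (w * cs.simple i) := by
    rw [← hij]
    have := hw.sq
    calc w = (w * cs.simple i) * cs.simple i := e1
      _ = (w * cs.simple i) * (w * w) * cs.simple i := by rw [this, mul_one]
      _ = _ := by simp only [mul_assoc]
  have s1 : sec cs w = sec cs (w * cs.simple i) * Artin.gen M i := by
    conv_lhs => rw [e1]
    apply sec_mul_simple
    rw [← e1]
    omega
  have s2 : sec cs w = Artin.gen M j * sec cs (w * cs.simple i) := by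
    conv_lhs => rw [e2]
    apply sec_simple_mul
    rw [← e2]
    omega
  calc sec cs w * Artin.gen M i
      = Artin.gen M j * sec cs (w * cs.simple i) * Artin.gen M i := by rw [← s2]
    _ = Artin.gen M j * (sec cs (w * cs.simple i) * Artin.gen M i) := by rw [mul_assoc]
    _ = _ := by rw [← s1]

theorem IsTop.sq_comm {J : Finset B} {w : W} (hw : IsTop cs J w) {i : B} (hi : i ∈ J) :
    Commute (sec cs w * sec cs w) (Artin.gen M i) := by
  obtain ⟨j, hjJ, hj⟩ := hw.conj hi
  have hi' : w * cs.simple j * w = cs.simple i := by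
    rw [← hj]
    have := hw.sq
    calc w * (w * cs.simple i * w) * w = (w * w) * cs.simple i * (w * w) := by
          simp only [mul_assoc]
      _ = _ := by rw [this, one_mul, mul_one]
  have h1 := hw.comm hi hj
  have h2 := hw.comm hjJ hi'
  unfold Commute SemiconjBy
  rw [mul_assoc (sec cs w) (sec cs w) (Artin.gen M i), h1, ← mul_assoc (sec cs w), h2, mul_assoc]

end Pool.Agent.H77AR
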