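import Pool.Agent.H77AR.P1

/-!
# Matsumoto's theorem for a standard parabolic subgroup
-/

set_option autoImplicit false
set_option linter.unusedSectionVars false

namespace Pool.Agent.H77AR

open CoxeterSystem Pool.Agent.Helper741

variable {B : Type} {M : CoxeterMatrix B} [Fintype B] [DecidableEq B] {W : Type} [Group W] (cs : CoxeterSystem M W)

/-- a left descent of an element of a parabolic subgroup lies in the set of generators -/
theorem desc_mem {K : Finset B} {w : W} (hw : w ∈ para cs K) {i : B}
    (h : cs.length (cs.simple i * w) < cs.length w) : i ∈ K := by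
  obtain ⟨ω, h1, h2, h3⟩ := exists_jword cs hw
  obtain ⟨j, hj, he⟩ := exchange cs ω i (by rw [h2]; exact h)
  rw [← simple_mem_iff cs]
  have h4 : cs.wordProd (ω.eraseIdx j) ∈ para cs K :=
    wordProd_mem_para cs _ fun k hk => h3 k (List.mem_of_mem_eraseIdx hk)
  rw [← he, h2] at h4
  have h5 := mul_mem h4 (inv_mem hw)
  rwa [mul_inv_cancel_right] at h5

theorem desc_mem' {K : Finset B} {w : W} (hw : w ∈ para cs K) {i : B}
    (h : cs.length (w * cs.simple i) < cs.length w) : i ∈ K := by
  refine desc_mem cs (inv_mem hw) ?_
  rw [← cs.length_inv, mul_inv_rev, inv_inv, cs.inv_simple, cs.length_inv]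
  exact h

theorem red_cons {i : B} {ω : List B} (h : cs.IsReduced (i :: ω)) : cs.IsReduced ω := by
  simpa using h.drop 1

theorem red_cons_len {i : B} {ω : List B} (h : cs.IsReduced (i :: ω)) :
    cs.length (cs.simple i * cs.wordProd ω) = cs.length (cs.wordProd ω) + 1 := by
  have h1 := h.eq
  have h2 := (red_cons cs h).eq
  rw [cs.wordProd_cons, List.length_cons] at h1
  omega

/-- the letters of the reduced words of the elements of a parabolic subgroup -/
theorem letters_mem {K : Finset B} (ω : List B) (h : cs.IsReduced ω) (hw : cs.wordProd ω ∈ para cs K) :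
    ∀ i ∈ ω, i ∈ K := by
  induction ω with
  | nil => intro i hi; exact absurd hi List.not_mem_nil
  | cons i ω ih =>
    have h1 := red_cons_len cs h
    have hi : i ∈ K := by
      refine desc_mem cs hw ?_
      rw [cs.wordProd_cons, cs.simple_mul_simple_cancel_left, h1]
      exact Nat.lt_succ_self _
    intro j hj
    rcases List.mem_cons.mp hj with rfl | hj
    · exact hi
    · refine ih (red_cons cs h) ?_ j hj
      have h2 := mul_mem (simple_mem_para cs hi) hw
      rwa [cs.wordProd_cons, cs.simple_mul_simple_cancel_left] at h2

/-- **Matsumoto's theorem** for a parabolic subgroup. -/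
theorem matsumotoK {G : Type*} [Group G] (K : Finset B) (f : B → G)
    (hf : ∀ i ∈ K, ∀ j ∈ K, alt (f i) (f j) (M i j) = alt (f j) (f i) (M i j))
    (ω ω' : List B) (h : cs.IsReduced ω) (h' : cs.IsReduced ω') (hK : cs.wordProd ω ∈ para cs K)
    (heq : cs.wordProd ω = cs.wordProd ω') : (ω.map f).prod = (ω'.map f).prod := by
  induction hn : ω.length using Nat.strong_induction_on generalizing ω ω' with
  | _ n ih =>
  have hlen : ω.length = ω'.length := by
    rw [← h.eq, ← h'.eq, heq]
  -- same first letter
  have same : ∀ (i : B) (α β : List B), cs.IsReduced (i :: α) → cs.IsReduced (i :: β) →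
      cs.wordProd (i :: α) ∈ para cs K →
      cs.wordProd (i :: α) = cs.wordProd (i :: β) → (i :: α).length = n →
      ((i :: α).map f).prod = ((i :: β).map f).prod := by
    intro i α β hα hβ hαK hαβ hl
    rw [List.map_cons, List.map_cons, List.prod_cons, List.prod_cons]
    congr 1
    have hiK : i ∈ K := letters_mem cs (i :: α) hα hαK i List.mem_cons_self
    have hαK' : cs.wordProd α ∈ para cs K := by
      have h2 := mul_mem (simple_mem_para cs hiK) hαK
      rwa [cs.wordProd_cons, cs.simple_mul_simple_cancel_left] at h2
    rw [cs.wordProd_cons, cs.wordProd_cons] at hαβ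
    apply ih α.length (by rw [← hl]; simp) α β (by simpa using hα.drop 1)
      (by simpa using hβ.drop 1) hαK' (mul_left_cancel hαβ) rfl
  match ω, ω' with
  | [], [] => rfl
  | [], _ :: _ => simp at hlen
  | _ :: _, [] => simp at hlen
  | i :: ω₁, j :: ω₂ =>
    by_cases hij : i = j
    · subst hij
      exact same i ω₁ ω₂ h h' hK heq hn
    · set w := cs.wordProd (i :: ω₁) with hw
      have hwl : cs.length w = n := by rw [hw, h.eq, hn]
      have hdi : cs.length (cs.simple i * w) < cs.length w := by
        have h1 := cs.length_wordProd_le ω₁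
        rw [hwl, hw, cs.wordProd_cons, cs.simple_mul_simple_cancel_left]
        simp only [List.length_cons] at hn
        omega
      have hdj : cs.length (cs.simple j * w) < cs.length w := by
        have h1 := cs.length_wordProd_le ω₂
        rw [hwl, heq, cs.wordProd_cons, cs.simple_mul_simple_cancel_left]
        simp only [List.length_cons] at hn hlen
        omega
      have hiK : i ∈ K := desc_mem cs hK hdi
      have hjK : j ∈ K := desc_mem cs hK hdj
      have h0 : M i j ≠ 0 := by
        intro h0
        obtain ⟨u, hu1, hu2⟩ := exists_aw_front cs w (n + 1) i j hij (Or.inl h0) hdi hdj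
        have h2 := hu1.eq
        rw [hu2, hwl, List.length_append, aw_length] at h2
        omega
      have h2 := two_le_of_ne M hij h0
      obtain ⟨u, hu1, hu2⟩ := exists_aw_front cs w (M i j) i j hij (Or.inr le_rfl) hdi hdj
      obtain ⟨v, hv1, hv2⟩ := exists_aw_front cs w (M i j) j i (Ne.symm hij)
        (Or.inr (by rw [M.symmetric j i])) hdj hdi
      obtain ⟨m, hm⟩ : ∃ m, M i j = m + 1 := ⟨M i j - 1, by omega⟩
      have e1 : ((i :: ω₁).map f).prod = ((aw i j (M i j) ++ u).map f).prod := by
        rw [hm, aw_succ, List.cons_append]
        rw [hm, aw_succ, List.cons_append] at hu1 hu2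
        exact same i ω₁ _ h hu1 hK (by rw [hu2]) hn
      have e2 : ((j :: ω₂).map f).prod = ((aw j i (M i j) ++ v).map f).prod := by
        rw [hm, aw_succ, List.cons_append]
        rw [hm, aw_succ, List.cons_append] at hv1 hv2
        exact same j ω₂ _ h' hv1 (by rw [← heq]; exact hK) (by rw [hv2, ← heq]) (by rw [← hlen, hn])
      have e3 : cs.wordProd u = cs.wordProd v := by
        have h3 := hu2.trans hv2.symm
        rw [cs.wordProd_append, cs.wordProd_append, wordProd_aw, wordProd_aw,
          alt_comm_of_pow (cs.simple_mul_simple_self i) (cs.simple_mul_simple_self j)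
            (cs.simple_mul_simple_pow i j)] at h3
        exact mul_left_cancel h3
      have hul : (aw i j (M i j) ++ u).length = n := by rw [← hu1.eq, hu2, hwl]
      have huK : cs.wordProd u ∈ para cs K := by
        refine wordProd_mem_para cs u fun k hk => ?_
        exact letters_mem cs _ hu1 (by rw [hu2]; exact hK) k (List.mem_append_right _ hk)
      have e4 : (u.map f).prod = (v.map f).prod := by
        apply ih u.length (by rw [List.length_append, aw_length] at hul; omega) u v
          (by simpa using hu1.drop (M i j)) (by simpa using hv1.drop (M i j)) huK e3 rfl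
      rw [e1, e2, List.map_append, List.map_append, List.prod_append, List.prod_append, aw_prod,
        aw_prod, e4, hf i hiK j hjK]

/-- the lift of an element of a parabolic subgroup -/
noncomputable def secf {H : Type} [Group H] (f : B → H) (x : W) : H := ((rword cs x).map f).prod

theorem secf_one {H : Type} [Group H] (f : B → H) : secf cs f 1 = 1 := by
  unfold secf
  have h : rword cs 1 = [] := by
    rw [← List.length_eq_zero_iff, rword_length, cs.length_one]
  rw [h]
  simp

theorem secf_mul {H : Type} [Group H] {K : Finset B} {f : B → H}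
    (hf : ∀ i ∈ K, ∀ j ∈ K, alt (f i) (f j) (M i j) = alt (f j) (f i) (M i j)) {x : W} (hx : x ∈ para cs K) {t : B}
    (ht : t ∈ K) (hl : cs.length x < cs.length (cs.simple t * x)) : secf cs f (cs.simple t * x) = f t * secf cs f x := by
  have hl' : cs.length (cs.simple t * x) = cs.length x + 1 := by
    rcases cs.length_simple_mul x t with h1 | h1 <;> omega
  have hred : cs.IsReduced (t :: rword cs x) := by
    unfold CoxeterSystem.IsReduced
    rw [cs.wordProd_cons, rword_prod, hl', List.length_cons, rword_length]
  have h2 := matsumotoK cs K f hf (rword cs (cs.simple t * x)) (t :: rword cs x) (rword_reduced cs _) hred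
    (by rw [rword_prod]; exact mul_mem (simple_mem_para cs ht) hx)
    (by rw [cs.wordProd_cons, rword_prod, rword_prod])
  unfold secf
  rw [h2, List.map_cons, List.prod_cons]

end Pool.Agent.H77AR
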