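import Pool.Agent.H77AR.V1

/-!
# The action of an Artin group which is induced from a homomorphism of a parabolic subgroup, first part
-/

set_option autoImplicit false
set_option linter.unusedSectionVars false

namespace Pool.Agent.H77AR

open CoxeterSystem Pool.Agent.Helper741

variable {B : Type} {M : CoxeterMatrix B} [Fintype B] [DecidableEq B] {W : Type} [Group W] (cs : CoxeterSystem M W)

/-- shortest in its coset `w W_K` -/
def IsMin (K : Finset B) (w : W) : Prop := ∀ j ∈ K, cs.length w < cs.length (w * cs.simple j)

theorem isMin_one (K : Finset B) : IsMin cs K 1 := by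
  intro j _
  rw [one_mul, cs.length_one, cs.length_simple]
  exact one_pos

theorem len_inv_mul (a b : W) : cs.length (a * b) = cs.length (b⁻¹ * a⁻¹) := by
  rw [← cs.length_inv, mul_inv_rev]

theorem len_addL {J : Finset B} {a v : W} (ha : ∀ j ∈ J, cs.length a < cs.length (cs.simple j * a))
    (hv : v ∈ para cs J) : cs.length (v * a) = cs.length v + cs.length a := by
  rw [len_inv_mul, len_add cs (J := J) (u := a⁻¹) (v := v⁻¹) ?_ (inv_mem hv), cs.length_inv, cs.length_inv, add_comm]
  intro j hj
  have h1 := ha j hj
  rw [len_inv_mul, cs.inv_simple] at h1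
  rw [cs.length_inv]
  exact h1

theorem IsMin.suffix {K : Finset B} {b a : W} (h : IsMin cs K (b * a))
    (hl : cs.length (b * a) = cs.length b + cs.length a) : IsMin cs K a := by
  intro j hj
  by_contra h1
  have h2 := h j hj
  rw [mul_assoc] at h2
  have h3 := cs.length_mul_le b (a * cs.simple j)
  rcases cs.length_mul_simple a j with h4 | h4 <;> omega

theorem not_isMin {K : Finset B} {w : W} (hw : IsMin cs K w) {t : B} (ht : t ∈ K) : ¬ IsMin cs K (w * cs.simple t) := by
  intro h
  have h1 := h t ht
  rw [cs.simple_mul_simple_cancel_right] at h1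
  have h2 := hw t ht
  omega

/-- Deodhar's lemma -/
theorem dich {K : Finset B} {w : W} (hw : IsMin cs K w) (s : B) :
    IsMin cs K (cs.simple s * w) ∨ ∃ t ∈ K, cs.simple s * w = w * cs.simple t := by
  by_contra hcon
  push Not at hcon
  obtain ⟨h1, h2⟩ := hcon
  unfold IsMin at h1
  push Not at h1
  obtain ⟨k, hk, hk'⟩ := h1
  have hk2 : cs.length (cs.simple s * w * cs.simple k) + 1 = cs.length (cs.simple s * w) := by
    rcases cs.length_mul_simple (cs.simple s * w) k with h4 | h4 <;> omega
  have hw2 := hw k hk
  have hw3 : cs.length (w * cs.simple k) = cs.length w + 1 := by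
    rcases cs.length_mul_simple w k with h4 | h4 <;> omega
  have h3 := cs.length_simple_mul (w * cs.simple k) s
  rw [← mul_assoc] at h3
  rcases cs.length_simple_mul w s with h4 | h4
  · -- exchange
    have e1 : cs.wordProd (rword cs w⁻¹ ++ [s]) = (cs.simple s * w)⁻¹ := by
      rw [cs.wordProd_append, rword_prod, cs.wordProd_singleton, mul_inv_rev, cs.inv_simple]
    obtain ⟨j, hj, he⟩ := exchange cs (rword cs w⁻¹ ++ [s]) k (by
      rw [e1, cs.length_inv, ← cs.length_inv, mul_inv_rev, inv_inv, cs.inv_simple]
      omega)
    rw [e1, mul_inv_rev, cs.inv_simple] at he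
    by_cases hj2 : j < (rword cs w⁻¹).length
    · rw [List.eraseIdx_append_of_lt_length hj2, cs.wordProd_append, cs.wordProd_singleton, ← mul_assoc] at he
      have he2 := mul_right_cancel he
      have h5 := cs.length_wordProd_le ((rword cs w⁻¹).eraseIdx j)
      rw [← he2] at h5
      have h6 := List.length_eraseIdx_add_one hj2
      rw [rword_length, cs.length_inv] at h6
      have h7 : cs.length (cs.simple k * w⁻¹) = cs.length (w * cs.simple k) := by
        rw [len_inv_mul, inv_inv, cs.inv_simple]
      omega
    · have hj3 : j = (rword cs w⁻¹).length := by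
        rw [List.length_append, List.length_singleton] at hj
        omega
      rw [hj3, List.eraseIdx_append_of_length_le le_rfl] at he
      simp only [Nat.sub_self, List.eraseIdx_zero, List.tail_cons, List.append_nil] at he
      rw [rword_prod] at he
      apply h2 k hk
      have h5 := congrArg (fun x => x⁻¹) he
      simp only [mul_inv_rev, inv_inv, cs.inv_simple] at h5
      calc cs.simple s * w = cs.simple s * w * cs.simple k * cs.simple k := by
            rw [cs.simple_mul_simple_cancel_right]
        _ = w * cs.simple k := by rw [h5]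
  · omega

open Classical in
/-- the generator by which one multiplies -/
noncomputable def tl (K : Finset B) (w : W) (s : B) : B :=
  if h : ∃ t ∈ K, cs.simple s * w = w * cs.simple t then h.choose else s

theorem tl_eq {K : Finset B} {w : W} {s t : B} (ht : t ∈ K) (h : cs.simple s * w = w * cs.simple t) :
    tl cs K w s = t := by
  have hex : ∃ t ∈ K, cs.simple s * w = w * cs.simple t := ⟨t, ht, h⟩
  unfold tl
  rw [dif_pos hex]
  have h1 := h.symm.trans hex.choose_spec.2
  exact (simple_injective cs (mul_left_cancel h1)).symm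

section

variable {H : Type} [Group H] (f : B → H)

open Classical in
/-- one step -/
noncomputable def stp (K : Finset B) (s : B) : Equiv.Perm (W × H) where
  toFun p := if IsMin cs K p.1 then (if IsMin cs K (cs.simple s * p.1) then (cs.simple s * p.1, p.2)
    else (p.1, f (tl cs K p.1 s) * p.2)) else p
  invFun p := if IsMin cs K p.1 then (if IsMin cs K (cs.simple s * p.1) then (cs.simple s * p.1, p.2)
    else (p.1, (f (tl cs K p.1 s))⁻¹ * p.2)) else p
  left_inv p := by
    by_cases h1 : IsMin cs K p.1
    · by_cases h2 : IsMin cs K (cs.simple s * p.1)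
      · simp only [h1, h2, if_true, cs.simple_mul_simple_cancel_left]
      · simp only [h1, h2, if_true, if_false, inv_mul_cancel_left]
    · simp only [h1, if_false]
  right_inv p := by
    by_cases h1 : IsMin cs K p.1
    · by_cases h2 : IsMin cs K (cs.simple s * p.1)
      · simp only [h1, h2, if_true, cs.simple_mul_simple_cancel_left]
      · simp only [h1, h2, if_true, if_false, mul_inv_cancel_left]
    · simp only [h1, if_false]

theorem stp_in {K : Finset B} {w : W} {s : B} (h1 : IsMin cs K w) (h2 : IsMin cs K (cs.simple s * w)) (g : H) :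
    stp cs f K s (w, g) = (cs.simple s * w, g) := by
  unfold stp
  simp only [Equiv.coe_fn_mk, h1, h2, if_true]

theorem stp_out {K : Finset B} {w : W} {s t : B} (h1 : IsMin cs K w) (ht : t ∈ K)
    (h2 : cs.simple s * w = w * cs.simple t) (g : H) : stp cs f K s (w, g) = (w, f t * g) := by
  have h3 : ¬ IsMin cs K (cs.simple s * w) := by
    rw [h2]
    exact not_isMin cs h1 ht
  unfold stp
  simp only [Equiv.coe_fn_mk, h1, h3, if_true, if_false]
  rw [tl_eq cs ht h2]

theorem stp_not {K : Finset B} {w : W} {s : B} (h1 : ¬ IsMin cs K w) (g : H) : stp cs f K s (w, g) = (w, g) := by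
  unfold stp
  simp only [Equiv.coe_fn_mk, h1, if_false]

/-- right multiplication -/
def rmulH (h : H) (p : W × H) : W × H := (p.1, p.2 * h)

theorem stp_rmul (K : Finset B) (s : B) (h : H) (p : W × H) :
    stp cs f K s (rmulH h p) = rmulH h (stp cs f K s p) := by
  obtain ⟨w, g⟩ := p
  unfold rmulH
  by_cases h1 : IsMin cs K w
  · rcases dich cs h1 s with h2 | ⟨t, ht, h2⟩
    · rw [stp_in cs f h1 h2, stp_in cs f h1 h2]
    · rw [stp_out cs f h1 ht h2, stp_out cs f h1 ht h2, mul_assoc]
  · rw [stp_not cs f h1, stp_not cs f h1]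

/-- words -/
noncomputable def wd (K : Finset B) (ω : List B) : Equiv.Perm (W × H) := (ω.map (stp cs f K)).prod

theorem wd_nil (K : Finset B) (p : W × H) : wd cs f K [] p = p := rfl

theorem wd_cons (K : Finset B) (s : B) (ω : List B) (p : W × H) :
    wd cs f K (s :: ω) p = stp cs f K s (wd cs f K ω p) := by
  unfold wd
  rw [List.map_cons, List.prod_cons]
  rfl

theorem wd_append (K : Finset B) (ω ω' : List B) (p : W × H) :
    wd cs f K (ω ++ ω') p = wd cs f K ω (wd cs f K ω' p) := by
  unfold wd
  rw [List.map_append, List.prod_append]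
  rfl

theorem wd_free {K : Finset B} (ω : List B) {w : W} (h : ∀ τ, τ <:+ ω → IsMin cs K (cs.wordProd τ * w)) (g : H) :
    wd cs f K ω (w, g) = (cs.wordProd ω * w, g) := by
  induction ω with
  | nil => rw [wd_nil, cs.wordProd_nil, one_mul]
  | cons s ω ih =>
    rw [wd_cons, ih fun τ hτ => h τ (hτ.trans (List.suffix_cons s ω)), stp_in, cs.wordProd_cons, mul_assoc]
    · exact h ω (List.suffix_cons s ω)
    · have h1 := h (s :: ω) List.suffix_rfl
      rwa [cs.wordProd_cons, mul_assoc] at h1

/-- moving upwards -/
theorem wd_up {K : Finset B} (hf : ∀ i ∈ K, ∀ j ∈ K, alt (f i) (f j) (M i j) = alt (f j) (f i) (M i j))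
    (ω : List B) (hω : cs.IsReduced ω) {w : W} (hw : IsMin cs K w)
    (hl : cs.length (cs.wordProd ω * w) = ω.length + cs.length w) (g : H) :
    ∀ w' x : W, IsMin cs K w' → x ∈ para cs K → cs.wordProd ω * w = w' * x →
      wd cs f K ω (w, g) = (w', secf cs f x * g) := by
  induction ω with
  | nil =>
    intro w' x hw' hx he
    rw [cs.wordProd_nil, one_mul] at he
    obtain ⟨e1, e2⟩ := minrep_unique cs (J := K) (u := w) (v := 1) (u' := w') (v' := x) hw hw' (one_mem _) hx
      (by rw [mul_one, he])
    rw [wd_nil, ← e1, ← e2, secf_one, one_mul]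
  | cons s ω ih =>
    intro w'' x' hw'' hx' he
    have hω' := red_cons cs hω
    rw [cs.wordProd_cons, mul_assoc] at hl he
    have h1 : cs.length (cs.wordProd ω * w) = ω.length + cs.length w := by
      have h2 := cs.length_mul_le (cs.wordProd ω) w
      have h3 := hω'.eq
      rw [List.length_cons] at hl
      rcases cs.length_simple_mul (cs.wordProd ω * w) s with h4 | h4 <;> omega
    obtain ⟨w', x, e, hx, hw'⟩ := exists_minrep cs K (cs.wordProd ω * w)
    have h2 := ih hω' h1 w' x hw' hx e
    rw [wd_cons, h2]
    have hlx : cs.length (cs.wordProd ω * w) = cs.length w' + cs.length x := by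
      rw [e]; exact len_add cs hw' hx
    rcases dich cs hw' s with h3 | ⟨t, ht, h3⟩
    · rw [stp_in cs f hw' h3]
      obtain ⟨e1, e2⟩ := minrep_unique cs (J := K) (u := cs.simple s * w') (v := x) (u' := w'') (v' := x') h3 hw''
        hx hx' (by rw [mul_assoc, ← e, he])
      rw [← e1, ← e2]
    · rw [stp_out cs f hw' ht h3]
      have e0 : w' * (cs.simple t * x) = w'' * x' := by
        rw [← mul_assoc, ← h3, mul_assoc, ← e, he]
      obtain ⟨e1, e2⟩ := minrep_unique cs (J := K) (u := w') (v := cs.simple t * x) (u' := w'') (v' := x') hw' hw''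
        (mul_mem (simple_mem_para cs ht) hx) hx' e0
      have hl2 : cs.length (cs.simple s * (cs.wordProd ω * w)) = cs.length w' + cs.length (cs.simple t * x) := by
        rw [e, ← mul_assoc, h3, mul_assoc]
        exact len_add cs hw' (mul_mem (simple_mem_para cs ht) hx)
      rw [List.length_cons] at hl
      rw [← e1, ← e2, secf_mul cs hf hx ht (by omega), mul_assoc]

end

/-- Lemma X -/
theorem exists_bad {K J : Finset B} {a : W} (ha : ∀ j ∈ J, cs.length a < cs.length (cs.simple j * a))
    (haK : IsMin cs K a) : ∀ v ∈ para cs J, ¬ IsMin cs K (v * a) →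
      ∃ r ∈ J, ¬ IsMin cs K (cs.simple r * a) ∧ cs.length (v * cs.simple r) < cs.length v := by
  have key : ∀ (ω : List B), cs.IsReduced ω → (∀ i ∈ ω, i ∈ J) → ¬ IsMin cs K (cs.wordProd ω * a) →
      ∃ r ∈ J, ¬ IsMin cs K (cs.simple r * a) ∧ cs.length (cs.wordProd ω * cs.simple r) < cs.length (cs.wordProd ω) := by
    intro ω
    induction ω with
    | nil =>
      intro _ _ h
      rw [cs.wordProd_nil, one_mul] at h
      exact absurd haK h
    | cons s ω ih =>
      intro hω hJ h
      have hω' := red_cons cs hω
      have hl := red_cons_len cs hω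
      have hJ' : ∀ i ∈ ω, i ∈ J := fun i hi => hJ i (List.mem_cons_of_mem _ hi)
      rw [cs.wordProd_cons]
      by_cases h1 : IsMin cs K (cs.wordProd ω * a)
      · rcases dich cs h1 s with h2 | ⟨t, ht, h2⟩
        · rw [cs.wordProd_cons, mul_assoc] at h
          exact absurd h2 h
        · obtain ⟨ρ, hρ⟩ : ∃ ρ, ρ = (cs.wordProd ω)⁻¹ * cs.simple s * cs.wordProd ω := ⟨_, rfl⟩
          have hvJ := wordProd_mem_para cs ω hJ'
          have hρJ : ρ ∈ para cs J := by
            rw [hρ]
            exact mul_mem (mul_mem (inv_mem hvJ) (simple_mem_para cs (hJ s List.mem_cons_self))) hvJ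
          have h3 : ρ * a = a * cs.simple t := by
            rw [hρ, mul_assoc, mul_assoc, h2, ← mul_assoc, ← mul_assoc, inv_mul_cancel, one_mul]
          have h4 := len_addL cs ha hρJ
          have h5 : cs.length (a * cs.simple t) = cs.length a + 1 := by
            rcases cs.length_mul_simple a t with h6 | h6
            · exact h6
            · have := haK t ht
              omega
          have h6 : cs.length ρ = 1 := by
            rw [h3] at h4
            omega
          obtain ⟨r, hr⟩ := cs.length_eq_one_iff.mp h6
          refine ⟨r, ?_, ?_, ?_⟩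
          · rw [← simple_mem_iff cs, ← hr]
            exact hρJ
          · rw [← hr, h3]
            exact not_isMin cs haK ht
          · rw [← hr, hρ]
            have e1 : cs.simple s * cs.wordProd ω * ((cs.wordProd ω)⁻¹ * cs.simple s * cs.wordProd ω) =
                cs.wordProd ω := by
              rw [mul_assoc, mul_assoc (cs.wordProd ω)⁻¹, mul_inv_cancel_left, cs.simple_mul_simple_cancel_left]
            rw [e1, hl]
            exact Nat.lt_succ_self _
      · obtain ⟨r, hr, h2, h3⟩ := ih hω' hJ' h1
        refine ⟨r, hr, h2, ?_⟩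
        rw [mul_assoc, hl]
        have h4 := cs.length_mul_le (cs.simple s) (cs.wordProd ω * cs.simple r)
        rw [cs.length_simple] at h4
        omega
  intro v hv h
  obtain ⟨ω, h1, h2, h3⟩ := exists_jword cs hv
  rw [← h2] at h ⊢
  exact key ω h1 h3 h

end Pool.Agent.H77AR
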