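import Pool.Agent.H77AR.V2
import Pool.Agent.H77AR.A1

/-!
# The universal property of the standard parabolic subgroups of Artin groups
-/

set_option autoImplicit false
set_option linter.unusedSectionVars false

namespace Pool.Agent.H77AR

open CoxeterSystem Pool.Agent.Helper741

variable {B : Type} {M : CoxeterMatrix B} [Fintype B] [DecidableEq B] {W : Type} [Group W] (cs : CoxeterSystem M W)

/-- alternating letters -/
def cl (r0 r1 : B) (l : ℕ) : B := if Even l then r0 else r1

/-- alternating words, the last letter has index `k` -/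
def sw (r0 r1 : B) (k : ℕ) : ℕ → List B
  | 0 => []
  | n + 1 => cl r0 r1 (k + n) :: sw r0 r1 k n

theorem sw_nil (r0 r1 : B) (k : ℕ) : sw r0 r1 k 0 = [] := rfl

theorem sw_succ (r0 r1 : B) (k n : ℕ) : sw r0 r1 k (n + 1) = cl r0 r1 (k + n) :: sw r0 r1 k n := rfl

theorem sw_single (r0 r1 : B) (k : ℕ) : sw r0 r1 k 1 = [cl r0 r1 k] := rfl

theorem cl_par (r0 r1 : B) (l n : ℕ) : cl r0 r1 (l + 2 * n) = cl r0 r1 l := by
  unfold cl
  have : Even (l + 2 * n) ↔ Even l := by
    rw [Nat.even_add]
    simp
  rw [if_congr this rfl rfl]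

theorem sw_par (r0 r1 : B) (k n q : ℕ) : sw r0 r1 (k + 2 * q) n = sw r0 r1 k n := by
  induction n with
  | zero => rfl
  | succ n ih =>
    rw [sw_succ, sw_succ, ih, show k + 2 * q + n = k + n + 2 * q by ring, cl_par]

theorem sw_add (r0 r1 : B) (k n n' : ℕ) : sw r0 r1 k (n + n') = sw r0 r1 (k + n) n' ++ sw r0 r1 k n := by
  induction n' with
  | zero => rfl
  | succ n' ih =>
    rw [← add_assoc, sw_succ, sw_succ, ih, List.cons_append, add_assoc]

theorem sw_zero (r0 r1 : B) (n : ℕ) : sw r0 r1 0 n = alternatingWord r1 r0 n := by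
  induction n with
  | zero => rfl
  | succ n ih =>
    rw [alternatingWord_succ', ← ih, sw_succ]
    unfold cl
    rw [zero_add]

theorem sw_one (r0 r1 : B) (n : ℕ) : sw r0 r1 1 n = sw r1 r0 0 n := by
  induction n with
  | zero => rfl
  | succ n ih =>
    rw [sw_succ, sw_succ, ih]
    congr 1
    unfold cl
    rw [zero_add]
    by_cases h : Even n
    · rw [if_pos h, if_neg]
      rw [Nat.even_add]
      simp [h]
    · rw [if_neg h, if_pos]
      rw [Nat.even_add]
      simp [h]

theorem sw_len (r0 r1 : B) (k n : ℕ) : (sw r0 r1 k n).length = n := by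
  induction n with
  | zero => rfl
  | succ n ih =>
    rw [sw_succ, List.length_cons, ih]

theorem sw_mem (r0 r1 : B) (k n : ℕ) : ∀ x ∈ sw r0 r1 k n, x = r0 ∨ x = r1 := by
  induction n with
  | zero => intro x hx; exact absurd hx List.not_mem_nil
  | succ n ih =>
    intro x hx
    rw [sw_succ] at hx
    rcases List.mem_cons.mp hx with rfl | hx
    · unfold cl
      split_ifs
      · exact Or.inl rfl
      · exact Or.inr rfl
    · exact ih x hx

theorem sw_red {r0 r1 : B} (hr : r0 ≠ r1) (k : ℕ) {n : ℕ} (hn : n ≤ M r0 r1) : cs.IsReduced (sw r0 r1 k n) := by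
  have h0 : cs.IsReduced (sw r0 r1 0 n) := by
    rw [sw_zero]
    exact isReduced_alternatingWord cs hr.symm (Or.inr (by rw [M.symmetric]; exact hn))
  have h1 : cs.IsReduced (sw r0 r1 1 n) := by
    rw [sw_one, sw_zero]
    exact isReduced_alternatingWord cs hr (Or.inr hn)
  rcases Nat.even_or_odd k with ⟨q, hq⟩ | ⟨q, hq⟩
  · rw [show k = 0 + 2 * q by omega, sw_par]
    exact h0
  · rw [show k = 1 + 2 * q by omega, sw_par]
    exact h1

theorem sw_braid (r0 r1 : B) :
    cs.wordProd (sw r0 r1 0 (M r0 r1)) = cs.wordProd (sw r0 r1 1 (M r0 r1)) := by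
  rw [sw_one, sw_zero, sw_zero]
  have h := cs.wordProd_braidWord_eq r0 r1
  unfold braidWord at h
  rw [M.symmetric r1 r0] at h
  exact h.symm

theorem sw_para {r0 r1 : B} (k n : ℕ) : cs.wordProd (sw r0 r1 k n) ∈ para cs {r0, r1} := by
  refine wordProd_mem_para cs _ fun x hx => ?_
  rw [Finset.mem_insert, Finset.mem_singleton]
  exact sw_mem r0 r1 k n x hx

/-- the elements of the dihedral parabolic subgroups -/
theorem two_letters {i j : B} (hij : i ≠ j) (hm : M i j ≠ 0) {b : W} (hb : b ∈ para cs {i, j}) :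
    ∃ r0 r1 : B, ((r0 = i ∧ r1 = j) ∨ (r0 = j ∧ r1 = i)) ∧ ∃ k ≤ M i j, b = cs.wordProd (sw r0 r1 0 k) := by
  have key : ∀ ω : List B, cs.IsReduced ω → (∀ x ∈ ω, x ∈ ({i, j} : Finset B)) →
      ∃ r0 r1 : B, ((r0 = i ∧ r1 = j) ∨ (r0 = j ∧ r1 = i)) ∧ ∃ k ≤ M i j, cs.wordProd ω = cs.wordProd (sw r0 r1 0 k) := by
    intro ω
    induction ω with
    | nil => exact fun _ _ => ⟨i, j, Or.inl ⟨rfl, rfl⟩, 0, Nat.zero_le _, rfl⟩
    | cons s ω ih =>
      intro hω hx
      have hω' := red_cons cs hω
      have hl := red_cons_len cs hω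
      obtain ⟨r0, r1, hr, k, hk, he⟩ := ih hω' fun x hx' => hx x (List.mem_cons_of_mem _ hx')
      have hne : r0 ≠ r1 := by
        rcases hr with ⟨h1, h2⟩ | ⟨h1, h2⟩
        · rw [h1, h2]; exact hij
        · rw [h1, h2]; exact hij.symm
      have hM : M r0 r1 = M i j := by
        rcases hr with ⟨h1, h2⟩ | ⟨h1, h2⟩
        · rw [h1, h2]
        · rw [h1, h2, M.symmetric]
      have hs : s = r0 ∨ s = r1 := by
        have h1 := hx s List.mem_cons_self
        rw [Finset.mem_insert, Finset.mem_singleton] at h1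
        rcases hr with ⟨h2, h3⟩ | ⟨h2, h3⟩
        · rw [h2, h3]; exact h1
        · rw [h2, h3]; exact h1.symm
      rw [cs.wordProd_cons]
      rw [he] at hl ⊢
      rcases k with _ | k
      · rcases hs with hs | hs
        · refine ⟨r0, r1, hr, 1, Nat.one_le_iff_ne_zero.mpr hm, ?_⟩
          rw [hs, sw_single, sw_nil, cs.wordProd_singleton, cs.wordProd_nil, mul_one]
          rfl
        · refine ⟨r1, r0, hr.symm.imp And.symm And.symm, 1, Nat.one_le_iff_ne_zero.mpr hm, ?_⟩
          rw [hs, sw_single, sw_nil, cs.wordProd_singleton, cs.wordProd_nil, mul_one]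
          rfl
      · have hred := (sw_red cs hne 0 (n := k + 1) (by rw [hM]; exact hk)).eq
        rw [sw_len] at hred
        have hlast : ∀ ω' : List B, cs.wordProd (sw r0 r1 0 (k + 1)) = cs.wordProd (s :: ω') → ω'.length ≤ k → False := by
          intro ω' h1 h2
          rw [h1, cs.wordProd_cons, cs.simple_mul_simple_cancel_left] at hl
          rw [h1, cs.wordProd_cons] at hred
          have h3 := cs.length_wordProd_le ω'
          omega
        have hsk : s ≠ cl r0 r1 k := by
          intro h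
          refine hlast (sw r0 r1 0 k) ?_ (by rw [sw_len])
          rw [sw_succ, zero_add, h]
        have hsk' : s = cl r0 r1 (k + 1) := by
          unfold cl at hsk ⊢
          rcases Nat.even_or_odd k with h | h
          · rw [if_pos h] at hsk
            rw [if_neg (by rw [Nat.even_add_one]; simpa using h)]
            rcases hs with hs | hs
            · exact absurd hs hsk
            · exact hs
          · have h' : ¬ Even k := by simpa using h
            rw [if_neg h'] at hsk
            rw [if_pos (by rw [Nat.even_add_one]; exact h')]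
            rcases hs with hs | hs
            · exact hs
            · exact absurd hs hsk
        by_cases hk1 : k + 1 = M i j
        · exfalso
          refine hlast (sw r0 r1 1 k) ?_ (by rw [sw_len])
          rw [hk1, ← hM, sw_braid, hM, ← hk1, sw_succ, hsk', add_comm 1 k]
        · refine ⟨r0, r1, hr, k + 1 + 1, by omega, ?_⟩
          rw [sw_succ r0 r1 0 (k + 1), cs.wordProd_cons, zero_add, hsk']
  obtain ⟨ω, h1, h2, h3⟩ := exists_jword cs hb
  rw [← h2]
  exact key ω h1 h3

section

variable {H : Type} [Group H] (f : B → H)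

theorem wd_not {K : Finset B} (ω : List B) {w : W} (h : ¬ IsMin cs K w) (g : H) : wd cs f K ω (w, g) = (w, g) := by
  induction ω with
  | nil => rfl
  | cons s ω ih => rw [wd_cons, ih, stp_not cs f h]

theorem rel_aux {K : Finset B} (hf : ∀ i ∈ K, ∀ j ∈ K, alt (f i) (f j) (M i j) = alt (f j) (f i) (M i j))
    {r0 r1 : B} (hr : r0 ≠ r1) (hm : M r0 r1 ≠ 0) {a : W}
    (ha : ∀ j ∈ ({r0, r1} : Finset B), cs.length a < cs.length (cs.simple j * a)) (haK : IsMin cs K a) {k : ℕ}
    (hk : k ≤ M r0 r1) (hw : IsMin cs K (cs.wordProd (sw r0 r1 0 k) * a)) (g : H) :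
    wd cs f K (sw r0 r1 0 (M r0 r1)) (cs.wordProd (sw r0 r1 0 k) * a, g) =
      wd cs f K (sw r0 r1 1 (M r0 r1)) (cs.wordProd (sw r0 r1 0 k) * a, g) := by
  obtain ⟨m', hm'⟩ : ∃ m', M r0 r1 = m' + 1 := ⟨M r0 r1 - 1, by omega⟩
  rcases k with _ | k'
  · -- the bottom
    have e0 : cs.wordProd (sw r0 r1 0 0) * a = a := by
      rw [sw_nil, cs.wordProd_nil, one_mul]
    rw [e0]
    obtain ⟨w', x, e, hx, hw'⟩ := exists_minrep cs K (cs.wordProd (sw r0 r1 0 (M r0 r1)) * a)
    have hl : ∀ q, cs.length (cs.wordProd (sw r0 r1 q (M r0 r1)) * a) = (sw r0 r1 q (M r0 r1)).length + cs.length a := by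
      intro q
      rw [len_addL cs ha (sw_para cs q _), (sw_red cs hr q le_rfl).eq]
    rw [wd_up cs f hf _ (sw_red cs hr 0 le_rfl) haK (hl 0) g w' x hw' hx e,
      wd_up cs f hf _ (sw_red cs hr 1 le_rfl) haK (hl 1) g w' x hw' hx (by rw [← sw_braid, e])]
  · have hlen : ∀ q n, n ≤ M r0 r1 → cs.length (cs.wordProd (sw r0 r1 q n)) = n := by
      intro q n hn
      rw [(sw_red cs hr q hn).eq, sw_len]
    have hr0a : IsMin cs K (cs.simple r0 * a) := by
      have e1 : cs.wordProd (sw r0 r1 0 (k' + 1)) * a = cs.wordProd (sw r0 r1 1 k') * (cs.simple r0 * a) := by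
        rw [add_comm k' 1, sw_add, cs.wordProd_append, mul_assoc]
        rw [sw_single, cs.wordProd_singleton]
        rfl
      rw [e1] at hw
      refine IsMin.suffix cs hw ?_
      rw [← e1, len_addL cs ha (sw_para cs 0 _), hlen 0 _ hk, hlen 1 k' (by omega)]
      have h2 := ha r0 (Finset.mem_insert_self _ _)
      rcases cs.length_simple_mul a r0 with h3 | h3 <;> omega
    by_cases hr1a : IsMin cs K (cs.simple r1 * a)
    · -- no obstruction
      have hall : ∀ v ∈ para cs {r0, r1}, IsMin cs K (v * a) := by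
        intro v hv
        by_contra h
        obtain ⟨r, hr', h1, _⟩ := exists_bad cs ha haK v hv h
        rw [Finset.mem_insert, Finset.mem_singleton] at hr'
        rcases hr' with h2 | h2
        · rw [h2] at h1; exact h1 hr0a
        · rw [h2] at h1; exact h1 hr1a
      have hfree : ∀ q, wd cs f K (sw r0 r1 q (M r0 r1)) (cs.wordProd (sw r0 r1 0 (k' + 1)) * a, g) =
          (cs.wordProd (sw r0 r1 q (M r0 r1)) * (cs.wordProd (sw r0 r1 0 (k' + 1)) * a), g) := by
        intro q
        refine wd_free cs f _ (fun τ hτ => ?_) g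
        rw [← mul_assoc]
        refine hall _ (mul_mem (wordProd_mem_para cs τ fun x hx => ?_) (sw_para cs _ _))
        rw [Finset.mem_insert, Finset.mem_singleton]
        exact sw_mem r0 r1 q _ x (hτ.mem hx)
      rw [hfree 0, hfree 1, sw_braid]
    · obtain ⟨t, ht, hta⟩ := (dich cs haK r1).resolve_left hr1a
      have hp : ∀ l, l ≤ m' → IsMin cs K (cs.wordProd (sw r0 r1 0 l) * a) := by
        intro l hl
        by_contra h
        obtain ⟨r, hr', h1, h2⟩ := exists_bad cs ha haK _ (sw_para cs 0 l) h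
        rw [Finset.mem_insert, Finset.mem_singleton] at hr'
        rcases hr' with h3 | h3
        · rw [h3] at h1; exact h1 hr0a
        · have e1 : cs.wordProd (sw r0 r1 1 (1 + l)) = cs.wordProd (sw r0 r1 0 l) * cs.simple r1 := by
            rw [sw_add, cs.wordProd_append, show 1 + 1 = 0 + 2 * 1 from rfl, sw_par]
            rw [sw_single, cs.wordProd_singleton]
            rfl
          rw [h3, ← e1, hlen 1 _ (by omega), hlen 0 l (by omega)] at h2
          omega
      have htop : cs.simple (cl r0 r1 m') * (cs.wordProd (sw r0 r1 0 m') * a) =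
          (cs.wordProd (sw r0 r1 0 m') * a) * cs.simple t := by
        have e1 : cs.wordProd (sw r0 r1 0 (m' + 1)) = cs.simple (cl r0 r1 m') * cs.wordProd (sw r0 r1 0 m') := by
          rw [sw_succ, cs.wordProd_cons, zero_add]
        have e2 : cs.wordProd (sw r0 r1 1 (1 + m')) = cs.wordProd (sw r0 r1 0 m') * cs.simple r1 := by
          rw [sw_add, cs.wordProd_append, show 1 + 1 = 0 + 2 * 1 from rfl, sw_par]
          rw [sw_single, cs.wordProd_singleton]
          rfl
        rw [← mul_assoc, ← e1, ← hm', sw_braid, hm', add_comm m' 1, e2, mul_assoc, hta, mul_assoc]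
      have hkm : k' + 1 ≤ m' := by
        by_contra h
        have h1 : k' + 1 = m' + 1 := by omega
        rw [h1] at hw
        have e1 : cs.wordProd (sw r0 r1 0 (m' + 1)) = cs.simple (cl r0 r1 m') * cs.wordProd (sw r0 r1 0 m') := by
          rw [sw_succ, cs.wordProd_cons, zero_add]
        rw [e1, mul_assoc, htop] at hw
        exact not_isMin cs (hp m' le_rfl) ht hw
      have hstep : ∀ l, cs.simple (cl r0 r1 l) * (cs.wordProd (sw r0 r1 0 l) * a) =
          cs.wordProd (sw r0 r1 0 (l + 1)) * a := by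
        intro l
        rw [sw_succ, cs.wordProd_cons, zero_add, mul_assoc]
      have hup : ∀ n l g, l + n ≤ m' → wd cs f K (sw r0 r1 l n) (cs.wordProd (sw r0 r1 0 l) * a, g) =
          (cs.wordProd (sw r0 r1 0 (l + n)) * a, g) := by
        intro n
        induction n with
        | zero => intro l g _; rfl
        | succ n ih =>
          intro l g hl
          rw [sw_succ, wd_cons, ih l g (by omega), stp_in cs f (hp _ (by omega)) (by rw [hstep]; exact hp _ (by omega)), hstep,
            add_assoc]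
      have hdown : ∀ n l g, n ≤ l → l ≤ m' → wd cs f K (sw r0 r1 (l + 1) n) (cs.wordProd (sw r0 r1 0 l) * a, g) =
          (cs.wordProd (sw r0 r1 0 (l - n)) * a, g) := by
        intro n
        induction n with
        | zero => intro l g _ _; rfl
        | succ n ih =>
          intro l g hl hl'
          obtain ⟨q, hq⟩ : ∃ q, l - n = q + 1 := ⟨l - n - 1, by omega⟩
          have hq2 : l - (n + 1) = q := by omega
          have hcl : cl r0 r1 (l + 1 + n) = cl r0 r1 q := by
            rw [show l + 1 + n = q + 2 * (n + 1) by omega, cl_par]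
          have e2 : cs.simple (cl r0 r1 q) * (cs.wordProd (sw r0 r1 0 (q + 1)) * a) =
              cs.wordProd (sw r0 r1 0 q) * a := by
            rw [← hstep q, cs.simple_mul_simple_cancel_left]
          rw [sw_succ, wd_cons, ih l g (by omega) hl', hq, hq2, hcl,
            stp_in cs f (hp _ (by omega)) (by rw [e2]; exact hp _ (by omega)), e2]
      obtain ⟨d, hd⟩ : ∃ d, k' + 1 + d = m' := ⟨m' - (k' + 1), by omega⟩
      obtain ⟨k, hkk⟩ : ∃ k, k = k' + 1 := ⟨_, rfl⟩
      rw [← hkk] at hd hkm ⊢
      have hXup : wd cs f K (sw r0 r1 k (m' + 1)) (cs.wordProd (sw r0 r1 0 k) * a, g) =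
          (cs.wordProd (sw r0 r1 0 d) * a, f t * g) := by
        rw [show m' + 1 = d + (1 + k) by omega, sw_add, wd_append, hup d k g (by omega), hd, sw_add, wd_append]
        have e1 : wd cs f K (sw r0 r1 m' 1) (cs.wordProd (sw r0 r1 0 m') * a, g) =
            (cs.wordProd (sw r0 r1 0 m') * a, f t * g) := by
          rw [sw_single, wd_cons, wd_nil, stp_out cs f (hp m' le_rfl) ht htop]
        rw [e1, hdown k m' (f t * g) hkm le_rfl, show m' - k = d by omega]
      have hXdown : wd cs f K (sw r0 r1 (k + 1) (m' + 1)) (cs.wordProd (sw r0 r1 0 k) * a, g) =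
          (cs.wordProd (sw r0 r1 0 d) * a, f t * g) := by
        rw [show m' + 1 = k + (1 + d) by omega, sw_add, wd_append, hdown k k g le_rfl hkm, Nat.sub_self, sw_add, wd_append]
        have e1 : wd cs f K (sw r0 r1 (k + 1 + k) 1) (cs.wordProd (sw r0 r1 0 0) * a, g) =
            (cs.wordProd (sw r0 r1 0 0) * a, f t * g) := by
          rw [sw_single, sw_nil, wd_cons, wd_nil, show k + 1 + k = 1 + 2 * k by ring, cl_par, cs.wordProd_nil, one_mul]
          have : cl r0 r1 1 = r1 := rfl
          rw [this, stp_out cs f haK ht hta]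
        rw [e1, show k + 1 + k + 1 = 0 + 2 * (k + 1) by ring, sw_par, hup d 0 (f t * g) (by omega), zero_add]
      rw [hm']
      rcases Nat.even_or_odd k with ⟨q, hq⟩ | ⟨q, hq⟩
      · have e1 : sw r0 r1 k (m' + 1) = sw r0 r1 0 (m' + 1) := by
          rw [show k = 0 + 2 * q by omega, sw_par]
        have e2 : sw r0 r1 (k + 1) (m' + 1) = sw r0 r1 1 (m' + 1) := by
          rw [show k + 1 = 1 + 2 * q by omega, sw_par]
        rw [← e1, ← e2, hXup, hXdown]
      · have e1 : sw r0 r1 k (m' + 1) = sw r0 r1 1 (m' + 1) := by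
          rw [show k = 1 + 2 * q by omega, sw_par]
        have e2 : sw r0 r1 (k + 1) (m' + 1) = sw r0 r1 0 (m' + 1) := by
          rw [show k + 1 = 0 + 2 * (q + 1) by omega, sw_par]
        rw [← e1, ← e2, hXup, hXdown]

theorem stp_rel {K : Finset B} (hf : ∀ i ∈ K, ∀ j ∈ K, alt (f i) (f j) (M i j) = alt (f j) (f i) (M i j))
    {i j : B} (hij : i ≠ j) (hm : M i j ≠ 0) (p : W × H) :
    wd cs f K (sw i j 0 (M i j)) p = wd cs f K (sw i j 1 (M i j)) p := by
  obtain ⟨w, g⟩ := p
  by_cases hw : IsMin cs K w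
  · obtain ⟨u, v, e, hv, hu⟩ := exists_minrep cs {i, j} w⁻¹
    obtain ⟨a, ha⟩ : ∃ a, a = u⁻¹ := ⟨_, rfl⟩
    obtain ⟨b, hb⟩ : ∃ b, b = v⁻¹ := ⟨_, rfl⟩
    have hwba : w = b * a := by
      rw [ha, hb, ← mul_inv_rev, ← e, inv_inv]
    have hbJ : b ∈ para cs {i, j} := by
      rw [hb]; exact inv_mem hv
    have haJ : ∀ r ∈ ({i, j} : Finset B), cs.length a < cs.length (cs.simple r * a) := by
      intro r hr
      have h1 := hu r hr
      rw [ha, len_inv_mul, inv_inv, cs.inv_simple, cs.length_inv]
      exact h1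
    have haK : IsMin cs K a := by
      rw [hwba] at hw
      exact IsMin.suffix cs hw (len_addL cs haJ hbJ)
    obtain ⟨r0, r1, hr, k, hk, hbk⟩ := two_letters cs hij hm hbJ
    rw [hwba, hbk]
    rw [hwba, hbk] at hw
    rcases hr with ⟨h1, h2⟩ | ⟨h1, h2⟩
    · subst h1 h2
      exact rel_aux cs f hf hij hm haJ haK hk hw g
    · subst h1 h2
      have h3 := rel_aux cs f hf hij.symm (by rw [M.symmetric]; exact hm) (by rw [Finset.pair_comm]; exact haJ) haK
        (by rw [M.symmetric]; exact hk) hw g
      rw [M.symmetric] at h3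
      rw [sw_one]
      rw [sw_one] at h3
      exact h3.symm
  · rw [wd_not cs f _ hw, wd_not cs f _ hw]

theorem altWord_aw (i j : B) (m : ℕ) : alternatingWord i j m = if Even m then aw i j m else aw j i m := by
  induction m with
  | zero => simp [alternatingWord, aw]
  | succ m ih =>
    rw [alternatingWord_succ', ih]
    rcases Nat.even_or_odd m with h | h
    · rw [if_pos h, if_pos h, if_neg (by rw [Nat.even_add_one]; simpa using h), aw_succ]
    · have h' : ¬ Even m := by simpa using h
      rw [if_neg h', if_neg h', if_pos (by rw [Nat.even_add_one]; exact h'), aw_succ]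

theorem stp_alt {K : Finset B} (hf : ∀ i ∈ K, ∀ j ∈ K, alt (f i) (f j) (M i j) = alt (f j) (f i) (M i j)) (i j : B) :
    alt (stp cs f K i) (stp cs f K j) (M i j) = alt (stp cs f K j) (stp cs f K i) (M i j) := by
  by_cases hij : i = j
  · rw [hij]
  · by_cases hm : M i j = 0
    · rw [hm, alt_zero, alt_zero]
    · have h1 : wd cs f K (alternatingWord j i (M i j)) = wd cs f K (alternatingWord i j (M i j)) := by
        refine Equiv.ext fun p => ?_
        have h2 := stp_rel cs f hf hij hm p
        rwa [sw_one, sw_zero, sw_zero] at h2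
      rw [← aw_prod, ← aw_prod]
      rw [altWord_aw, altWord_aw] at h1
      unfold wd at h1
      split_ifs at h1
      · exact h1.symm
      · exact h1

/-- the action -/
noncomputable def Aact {K : Finset B} (hf : ∀ i ∈ K, ∀ j ∈ K, alt (f i) (f j) (M i j) = alt (f j) (f i) (M i j)) :
    Artin M →* Equiv.Perm (W × H) := Artin.lift (stp cs f K) (stp_alt cs f hf)

theorem Aact_base {K : Finset B} (hf : ∀ i ∈ K, ∀ j ∈ K, alt (f i) (f j) (M i j) = alt (f j) (f i) (M i j))
    {x : Artin M} (hx : x ∈ AJ M K) (g : H) :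
    Aact cs f hf x ((1 : W), g) = ((1 : W), (Aact cs f hf x ((1 : W), (1 : H))).2 * g) := by
  unfold AJ at hx
  induction hx using Subgroup.closure_induction generalizing g with
  | mem x hx =>
    obtain ⟨i, hi, rfl⟩ := hx
    have h1 : ∀ g, Aact cs f hf (Artin.gen M i) ((1 : W), g) = ((1 : W), f i * g) := by
      intro g
      unfold Aact
      rw [Artin.lift_gen, stp_out cs f (isMin_one cs K) (Finset.mem_coe.mp hi) (by rw [mul_one, one_mul])]
    rw [h1, h1, mul_one]
  | one => rw [map_one, Equiv.Perm.one_apply, Equiv.Perm.one_apply, one_mul]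
  | mul x y _ _ hx hy =>
    have h1 : ∀ g, Aact cs f hf (x * y) ((1 : W), g) = ((1 : W), (Aact cs f hf x ((1 : W), (1 : H))).2 *
        ((Aact cs f hf y ((1 : W), (1 : H))).2 * g)) := by
      intro g
      rw [map_mul, Equiv.Perm.mul_apply, hy, hx]
    rw [h1, h1, mul_one, mul_assoc]
  | inv x _ hx =>
    have h1 : ∀ g, Aact cs f hf x⁻¹ ((1 : W), g) = ((1 : W), ((Aact cs f hf x ((1 : W), (1 : H))).2)⁻¹ * g) := by
      intro g
      rw [map_inv, Equiv.Perm.inv_eq_iff_eq, hx, mul_inv_cancel_left]
    rw [h1, h1, mul_one]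

/-- **Van der Lek's theorem**, in the form of a universal property of the standard parabolic subgroups. -/
theorem exists_hom {K : Finset B} (hf : ∀ i ∈ K, ∀ j ∈ K, alt (f i) (f j) (M i j) = alt (f j) (f i) (M i j)) :
    ∃ F : AJ M K →* H, ∀ x : AJ M K, ∀ i ∈ K, (x : Artin M) = Artin.gen M i → F x = f i := by
  let cs := M.toCoxeterSystem
  refine ⟨{ toFun := fun x => (Aact cs f hf (x : Artin M) ((1 : M.Group), (1 : H))).2, map_one' := ?_, map_mul' := ?_ }, ?_⟩
  · rw [Subgroup.coe_one, map_one, Equiv.Perm.one_apply]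
  · intro x y
    rw [Subgroup.coe_mul, map_mul, Equiv.Perm.mul_apply, Aact_base cs f hf y.2, mul_one, Aact_base cs f hf x.2]
  · intro x i hi hx
    simp only [MonoidHom.coe_mk, OneHom.coe_mk]
    rw [hx]
    unfold Aact
    rw [Artin.lift_gen, stp_out cs f (isMin_one cs K) hi (by rw [mul_one, one_mul]), mul_one]

end

end Pool.Agent.H77AR
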