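import Pool.Agent.H77AR.E2

/-!
# Exactness of the Salvetti complex in degree one
-/

set_option autoImplicit false
set_option linter.unusedSectionVars false

namespace Pool.Agent.H77AR

open CoxeterSystem Pool.Agent.Helper741 Finset Pool.Agent.H77RA

variable {B : Type} {M : CoxeterMatrix B} [Fintype B] [LinearOrder B] {W : Type} [Group W] (cs : CoxeterSystem M W)

theorem bdQ_add (c c' : Finset B → MonoidAlgebra ℤ (Artin M)) :
    bdQ (Pc cs) (c + c') = bdQ (Pc cs) c + bdQ (Pc cs) c' := by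
  funext τ
  unfold bdQ
  simp only [Pi.add_apply, add_mul, smul_add, sum_add_distrib]

theorem bdQ_sub (c c' : Finset B → MonoidAlgebra ℤ (Artin M)) :
    bdQ (Pc cs) (c - c') = bdQ (Pc cs) c - bdQ (Pc cs) c' := by
  funext τ
  unfold bdQ
  simp only [Pi.sub_apply, sub_mul, smul_sub, sum_sub_distrib]

theorem bdQ_zero : bdQ (Pc cs) (0 : Finset B → MonoidAlgebra ℤ (Artin M)) = 0 := by
  funext τ
  unfold bdQ
  simp

theorem bdQ_smul (a : MonoidAlgebra ℤ (Artin M)) (c : Finset B → MonoidAlgebra ℤ (Artin M)) :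
    bdQ (Pc cs) (a • c) = a • bdQ (Pc cs) c := by
  funext τ
  unfold bdQ
  rw [Pi.smul_apply, smul_sum]
  refine sum_congr rfl fun v _ => ?_
  rw [Pi.smul_apply, smul_eq_mul, smul_eq_mul, mul_smul_comm, mul_assoc]

theorem Chn.add {X : Finset B → Prop} {n : ℕ} {c c' : Finset B → MonoidAlgebra ℤ (Artin M)} (h : Chn X n c)
    (h' : Chn X n c') : Chn X n (c + c') := by
  intro T hT
  by_cases h4 : c T = 0
  · rw [Pi.add_apply, h4, zero_add] at hT
    exact h' T hT
  · exact h T h4

theorem Chn.sub {X : Finset B → Prop} {n : ℕ} {c c' : Finset B → MonoidAlgebra ℤ (Artin M)} (h : Chn X n c)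
    (h' : Chn X n c') : Chn X n (c - c') := by
  intro T hT
  by_cases h4 : c T = 0
  · rw [Pi.sub_apply, h4, zero_sub, neg_ne_zero] at hT
    exact h' T hT
  · exact h T h4

theorem Chn.smul {X : Finset B → Prop} {n : ℕ} {c : Finset B → MonoidAlgebra ℤ (Artin M)} (h : Chn X n c)
    (a : MonoidAlgebra ℤ (Artin M)) : Chn X n (a • c) := by
  intro T hT
  refine h T fun h1 => hT ?_
  rw [Pi.smul_apply, h1, smul_zero]

theorem Chn.zero {X : Finset B → Prop} {n : ℕ} : Chn X n (0 : Finset B → MonoidAlgebra ℤ (Artin M)) :=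
  fun _ hT => absurd rfl hT

/-- the boundaries in degree one -/
def Pbd (K : Finset B) : Submodule (MonoidAlgebra ℤ (Artin M)) (Finset B → MonoidAlgebra ℤ (Artin M)) where
  carrier := {x | ∃ c', Chn (fun S => Sph cs S ∧ S ⊆ K) 2 c' ∧ bdQ (Pc cs) c' = x}
  add_mem' := by
    rintro _ _ ⟨c, h1, rfl⟩ ⟨c', h2, rfl⟩
    exact ⟨c + c', h1.add h2, bdQ_add cs c c'⟩
  zero_mem' := ⟨0, Chn.zero, bdQ_zero cs⟩
  smul_mem' := by
    rintro a _ ⟨c, h1, rfl⟩
    exact ⟨a • c, h1.smul a, bdQ_smul cs a c⟩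

/-- the coefficients of the differential of a pair -/
theorem Pc_pair {i j : B} (hij : i ≠ j) (hm : M i j ≠ 0) (hs : Sph cs {i, j}) :
    Pc cs {i, j} {i} = ∑ k ∈ range (M i j), (-1 : ℤ) ^ k •
      MonoidAlgebra.of ℤ (Artin M) (if Even k then alt (Artin.gen M i) (Artin.gen M j) k
        else alt (Artin.gen M j) (Artin.gen M i) k) := by
  classical
  have hMji : M j i = M i j := M.symmetric j i
  have hlen : ∀ q n, n ≤ M i j → cs.length (cs.wordProd (sw j i q n)) = n := by
    intro q n hn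
    rw [(sw_red cs (Ne.symm hij) q (by rw [hMji]; exact hn)).eq, sw_len]
  have hend : ∀ n, cs.wordProd (sw j i 1 (1 + n)) = cs.wordProd (sw j i 0 n) * cs.simple i := by
    intro n
    rw [sw_add, cs.wordProd_append, show 1 + 1 = 0 + 2 * 1 from rfl, sw_par, sw_single, cs.wordProd_singleton]
    rfl
  have hFW : FW cs {i, j} {i} = (range (M i j)).image (fun k => cs.wordProd (sw j i 0 k)) := by
    ext w
    rw [mem_FW cs hs, mem_image]
    constructor
    · rintro ⟨h1, h2⟩
      have h2' := h2 i (mem_singleton_self i)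
      obtain ⟨r0, r1, hr, k, hk, hwk⟩ := two_letters cs hij hm h1
      rcases hr with ⟨h3, h4⟩ | ⟨h3, h4⟩
      · rw [h3, h4] at hwk
        rcases k with _ | k
        · refine ⟨0, mem_range.mpr (Nat.pos_of_ne_zero hm), ?_⟩
          rw [hwk]
          rfl
        · exfalso
          have e1 : cs.wordProd (sw i j 0 (k + 1)) = cs.wordProd (sw j i 0 k) * cs.simple i := by
            rw [← sw_one, add_comm k 1, hend]
          rw [hwk, e1, cs.simple_mul_simple_cancel_right, ← e1, hlen 0 k (by omega)] at h2'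
          rw [← sw_one, hlen 1 (k + 1) hk] at h2'
          omega
      · rw [h3, h4] at hwk
        refine ⟨k, mem_range.mpr ?_, hwk.symm⟩
        refine lt_of_le_of_ne hk ?_
        intro hkm
        obtain ⟨m', hm'⟩ : ∃ m', M i j = 1 + m' := ⟨M i j - 1, by omega⟩
        have hb := sw_braid cs j i
        rw [hMji] at hb
        rw [hwk, hkm, hb, hm', hend, cs.simple_mul_simple_cancel_right, ← hend, hlen 0 m' (by omega),
          hlen 1 (1 + m') (by omega)] at h2'
        omega
    · rintro ⟨k, hk, rfl⟩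
      rw [mem_range] at hk
      refine ⟨?_, ?_⟩
      · have := sw_para cs (r0 := j) (r1 := i) 0 k
        rwa [pair_comm] at this
      · intro r hr
        rw [mem_singleton.mp hr, ← hend, hlen 0 k hk.le, hlen 1 (1 + k) (by omega)]
        omega
  unfold Pc
  rw [hFW, sum_image]
  · refine sum_congr rfl fun k hk => ?_
    rw [mem_range] at hk
    unfold el1
    rw [hlen 0 k hk.le, sec_eq cs _ (sw_red cs (Ne.symm hij) 0 (by rw [hMji]; exact hk.le)), sw_zero, altWord_aw]
    congr 2
    split_ifs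
    · rw [aw_prod]
    · rw [aw_prod]
  · intro k hk k' hk' h
    rw [coe_range, Set.mem_Iio] at hk hk'
    simp only at h
    rw [← hlen 0 k hk.le, h, hlen 0 k' hk'.le]

theorem sph_pair {i j : B} (hij : i ≠ j) (hm : M i j ≠ 0) : Sph cs {i, j} := by
  classical
  unfold Sph
  have h1 : ((para cs {i, j} : Subgroup W) : Set W) ⊆ ((range (M i j + 1)).image (fun k => cs.wordProd (sw i j 0 k)) ∪
      (range (M i j + 1)).image (fun k => cs.wordProd (sw j i 0 k)) : Finset W) := by
    intro w hw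
    obtain ⟨r0, r1, hr, k, hk, hwk⟩ := two_letters cs hij hm hw
    rw [mem_coe, mem_union, mem_image, mem_image]
    rcases hr with ⟨h3, h4⟩ | ⟨h3, h4⟩
    · rw [h3, h4] at hwk
      exact Or.inl ⟨k, mem_range.mpr (by omega), hwk.symm⟩
    · rw [h3, h4] at hwk
      exact Or.inr ⟨k, mem_range.mpr (by omega), hwk.symm⟩
  exact (Finset.finite_toSet _).subset h1

end Pool.Agent.H77AR
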