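import Pool.Agent.H77AR.X1

/-!
# Exactness of the Salvetti complex in degree one, second part
-/

set_option autoImplicit false
set_option linter.unusedSectionVars false

namespace Pool.Agent.H77AR

open CoxeterSystem Pool.Agent.Helper741 Finset Pool.Agent.H77RA

variable {B : Type} {M : CoxeterMatrix B} [Fintype B] [LinearOrder B] {W : Type} [Group W] (cs : CoxeterSystem M W)

/-- the group ring element of a group element -/
noncomputable abbrev oe (x : Artin M) : MonoidAlgebra ℤ (Artin M) := MonoidAlgebra.of ℤ (Artin M) x

/-- the quotient -/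
abbrev QK (K : Finset B) : Type := (Finset B → MonoidAlgebra ℤ (Artin M)) ⧸ Pbd cs K

/-- the basis elements -/
noncomputable def eK (K : Finset B) (s : B) : QK cs K := (Pbd cs K).mkQ (Pi.single {s} 1)

/-- the affine maps -/
noncomputable def fK (K : Finset B) (s : B) : Equiv.Perm (QK cs K) where
  toFun q := oe (Artin.gen M s) • q + eK cs K s
  invFun q := oe (Artin.gen M s)⁻¹ • (q - eK cs K s)
  left_inv q := by
    simp only [add_sub_cancel_right]
    rw [← mul_smul, ← map_mul, inv_mul_cancel, map_one, one_smul]
  right_inv q := by
    simp only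
    rw [← mul_smul, ← map_mul, mul_inv_cancel, map_one, one_smul, sub_add_cancel]

theorem fK_apply (K : Finset B) (s : B) (q : QK cs K) : fK cs K s q = oe (Artin.gen M s) • q + eK cs K s := rfl

theorem fK_alt (K : Finset B) (i j : B) (m : ℕ) (q : QK cs K) :
    alt (fK cs K i) (fK cs K j) m q = oe (alt (Artin.gen M i) (Artin.gen M j) m) • q +
      ∑ k ∈ range m, oe (alt (Artin.gen M i) (Artin.gen M j) k) • eK cs K (if Even k then i else j) := by
  induction m generalizing q with
  | zero =>
    have h1 : oe (1 : Artin M) = 1 := map_one _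
    rw [alt_zero, alt_zero, Equiv.Perm.one_apply, h1, one_smul, range_zero, sum_empty, add_zero]
  | succ m ih =>
    rw [alt_succ', Equiv.Perm.mul_apply]
    have h1 : (if Even m then fK cs K i else fK cs K j) q =
        oe (if Even m then Artin.gen M i else Artin.gen M j) • q + eK cs K (if Even m then i else j) := by
      split_ifs
      · rfl
      · rfl
    rw [h1, ih, alt_succ', sum_range_succ, smul_add, ← mul_smul, ← map_mul, add_assoc]
    congr 1
    rw [add_comm]

theorem fK_rel (K : Finset B) : ∀ i ∈ K, ∀ j ∈ K, alt (fK cs K i) (fK cs K j) (M i j) =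
    alt (fK cs K j) (fK cs K i) (M i j) := by
  intro i hi j hj
  by_cases hij : i = j
  · rw [hij]
  · by_cases hm : M i j = 0
    · rw [hm, alt_zero, alt_zero]
    · have hs := sph_pair cs hij hm
      refine Equiv.ext fun q => ?_
      rw [fK_alt, fK_alt, Artin.rel i j]
      congr 1
      rw [← sub_eq_zero]
      have hlift : ∀ a b : B, (∑ k ∈ range (M i j), oe (alt (Artin.gen M a) (Artin.gen M b) k) •
          eK cs K (if Even k then a else b)) = (Pbd cs K).mkQ (∑ k ∈ range (M i j),
            oe (alt (Artin.gen M a) (Artin.gen M b) k) • Pi.single {if Even k then a else b} 1) := by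
        intro a b
        rw [map_sum]
        refine sum_congr rfl fun k _ => ?_
        rw [map_smul]
        rfl
      rw [hlift, hlift, ← map_sub, Submodule.mkQ_apply, Submodule.Quotient.mk_eq_zero]
      -- the difference is a boundary
      obtain ⟨ε, hε⟩ : ∃ ε, ε = sgn j {i} := ⟨_, rfl⟩
      have hε2 : ε * ε = 1 := by rw [hε]; exact sgn_sq _ _
      have hε3 : sgn i {j} = - ε := by
        rw [hε]
        unfold sgn
        rcases lt_or_gt_of_ne hij with h | h
        · rw [filter_singleton, filter_singleton, if_neg h.not_gt, if_pos h]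
          simp
        · rw [filter_singleton, filter_singleton, if_pos h, if_neg h.not_gt]
          simp
      refine ⟨ε • Pi.single {i, j} 1, ?_, ?_⟩
      · intro T hT
        by_cases hT' : T = {i, j}
        · rw [hT']
          refine ⟨⟨hs, ?_⟩, card_pair hij⟩
          intro r hr
          rw [mem_insert, mem_singleton] at hr
          rcases hr with h | h
          · rw [h]; exact hi
          · rw [h]; exact hj
        · exfalso
          apply hT
          rw [Pi.smul_apply, Pi.single_eq_of_ne hT', smul_zero]
      · funext τ
        -- the value of the boundary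
        have hb : bdQ (Pc cs) (ε • Pi.single {i, j} 1) τ =
            (if τ = {i} then Pc cs {i, j} {i} else 0) - (if τ = {j} then Pc cs {i, j} {j} else 0) := by
          have hne : ({i} : Finset B) ≠ {j} := fun h => hij (singleton_injective h)
          by_cases h1 : τ = {i}
          · rw [if_pos h1, if_neg (by rw [h1]; exact hne), sub_zero, h1]
            unfold bdQ
            rw [sum_eq_single j]
            · rw [pair_comm j i, Pi.smul_apply, Pi.single_eq_same, ← hε, smul_mul_assoc, one_mul, smul_smul, hε2,
                one_smul]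
            · intro v hv hvj
              have hv' : v ≠ i := by simpa using hv
              have h2 : insert v {i} ≠ ({i, j} : Finset B) := by
                intro h
                have h3 : v ∈ ({i, j} : Finset B) := by rw [← h]; exact mem_insert_self _ _
                rw [mem_insert, mem_singleton] at h3
                exact h3.elim hv' hvj
              rw [Pi.smul_apply, Pi.single_eq_of_ne h2, smul_zero, zero_mul, smul_zero]
            · intro h
              exfalso
              apply h
              rw [mem_compl, mem_singleton]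
              exact Ne.symm hij
          · by_cases h2 : τ = {j}
            · rw [if_neg h1, if_pos h2, zero_sub, h2]
              unfold bdQ
              rw [sum_eq_single i]
              · rw [Pi.smul_apply, Pi.single_eq_same, hε3, smul_mul_assoc, one_mul, smul_smul, neg_mul, hε2,
                  neg_smul, one_smul]
              · intro v hv hvj
                have hv' : v ≠ j := by simpa using hv
                have h2 : insert v {j} ≠ ({i, j} : Finset B) := by
                  intro h
                  have h3 : v ∈ ({i, j} : Finset B) := by rw [← h]; exact mem_insert_self _ _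
                  rw [mem_insert, mem_singleton] at h3
                  exact h3.elim hvj hv'
                rw [Pi.smul_apply, Pi.single_eq_of_ne h2, smul_zero, zero_mul, smul_zero]
              · intro h
                exfalso
                apply h
                rw [mem_compl, mem_singleton]
                exact hij
            · rw [if_neg h1, if_neg h2, sub_zero]
              unfold bdQ
              refine sum_eq_zero fun v hv => ?_
              have h3 : insert v τ ≠ ({i, j} : Finset B) := by
                intro h
                have hvτ := mem_compl.mp hv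
                have h4 : τ = ({i, j} : Finset B).erase v := by rw [← h, erase_insert hvτ]
                have h5 : v ∈ ({i, j} : Finset B) := by rw [← h]; exact mem_insert_self _ _
                rw [mem_insert, mem_singleton] at h5
                rcases h5 with h5 | h5
                · apply h2
                  rw [h4, h5, erase_insert (by simpa using hij)]
                · apply h1
                  rw [h4, h5, pair_comm, erase_insert (by simpa using Ne.symm hij)]
              rw [Pi.smul_apply, Pi.single_eq_of_ne h3, smul_zero, zero_mul, smul_zero]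
        rw [hb]
        -- the value of the difference
        have hval : ∀ a b : B, a ≠ b → (∑ k ∈ range (M i j), oe (alt (Artin.gen M a) (Artin.gen M b) k) •
            (Pi.single {if Even k then a else b} 1 : Finset B → MonoidAlgebra ℤ (Artin M))) τ =
            (if τ = {a} then ∑ k ∈ range (M i j), (if Even k then oe (alt (Artin.gen M a) (Artin.gen M b) k) else 0)
              else 0) +
            (if τ = {b} then ∑ k ∈ range (M i j), (if Even k then 0 else oe (alt (Artin.gen M a) (Artin.gen M b) k))
              else 0) := by
          intro a b hab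
          have hne : ({a} : Finset B) ≠ {b} := fun h => hab (singleton_injective h)
          rw [Finset.sum_apply]
          by_cases h1 : τ = {a}
          · rw [if_pos h1, if_neg (by rw [h1]; exact hne), add_zero]
            refine sum_congr rfl fun k _ => ?_
            rw [Pi.smul_apply, h1, smul_eq_mul]
            split_ifs
            · rw [Pi.single_eq_same, mul_one]
            · rw [Pi.single_eq_of_ne hne, mul_zero]
          · by_cases h2 : τ = {b}
            · rw [if_neg h1, if_pos h2, zero_add]
              refine sum_congr rfl fun k _ => ?_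
              rw [Pi.smul_apply, h2, smul_eq_mul]
              split_ifs
              · rw [Pi.single_eq_of_ne hne.symm, mul_zero]
              · rw [Pi.single_eq_same, mul_one]
            · rw [if_neg h1, if_neg h2, add_zero]
              refine sum_eq_zero fun k _ => ?_
              rw [Pi.smul_apply, smul_eq_mul]
              split_ifs
              · rw [Pi.single_eq_of_ne h1, mul_zero]
              · rw [Pi.single_eq_of_ne h2, mul_zero]
        rw [Pi.sub_apply, hval i j hij, hval j i (Ne.symm hij), Pc_pair cs hij hm hs]
        have hPj : Pc cs {i, j} {j} = ∑ k ∈ range (M i j), (-1 : ℤ) ^ k •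
            oe (if Even k then alt (Artin.gen M j) (Artin.gen M i) k else alt (Artin.gen M i) (Artin.gen M j) k) := by
          have h := Pc_pair cs (i := j) (j := i) (Ne.symm hij) (by rw [M.symmetric]; exact hm) (by rw [pair_comm]; exact hs)
          rw [M.symmetric j i] at h
          rw [pair_comm i j]
          exact h
        rw [hPj]
        have hsum : ∀ a b : B, ∑ k ∈ range (M i j), (-1 : ℤ) ^ k •
            oe (if Even k then alt (Artin.gen M a) (Artin.gen M b) k else alt (Artin.gen M b) (Artin.gen M a) k) =
            (∑ k ∈ range (M i j), (if Even k then oe (alt (Artin.gen M a) (Artin.gen M b) k) else 0)) -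
            ∑ k ∈ range (M i j), (if Even k then 0 else oe (alt (Artin.gen M b) (Artin.gen M a) k)) := by
          intro a b
          rw [← sum_sub_distrib]
          refine sum_congr rfl fun k _ => ?_
          rcases Nat.even_or_odd k with h | h
          · rw [if_pos h, if_pos h, if_pos h, h.neg_one_pow, one_smul, sub_zero]
          · have h' : ¬ Even k := by simpa using h
            rw [if_neg h', if_neg h', if_neg h', h.neg_one_pow, neg_smul, one_smul, zero_sub]
        rw [hsum i j, hsum j i]
        split_ifs <;> abel

/-- **Fox calculus.** -/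
theorem exact_one (K : Finset B) {c : Finset B → MonoidAlgebra ℤ (Artin M)}
    (hc : Chn (fun S => Sph cs S ∧ S ⊆ K) 1 c) (hb : bdQ (Pc cs) c = 0) :
    ∃ c', Chn (fun S => Sph cs S ∧ S ⊆ K) 2 c' ∧ bdQ (Pc cs) c' = c := by
  classical
  obtain ⟨F, hF⟩ := exists_hom (M := M) (fK cs K) (fK_rel cs K)
  -- the crossed homomorphism
  have haff : ∀ x : Artin M, ∀ hx : x ∈ AJ M K, ∀ q : QK cs K, F ⟨x, hx⟩ q = oe x • q + F ⟨x, hx⟩ 0 := by
    intro x hx
    unfold AJ at hx
    induction hx using Subgroup.closure_induction with
    | mem x hx =>
      intro q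
      obtain ⟨s, hs, rfl⟩ := hx
      rw [hF _ s (mem_coe.mp hs) rfl, fK_apply, fK_apply, smul_zero, zero_add]
    | one =>
      intro q
      have : (⟨1, one_mem _⟩ : AJ M K) = 1 := rfl
      rw [this, map_one, Equiv.Perm.one_apply, Equiv.Perm.one_apply, add_zero]
      change q = MonoidAlgebra.of ℤ (Artin M) 1 • q
      rw [map_one, one_smul]
    | mul x y hx' hy' hx hy =>
      intro q
      have : (⟨x * y, mul_mem hx' hy'⟩ : AJ M K) = ⟨x, hx'⟩ * ⟨y, hy'⟩ := rfl
      rw [this, map_mul, Equiv.Perm.mul_apply, Equiv.Perm.mul_apply, hy q, hx (_ + _), hx (F ⟨y, hy'⟩ 0), smul_add,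
        ← mul_smul, add_assoc]
      change _ = MonoidAlgebra.of ℤ (Artin M) (x * y) • q + _
      rw [map_mul]
    | inv x hx' hx =>
      intro q
      have e0 : (⟨x⁻¹, inv_mem hx'⟩ : AJ M K) = ⟨x, hx'⟩⁻¹ := rfl
      have e1 : ∀ q, (F ⟨x, hx'⟩)⁻¹ q = oe x⁻¹ • (q - F ⟨x, hx'⟩ 0) := by
        intro q
        rw [Equiv.Perm.inv_eq_iff_eq, hx (_ • _), ← mul_smul, ← map_mul, mul_inv_cancel, map_one, one_smul,
          sub_add_cancel]
      rw [e0, map_inv, e1, e1 0, ← smul_add]
      congr 1
      abel
  obtain ⟨del, hdel⟩ : ∃ del : Artin M → QK cs K, ∀ x, ∀ hx : x ∈ AJ M K, del x = F ⟨x, hx⟩ 0 :=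
    ⟨fun x => if hx : x ∈ AJ M K then F ⟨x, hx⟩ 0 else 0, fun x hx => by simp only [hx, dif_pos]⟩
  have hgenA : ∀ s ∈ K, Artin.gen M s ∈ AJ M K := fun s hs => PM_AJ (gen_mem_PM hs)
  have hdel_mul : ∀ x ∈ AJ M K, ∀ s ∈ K, del (x * Artin.gen M s) = del x + oe x • eK cs K s := by
    intro x hx s hs
    rw [hdel _ (mul_mem hx (hgenA s hs)), hdel x hx]
    have : (⟨x * Artin.gen M s, mul_mem hx (hgenA s hs)⟩ : AJ M K) = ⟨x, hx⟩ * ⟨Artin.gen M s, hgenA s hs⟩ := rfl
    rw [this, map_mul, Equiv.Perm.mul_apply, hF ⟨Artin.gen M s, hgenA s hs⟩ s hs rfl, fK_apply, smul_zero, zero_add,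
      haff x hx (eK cs K s), add_comm]
  -- representatives
  obtain ⟨r, hr⟩ : ∃ r : Artin M → Artin M, r = fun y => (QuotientGroup.mk y : Artin M ⧸ AJ M K).out := ⟨_, rfl⟩
  have hr1 : ∀ y, ∀ g ∈ AJ M K, r (y * g) = r y := by
    intro y g hg
    rw [hr]
    simp only
    congr 1
    rw [QuotientGroup.eq]
    have : (y * g)⁻¹ * y = g⁻¹ := by group
    rw [this]
    exact inv_mem hg
  have hr2 : ∀ y, (r y)⁻¹ * y ∈ AJ M K := by
    intro y
    rw [hr]
    simp only
    rw [← QuotientGroup.eq]
    exact QuotientGroup.out_eq' _
  obtain ⟨dd, hdd⟩ : ∃ dd : Artin M → QK cs K, dd = fun y => oe (r y) • del ((r y)⁻¹ * y) := ⟨_, rfl⟩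
  have hdd_mul : ∀ y, ∀ s ∈ K, dd (y * Artin.gen M s) = dd y + oe y • eK cs K s := by
    intro y s hs
    rw [hdd]
    simp only
    rw [hr1 y _ (hgenA s hs), ← mul_assoc, hdel_mul _ (hr2 y) s hs, smul_add, ← mul_smul, ← map_mul, mul_inv_cancel_left]
  -- the additive extension
  obtain ⟨DD, hDD⟩ : ∃ DD : MonoidAlgebra ℤ (Artin M) →+ QK cs K, ∀ y (n : ℤ), DD (MonoidAlgebra.single y n) = n • dd y := by
    refine ⟨(Finsupp.liftAddHom (fun y => (zmultiplesHom (QK cs K) (dd y) : ℤ →+ QK cs K))).comp
      { toFun := MonoidAlgebra.coeff, map_zero' := rfl, map_add' := fun _ _ => rfl }, fun y n => ?_⟩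
    rw [AddMonoidHom.comp_apply]
    change Finsupp.liftAddHom (fun y => (zmultiplesHom (QK cs K) (dd y) : ℤ →+ QK cs K)) (Finsupp.single y n) = _
    rw [Finsupp.liftAddHom_apply_single, zmultiplesHom_apply]
  have hkey : ∀ s ∈ K, ∀ x : MonoidAlgebra ℤ (Artin M), DD (x * (1 - oe (Artin.gen M s))) = - (x • eK cs K s) := by
    intro s hs x
    have hx : x = ∑ y ∈ x.coeff.support, MonoidAlgebra.single y (x.coeff y) := by
      apply MonoidAlgebra.coeff_injective
      rw [MonoidAlgebra.coeff_sum]
      exact (Finsupp.sum_single x.coeff).symm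
    have h1 : ∀ y (n : ℤ), DD (MonoidAlgebra.single y n * (1 - oe (Artin.gen M s))) =
        - ((MonoidAlgebra.single y n : MonoidAlgebra ℤ (Artin M)) • eK cs K s) := by
      intro y n
      have e1 : (MonoidAlgebra.single y n : MonoidAlgebra ℤ (Artin M)) * oe (Artin.gen M s) =
          MonoidAlgebra.single (y * Artin.gen M s) n := by
        change MonoidAlgebra.single y n * MonoidAlgebra.single (Artin.gen M s) 1 = _
        rw [MonoidAlgebra.single_mul_single, mul_one]
      have e2 : (MonoidAlgebra.single y n : MonoidAlgebra ℤ (Artin M)) = n • oe y := by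
        change _ = n • MonoidAlgebra.single y 1
        rw [MonoidAlgebra.smul_single, smul_eq_mul, mul_one]
      rw [mul_sub, mul_one, e1, map_sub, hDD, hDD, hdd_mul y s hs, e2, smul_add, smul_assoc]
      abel
    rw [hx, sum_mul, map_sum, sum_smul, ← sum_neg_distrib]
    exact sum_congr rfl fun y _ => h1 y _
  -- the value of the differential at the empty set
  have h0 : ∑ v : B, c {v} * Pc cs {v} ∅ = 0 := by
    have h1 := congrFun hb ∅
    unfold bdQ at h1
    rw [compl_empty, Pi.zero_apply] at h1
    rw [← h1]
    refine sum_congr rfl fun v _ => ?_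
    have h2 : sgn v (∅ : Finset B) = 1 := by
      unfold sgn
      simp
    rw [h2, one_smul]
    rfl
  have hcK : ∀ v, v ∉ K → c {v} = 0 := by
    intro v hv
    by_contra h
    exact hv ((hc _ h).1.2 (mem_singleton_self v))
  have h2 : ∑ v : B, c {v} • eK cs K v = 0 := by
    have h3 := congrArg DD h0
    rw [map_sum, map_zero] at h3
    have h4 : ∀ v ∈ (univ : Finset B), DD (c {v} * Pc cs {v} ∅) = - (c {v} • eK cs K v) := by
      intro v _
      by_cases hv : v ∈ K
      · rw [Pc_singleton]
        exact hkey v hv _
      · rw [hcK v hv, zero_mul, map_zero, zero_smul, neg_zero]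
    rw [sum_congr rfl h4, sum_neg_distrib, neg_eq_zero] at h3
    exact h3
  have h3 : (Pbd cs K).mkQ c = 0 := by
    have h4 : c = ∑ v : B, c {v} • (Pi.single {v} 1 : Finset B → MonoidAlgebra ℤ (Artin M)) := by
      funext τ
      rw [Finset.sum_apply]
      by_cases hτ : ∃ v, τ = {v}
      · obtain ⟨v, rfl⟩ := hτ
        rw [sum_eq_single v]
        · rw [Pi.smul_apply, Pi.single_eq_same, smul_eq_mul, mul_one]
        · intro u _ hu
          have hne : ({v} : Finset B) ≠ {u} := fun h => hu (singleton_injective h).symm
          rw [Pi.smul_apply, Pi.single_eq_of_ne hne, smul_zero]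
        · intro h; exact absurd (mem_univ v) h
      · have h5 : c τ = 0 := by
          by_contra h
          exact hτ (card_eq_one.mp (hc _ h).2)
        rw [h5]
        symm
        refine sum_eq_zero fun u _ => ?_
        have hne : τ ≠ {u} := fun h => hτ ⟨u, h⟩
        rw [Pi.smul_apply, Pi.single_eq_of_ne hne, smul_zero]
    rw [h4, map_sum]
    rw [← h2]
    refine sum_congr rfl fun v _ => ?_
    rw [map_smul]
    rfl
  rw [Submodule.mkQ_apply, Submodule.Quotient.mk_eq_zero] at h3
  exact h3

end Pool.Agent.H77AR
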