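import Pool.Agent.H77AR.X2

/-!
# Exactness of the Salvetti complex of FC type
-/

set_option autoImplicit false
set_option linter.unusedSectionVars false

namespace Pool.Agent.H77AR

open CoxeterSystem Pool.Agent.Helper741 Finset Pool.Agent.H77RA

variable {B : Type} {M : CoxeterMatrix B} [Fintype B] [LinearOrder B] {W : Type} [Group W] (cs : CoxeterSystem M W)

theorem sph_ne_zero {S : Finset B} (hS : Sph cs S) {i j : B} (hi : i ∈ S) (hj : j ∈ S) : M i j ≠ 0 := by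
  intro h0
  have hij : i ≠ j := by
    rintro rfl
    rw [M.diagonal] at h0
    exact one_ne_zero h0
  obtain ⟨n, hn⟩ : ∃ n, n = cs.length (tw cs S) + 1 := ⟨_, rfl⟩
  have h1 : cs.IsReduced (sw i j 0 n) := by
    rw [sw_zero]
    exact isReduced_alternatingWord cs hij.symm (Or.inl (by rw [M.symmetric]; exact h0))
  have h2 : cs.wordProd (sw i j 0 n) ∈ para cs S := by
    refine para_mono cs ?_ (sw_para cs 0 n)
    intro r hr
    rw [mem_insert, mem_singleton] at hr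
    rcases hr with h | h
    · rw [h]; exact hi
    · rw [h]; exact hj
  have h3 := (tw_top cs hS).le h2
  rw [h1.eq, sw_len] at h3
  omega

theorem exact_fc (hFC : ∀ K : Finset B, (∀ i ∈ K, ∀ j ∈ K, M i j ≠ 0) → Sph cs K) :
    ∀ (m : ℕ) (K : Finset B), K.card = m → ∀ (n : ℕ) (c : Finset B → MonoidAlgebra ℤ (Artin M)),
      Chn (fun S => Sph cs S ∧ S ⊆ K) (n + 1) c → bdQ (Pc cs) c = 0 →
      ∃ c', Chn (fun S => Sph cs S ∧ S ⊆ K) (n + 2) c' ∧ bdQ (Pc cs) c' = c := by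
  classical
  intro m
  induction m using Nat.strong_induction_on with
  | _ m ih =>
  intro K hK n c hc hb
  by_cases hinf : ∀ i ∈ K, ∀ j ∈ K, M i j ≠ 0
  · have hKs := hFC K hinf
    obtain ⟨c', h1, h2⟩ := exact_sph cs hKs n (fun T hT => ⟨(hc T hT).1.2, (hc T hT).2⟩) hb
    exact ⟨c', fun T hT => ⟨⟨Sph.mono cs (h1 T hT).1 hKs, (h1 T hT).1⟩, (h1 T hT).2⟩, h2⟩
  · push Not at hinf
    obtain ⟨i, hi, j, hj, h0⟩ := hinf
    have hij : i ≠ j := by
      rintro rfl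
      rw [M.diagonal] at h0
      exact one_ne_zero h0
    rcases n with _ | n
    · exact exact_one cs K hc hb
    · -- the Mayer-Vietoris argument
      obtain ⟨c1, hc1⟩ : ∃ c1 : Finset B → MonoidAlgebra ℤ (Artin M), c1 = fun S => if i ∈ S then 0 else c S := ⟨_, rfl⟩
      obtain ⟨c2, hc2⟩ : ∃ c2 : Finset B → MonoidAlgebra ℤ (Artin M), c2 = fun S => if i ∈ S then c S else 0 := ⟨_, rfl⟩
      have hsum : c = c1 + c2 := by
        funext S
        rw [hc1, hc2, Pi.add_apply]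
        split_ifs
        · rw [zero_add]
        · rw [add_zero]
      have hch1 : Chn (fun S => Sph cs S ∧ S ⊆ K.erase i) (n + 1 + 1) c1 := by
        intro T hT
        rw [hc1] at hT
        simp only at hT
        split_ifs at hT with h
        · exact absurd rfl hT
        · obtain ⟨⟨h1, h2⟩, h3⟩ := hc T hT
          exact ⟨⟨h1, subset_erase.mpr ⟨h2, h⟩⟩, h3⟩
      have hch2 : Chn (fun S => Sph cs S ∧ S ⊆ K.erase j) (n + 1 + 1) c2 := by
        intro T hT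
        rw [hc2] at hT
        simp only at hT
        split_ifs at hT with h
        · obtain ⟨⟨h1, h2⟩, h3⟩ := hc T hT
          exact ⟨⟨h1, subset_erase.mpr ⟨h2, fun h4 => sph_ne_zero cs h1 h h4 h0⟩⟩, h3⟩
        · exact absurd rfl hT
      have hX : ∀ L : Finset B, ∀ S T : Finset B, S ⊆ T → (Sph cs T ∧ T ⊆ L) → (Sph cs S ∧ S ⊆ L) :=
        fun L S T h1 h2 => ⟨Sph.mono cs h1 h2.1, h1.trans h2.2⟩
      have hQ : ∀ L : Finset B, ∀ σ τ ρ : Finset B, (Sph cs σ ∧ σ ⊆ L) → τ ⊆ σ → ρ ⊆ τ →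
          Pc cs σ τ * Pc cs τ ρ = Pc cs σ ρ := fun L σ τ ρ h h1 h2 => Pc_mul cs h.1 h1 h2
      have hd : bdQ (Pc cs) c2 = - bdQ (Pc cs) c1 := by
        rw [hsum, bdQ_add] at hb
        exact (neg_eq_of_add_eq_zero_right hb).symm
      have hd1 : Chn (fun S => Sph cs S ∧ S ⊆ K.erase i) (n + 1) (bdQ (Pc cs) c1) :=
        bdQ_chn (X := fun S => Sph cs S ∧ S ⊆ K.erase i) (hX _) hch1
      have hd2 : Chn (fun S => Sph cs S ∧ S ⊆ K.erase j) (n + 1) (bdQ (Pc cs) c2) :=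
        bdQ_chn (X := fun S => Sph cs S ∧ S ⊆ K.erase j) (hX _) hch2
      have hd3 : Chn (fun S => Sph cs S ∧ S ⊆ (K.erase i).erase j) (n + 1) (bdQ (Pc cs) c1) := by
        intro T hT
        obtain ⟨⟨h1, h2⟩, h3⟩ := hd1 T hT
        have hT2 : bdQ (Pc cs) c2 T ≠ 0 := by
          rw [hd, Pi.neg_apply]
          exact neg_ne_zero.mpr hT
        obtain ⟨⟨_, h5⟩, _⟩ := hd2 T hT2
        exact ⟨⟨h1, subset_erase.mpr ⟨h2, (subset_erase.mp h5).2⟩⟩, h3⟩
      have hjKi : j ∈ K.erase i := mem_erase.mpr ⟨hij.symm, hj⟩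
      have hcard1 : (K.erase i).card < m := by
        rw [← hK]; exact card_erase_lt_of_mem hi
      have hcard2 : (K.erase j).card < m := by
        rw [← hK]; exact card_erase_lt_of_mem hj
      have hcard3 : ((K.erase i).erase j).card < m := (card_erase_lt_of_mem hjKi).trans hcard1
      obtain ⟨e, he1, he2⟩ := ih _ hcard3 _ rfl n (bdQ (Pc cs) c1) hd3
        (bdQ_bdQ (X := fun S => Sph cs S ∧ S ⊆ K.erase i) (hQ _) hch1)
      have he3 : Chn (fun S => Sph cs S ∧ S ⊆ K.erase i) (n + 2) e := fun T hT =>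
        ⟨⟨(he1 T hT).1.1, (he1 T hT).1.2.trans (erase_subset _ _)⟩, (he1 T hT).2⟩
      have he4 : Chn (fun S => Sph cs S ∧ S ⊆ K.erase j) (n + 2) e := fun T hT =>
        ⟨⟨(he1 T hT).1.1, (he1 T hT).1.2.trans (erase_subset_erase j (erase_subset _ _))⟩, (he1 T hT).2⟩
      obtain ⟨f1, hf1, hf1'⟩ := ih _ hcard1 _ rfl (n + 1) (c1 - e) (hch1.sub he3) (by rw [bdQ_sub, he2, sub_self])
      obtain ⟨f2, hf2, hf2'⟩ := ih _ hcard2 _ rfl (n + 1) (c2 + e) (hch2.add he4)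
        (by rw [bdQ_add, he2, hd, neg_add_cancel])
      refine ⟨f1 + f2, ?_, ?_⟩
      · refine Chn.add (fun T hT => ?_) (fun T hT => ?_)
        · exact ⟨⟨(hf1 T hT).1.1, (hf1 T hT).1.2.trans (erase_subset _ _)⟩, (hf1 T hT).2⟩
        · exact ⟨⟨(hf2 T hT).1.1, (hf2 T hT).1.2.trans (erase_subset _ _)⟩, (hf2 T hT).2⟩
      · rw [bdQ_add, hf1', hf2', hsum]
        abel

/-- **Theorem** (Deligne, Charney and Davis). The Salvetti complex of FC type is exact. -/
theorem salvExact_fc (hFC : ∀ K : Finset B, (∀ i ∈ K, ∀ j ∈ K, M i j ≠ 0) → Sph cs K) : SalvExact cs := by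
  intro n c hc hb
  obtain ⟨c', h1, h2⟩ := exact_fc cs hFC _ univ rfl n c (fun T hT => ⟨⟨(hc T hT).1, subset_univ T⟩, (hc T hT).2⟩) hb
  exact ⟨c', fun T hT => ⟨(h1 T hT).1.1, (h1 T hT).2⟩, h2⟩

end Pool.Agent.H77AR
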